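import Pool.Agent.Run7.h798.MitG

/-!
Acyclicity of gluing groups all of whose nontrivial orbits are infinite.
-/

namespace Run7.h798

open Finsupp

section generic

variable (k : Type*) [CommRing k] {G F : Type*} [Group G] [MulAction G F]

/-- place over the empty list -/
def eIg (G F : Type*) [Group G] [MulAction G F] : EqMap G G PUnit.{1} (List F) G G where
  f := fun _ => []
  a := fun _ z => z
  φ := fun g _ => g
  hf := fun _ _ => rfl
  ha := fun _ _ _ => rfl

/-- forget the horizontal list -/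
def eOg (G F : Type*) [Group G] [MulAction G F] : EqMap G G (List F) PUnit.{1} G G where
  f := fun _ => PUnit.unit
  a := fun _ z => z
  φ := fun g _ => g
  hf := fun _ _ => rfl
  ha := fun _ _ _ => rfl

lemma eOg_eIg (t : Orb G (PUnit.{1} × List G) →₀ k) :
    (eOg G F).map k ((eIg G F).map k t) = t := by
  have : ((eOg G F).map k) ∘ₗ ((eIg G F).map k) = LinearMap.id := by
    apply lin_ext_orb
    rintro ⟨x, l⟩
    rw [LinearMap.comp_apply, EqMap.map_single, EqMap.map_single]
    simp [eOg, eIg]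
  exact congrArg (fun f => f t) this

lemma eIg_mem {q : ℕ} {y : Orb G (PUnit.{1} × List G) →₀ k} (hy : y ∈ SP k G (LS G q)) :
    (eIg G F).map k y ∈ SP k G (LL F G 0 q) := by
  refine desc_mem k _ (EqMap.inv k (eIg G F)) ?_ hy
  rintro ⟨x, l⟩ hl
  rw [← vt_single, vop_vt, lmp_single, vt_single]
  refine single_mem_supported k 1 ⟨rfl, ?_⟩
  show (List.map ((eIg G F).a x) l).length = q
  rw [List.length_map]
  exact hl

lemma eOg_mem {q : ℕ} {y : Orb G (List F × List G) →₀ k}
    (hy : y ∈ SP k G {p : List F × List G | p.2.length = q}) :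
    (eOg G F).map k y ∈ SP k G (LS G q) := by
  refine desc_mem k _ (EqMap.inv k (eOg G F)) ?_ hy
  rintro ⟨x, l⟩ hl
  rw [← vt_single, vop_vt, lmp_single, vt_single]
  refine single_mem_supported k 1 ?_
  show (List.map ((eOg G F).a x) l).length = q
  rw [List.length_map]
  exact hl

lemma eOg_key (r : F) (t : Orb (MulAction.stabilizer G [r])
      (PUnit.{1} × List (MulAction.stabilizer G [r])) →₀ k) :
    (eOg G F).map k (dH k ((eIn [r]).map k t)) =
      hmap k (MulAction.stabilizer G [r]).subtype t := by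
  have h1 : ((eOg G F).map k) ∘ₗ (dH k) ∘ₗ ((eIn [r]).map k) =
      hmap k (MulAction.stabilizer G [r]).subtype := by
    apply lin_ext_orb
    rintro ⟨x, l⟩
    rw [LinearMap.comp_apply, LinearMap.comp_apply, EqMap.map_single, ← qm_single, dH_mk,
      ← tt_single_single, bH_tt, bd_single, one_smul]
    have h3 : bdL k ((eIn (G := G) [r]).f x) = single [] 1 := by
      show bdL k [r] = single [] 1
      simp [bdL_cons]
    rw [h3, tt_single_single, qm_single, EqMap.map_single, hmap_single]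
    simp only [eOg, eIn, List.map_map]
    rfl
  exact congrArg (fun f => f t) h1

/-- supports in a subset -/
def GS (good : Set (List F)) (j q : ℕ) : Set (List F × List G) :=
  {p | (p.1 ∈ good ∧ p.1.length = j) ∧ p.2.length = q}

end generic

section

variable {S I : Type*} {π : S → I} (hπ : Function.Surjective π)
  {W : Subgroup (Equiv.Perm S)}

/-- the functions on the part of `S` over `D` -/
abbrev FF (S : Type*) {I : Type*} (π : S → I) (D : Set I) : Type _ := {s : S // π s ∈ D} → S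

/-- the inclusion -/
def u0 (π : S → I) (D : Set I) : FF S π D := Subtype.val

/-- parts met by a function -/
def img {π : S → I} {D : Set I} (u : FF S π D) : Set I := {i | ∃ s, π (u s) = i}

/-- parts missed by a list of functions -/
def EE {π : S → I} {D : Set I} (x : List (FF S π D)) : Set I := {i | ∀ u ∈ x, i ∉ img u}

/-- good lists -/
def Good (W : Subgroup (Equiv.Perm S)) (D : Set I) : Set (List (FF S π D)) :=
  {x | (∀ u ∈ x, ∃ w : W, u = w • u0 π D) ∧ Big hπ W (EE x)}

/-- fresh functions -/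
def Fr (W : Subgroup (Equiv.Perm S)) {D : Set I} (x : List (FF S π D)) (v : FF S π D) : Prop :=
  (∃ w : W, v = w • u0 π D) ∧ img v ⊆ EE x ∧ Big hπ W (EE x \ img v)

lemma EE_cons {D : Set I} (v : FF S π D) (x : List (FF S π D)) : EE (v :: x) = EE x \ img v := by
  ext i
  simp only [EE, List.mem_cons, forall_eq_or_imp, Set.mem_sdiff]
  exact and_comm

lemma EE_sub {D : Set I} {x x' : List (FF S π D)} (hx : List.Sublist x' x) : EE x ⊆ EE x' :=
  fun _ hi u hu => hi u (hx.subset hu)

variable (h : Glue π W)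

include h hπ

lemma img_smul {D : Set I} (w : W) (u : FF S π D) : img (w • u) = act hπ w.1 '' img u := by
  ext i
  constructor
  · rintro ⟨s, rfl⟩
    exact ⟨π (u s), ⟨s, rfl⟩, act_eq hπ h w.2 (u s)⟩
  · rintro ⟨_, ⟨s, rfl⟩, rfl⟩
    exact ⟨s, (act_eq hπ h w.2 (u s)).symm⟩

omit h in
lemma img_u0 (D : Set I) : img (u0 π D) = D := by
  ext i
  constructor
  · rintro ⟨s, rfl⟩
    exact s.2
  · intro hi
    obtain ⟨s, rfl⟩ := hπ i
    exact ⟨⟨s, hi⟩, rfl⟩

lemma big_act {E : Set I} (hE : Big hπ W E) (w : W) : Big hπ W (act hπ w.1 '' E) := by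
  intro i hi
  have h1 : (act hπ w.1 '' (E ∩ OO hπ W i)).Infinite := (hE i hi).image (act_inj hπ h w.2).injOn
  refine h1.mono ?_
  rintro _ ⟨j, ⟨hj1, hj2⟩, rfl⟩
  exact ⟨⟨j, hj1, rfl⟩, OO_trans hπ h hj2 ⟨w.1, w.2, rfl⟩⟩

lemma EE_smul {D : Set I} (w : W) (x : List (FF S π D)) :
    EE (w • x) = act hπ w.1 '' EE x := by
  ext i
  constructor
  · intro hi
    refine ⟨act hπ (w.1)⁻¹ i, ?_, act_act_inv hπ h w.2 i⟩
    intro u hu hiu
    refine hi (w • u) (List.mem_map_of_mem hu) ?_
    rw [img_smul hπ h]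
    exact ⟨_, hiu, act_act_inv hπ h w.2 i⟩
  · rintro ⟨j, hj, rfl⟩ u' hu' hiu
    obtain ⟨u, hu, rfl⟩ := List.mem_map.1 hu'
    have hiu2 : act hπ w.1 j ∈ img (w • u) := hiu
    rw [img_smul hπ h] at hiu2
    obtain ⟨l, hl, hl'⟩ := hiu2
    rw [act_inj hπ h w.2 hl'] at hl
    exact hj u hu hl

lemma good_smul {D : Set I} (g : W) (x : List (FF S π D)) (hx : x ∈ Good hπ W D) :
    g • x ∈ Good hπ W D := by
  refine ⟨?_, ?_⟩
  · intro u' hu'
    obtain ⟨u, hu, rfl⟩ := List.mem_map.1 hu'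
    obtain ⟨w, rfl⟩ := hx.1 u hu
    exact ⟨g * w, (mul_smul g w _).symm⟩
  · rw [EE_smul hπ h]
    exact big_act hπ h hx.2 g

omit h in
lemma good_sub {D : Set I} {x x' : List (FF S π D)} (hx' : List.Sublist x' x)
    (hx : x ∈ Good hπ W D) : x' ∈ Good hπ W D :=
  ⟨fun u hu => hx.1 u (hx'.subset hu), Big.mono hπ hx.2 (EE_sub hx')⟩

omit h in
lemma fresh_sub {D : Set I} {x x' : List (FF S π D)} (hx' : List.Sublist x' x)
    {v : FF S π D} (hv : Fr hπ W x v) : Fr hπ W x' v :=
  ⟨hv.1, hv.2.1.trans (EE_sub hx'),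
    Big.mono hπ hv.2.2 (Set.sdiff_subset_sdiff_left (EE_sub hx'))⟩

omit h in
lemma fresh_good {D : Set I} {x : List (FF S π D)} {v : FF S π D} (hx : x ∈ Good hπ W D)
    (hv : Fr hπ W x v) : v :: x ∈ Good hπ W D := by
  refine ⟨?_, ?_⟩
  · intro u hu
    rcases List.mem_cons.1 hu with rfl | hu
    · exact hv.1
    · exact hx.1 u hu
  · rw [EE_cons]
    exact hv.2.2

lemma fresh_smul {D : Set I} (g : W) {x : List (FF S π D)} {v : FF S π D}
    (hv : Fr hπ W x v) : Fr hπ W (g • x) (g • v) := by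
  refine ⟨?_, ?_, ?_⟩
  · obtain ⟨w, rfl⟩ := hv.1
    exact ⟨g * w, (mul_smul g w _).symm⟩
  · rw [img_smul hπ h, EE_smul hπ h]
    exact Set.image_mono hv.2.1
  · rw [img_smul hπ h, EE_smul hπ h, ← Set.image_sdiff (act_inj hπ h g.2)]
    exact big_act hπ h hv.2.2 g

lemma exists_elt [Countable I] {D D' : Set I} (hD : Big hπ W D) (hDa : D ⊆ Acv π W)
    (hDc : Big hπ W Dᶜ)
    (hD' : Big hπ W D') (hDa' : D' ⊆ Acv π W) (hDc' : Big hπ W D'ᶜ) :
    ∃ w : W, img (w • u0 π D) = D' := by
  obtain ⟨w, hw, h1⟩ := trans_big hπ h hD hDa hDc hD' hDa' hDc'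
  refine ⟨⟨w, hw⟩, ?_⟩
  rw [img_smul hπ h, img_u0 hπ]
  ext i
  constructor
  · rintro ⟨d, hd, rfl⟩
    exact (h1 d).2 hd
  · intro hi
    refine ⟨act hπ w⁻¹ i, ?_, act_act_inv hπ h hw i⟩
    rw [← h1]
    show act hπ w (act hπ w⁻¹ i) ∈ D'
    rw [act_act_inv hπ h hw i]
    exact hi

lemma fresh_exists [Countable I] {D : Set I} (hD : Big hπ W D) (hDa : D ⊆ Acv π W)
    (hDc : Big hπ W Dᶜ) {x : List (FF S π D)} (hx : x ∈ Good hπ W D) :
    ∃ v, Fr hπ W x v := by
  obtain ⟨D', h1, h2, h3, h4⟩ := split_big hπ h hx.2 ({()} : Finset Unit) (fun _ => EE x)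
    (fun _ _ => hx.2)
  have h5 := h4 () (by simp)
  obtain ⟨w, hw⟩ := exists_elt hπ h hD hDa hDc h3 h2 (Big.mono hπ h5 (fun i hi => hi.2))
  refine ⟨w • u0 π D, ⟨w, rfl⟩, ?_, ?_⟩
  · rw [hw]; exact h1
  · rw [hw]; exact h5

lemma cone_exists [Countable I] {D : Set I} (hD : Big hπ W D) (hDa : D ⊆ Acv π W)
    (hDc : Big hπ W Dᶜ) (T : Finset (List (FF S π D))) (hT : ∀ x ∈ T, x ∈ Good hπ W D) :
    ∃ v : FF S π D, ∀ x ∈ T, v :: x ∈ Good hπ W D := by
  classical
  obtain ⟨D', _, h2, h3, h4⟩ := split_big hπ h (big_univ hπ h) (insert [] T)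
    (fun x : List (FF S π D) => EE x) (by
      intro x hx
      rcases Finset.mem_insert.1 hx with rfl | hx
      · have : EE ([] : List (FF S π D)) = Set.univ := by
          ext i; simp [EE]
        rw [this]
        exact big_univ hπ h
      · exact (hT x hx).2)
  have h5 := h4 [] (Finset.mem_insert_self _ _)
  obtain ⟨w, hw⟩ := exists_elt hπ h hD hDa hDc h3 h2 (Big.mono hπ h5 (fun i hi => hi.2))
  refine ⟨w • u0 π D, fun x hx => ⟨?_, ?_⟩⟩
  · intro u hu
    rcases List.mem_cons.1 hu with rfl | hu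
    · exact ⟨w, rfl⟩
    · exact (hT x hx).1 u hu
  · rw [EE_cons, hw]
    exact h4 x (Finset.mem_insert_of_mem hx)

omit h hπ in
lemma smul_list_eq_self {G F : Type*} [Group G] [MulAction G F] {g : G} {x : List F} :
    g • x = x ↔ ∀ u ∈ x, g • u = u := by
  induction x with
  | nil => simp
  | cons a x ih =>
    rw [smul_list_cons]
    constructor
    · intro hh u hu
      have h1 := (List.cons.inj hh).1
      have h2 := (List.cons.inj hh).2
      rcases List.mem_cons.1 hu with rfl | hu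
      · exact h1
      · exact ih.1 h2 u hu
    · intro hh
      rw [hh a List.mem_cons_self, ih.2 (fun u hu => hh u (List.mem_cons_of_mem _ hu))]

lemma smul_eq_self_iff {D : Set I} {x : List (FF S π D)}
    (hx : ∀ u ∈ x, ∃ w : W, u = w • u0 π D) (g : W) :
    g • x = x ↔ ∀ s, π s ∉ EE x → g.1 s = s := by
  rw [smul_list_eq_self]
  constructor
  · intro hg s hs
    have : ∃ u ∈ x, π s ∈ img u := by
      by_contra hc
      push Not at hc
      exact hs hc
    obtain ⟨u, hu, s0, hs0⟩ := this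
    obtain ⟨w, rfl⟩ := hx u hu
    have h1 : π (w.1⁻¹ s) = π s0.1 := by
      have h2 : π (w.1 s0.1) = π s := hs0
      rw [← act_eq hπ h (W.inv_mem w.2), ← h2, ← act_eq hπ h w.2, act_inv_act hπ h w.2]
    have h3 := congrFun (hg _ hu) ⟨w.1⁻¹ s, by rw [h1]; exact s0.2⟩
    have h4 : g.1 (w.1 (w.1⁻¹ s)) = w.1 (w.1⁻¹ s) := h3
    simpa using h4
  · intro hg u hu
    funext s
    exact hg (u s) (fun hc => hc u hu ⟨s, rfl⟩)

lemma fresh_unique [Countable I] {D : Set I} (hDa : D ⊆ Acv π W)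
    {x : List (FF S π D)} (hx : x ∈ Good hπ W D) {v v' : FF S π D}
    (hv : Fr hπ W x v) (hv' : Fr hπ W x v') : ∃ g : W, g • x = x ∧ g • v = v' := by
  obtain ⟨⟨w, rfl⟩, h1, h2⟩ := hv
  obtain ⟨⟨w', rfl⟩, h1', h2'⟩ := hv'
  rw [img_smul hπ h, img_u0 hπ] at h1 h2 h1' h2'
  obtain ⟨g, hg, h3⟩ := extend_big hπ h hDa hx.2 w.2 w'.2 h1 h1' h2 h2'
  refine ⟨⟨g, hg.1⟩, ?_, ?_⟩
  · rw [smul_eq_self_iff hπ h hx.1]
    exact hg.2
  · funext s
    exact h3 s.1 s.2

lemma stab_good {D : Set I} {x : List (FF S π D)} (hx : x ∈ Good hπ W D) :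
    MulAction.stabilizer W x = (sup π W (EE x)).subgroupOf W := by
  ext g
  rw [MulAction.mem_stabilizer_iff, smul_eq_self_iff hπ h hx.1, Subgroup.mem_subgroupOf]
  exact ⟨fun hg => ⟨g.2, hg⟩, fun hg => hg.2⟩

/-- exactness of the bottom row -/
lemma row_zero (k : Type*) [CommRing k] [Countable I] {D : Set I} (hD : Big hπ W D)
    (hDa : D ⊆ Acv π W) (hDc : Big hπ W Dᶜ) (j : ℕ)
    (y : Orb W (List (FF S π D) × List W) →₀ k)
    (hy : y ∈ SP k W (GS (G := W) (Good hπ W D) j 0)) (hz : dH k y = 0) :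
    ∃ x ∈ SP k W (GS (G := W) (Good hπ W D) (j + 1) 0), dH k x = y := by
  classical
  have hfr : ∀ x : List (FF S π D), ∃ v, x ∈ Good hπ W D → Fr hπ W x v := by
    intro x
    by_cases hx : x ∈ Good hπ W D
    · obtain ⟨v, hv⟩ := fresh_exists hπ h hD hDa hDc hx
      exact ⟨v, fun _ => hv⟩
    · exact ⟨u0 π D, fun hc => absurd hc hx⟩
  choose fr hfr using hfr
  let T : (List (FF S π D) × List W →₀ k) →ₗ[k] (List (FF S π D) × List W →₀ k) :=
    Finsupp.linearCombination k (fun p => if p.1 ∈ Good hπ W D ∧ p.2 = [] then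
      single (fr p.1 :: p.1, p.2) 1 else 0)
  have hT1 : ∀ x, x ∈ Good hπ W D → T (single (x, []) 1) = single (fr x :: x, []) 1 := by
    intro x hx
    simp [T, hx]
  have hcls : ∀ x, x ∈ Good hπ W D → ∀ v, Fr hπ W x v →
      cls W ((fr x :: x, []) : List (FF S π D) × List W) = cls W (v :: x, []) := by
    intro x hx v hv
    obtain ⟨g, hg1, hg2⟩ := fresh_unique hπ h hDa hx hv (hfr x hx)
    rw [cls_eq_iff]
    refine ⟨g, ?_⟩
    show (g • (v :: x), g • ([] : List W)) = (fr x :: x, [])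
    rw [smul_list_cons, hg1, hg2]
    rfl
  have hinv : ∀ (g : W) (y : List (FF S π D) × List W),
      qm k W (T (single (g • y) 1)) = qm k W (T (single y 1)) := by
    rintro g ⟨x, l⟩
    have hgy : g • ((x, l) : List (FF S π D) × List W) = (g • x, g • l) := rfl
    rw [hgy]
    by_cases hc : x ∈ Good hπ W D ∧ l = []
    · obtain ⟨hx, rfl⟩ := hc
      rw [smul_list_nil, hT1 x hx, hT1 _ (good_smul hπ h g x hx), qm_single, qm_single]
      congr 1
      rw [hcls _ (good_smul hπ h g x hx) (g • fr x) (fresh_smul hπ h g (hfr x hx)), cls_eq_iff]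
      exact ⟨g, rfl⟩
    · have hc' : ¬ (g • x ∈ Good hπ W D ∧ g • l = []) := by
        rintro ⟨h1, h2⟩
        refine hc ⟨?_, ?_⟩
        · have := good_smul hπ h g⁻¹ _ h1
          rwa [inv_smul_smul] at this
        · have := congrArg List.length h2
          rw [smul_list_length] at this
          exact List.length_eq_zero_iff.1 this
      simp only [T, Finsupp.linearCombination_single, one_smul]
      rw [if_neg hc, if_neg hc']
  set Sb := desc k T hinv with hSb
  have hmain : dH k (Sb y) + Sb (dH k y) = y := by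
    refine lin_ext_SP k (S := (dH k) ∘ₗ Sb + Sb ∘ₗ (dH k)) (T := LinearMap.id)
      (GS (G := W) (Good hπ W D) j 0) ?_ hy
    rintro ⟨x, l⟩ ⟨⟨hx, _⟩, hl⟩
    have hl' : l = [] := List.length_eq_zero_iff.1 hl
    subst hl'
    have e1 : Sb (single (cls W ((x, []) : List (FF S π D) × List W)) 1) =
        qm k W (hcons k (fr x) (single (x, []) 1)) := by
      rw [hSb, ← qm_single, desc_mk, hT1 x hx, hcons_single]
    have e2 : Sb (dH k (single (cls W ((x, []) : List (FF S π D) × List W)) 1)) =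
        qm k W (hcons k (fr x) (bH k (single (x, []) 1))) := by
      rw [← qm_single, dH_mk, hSb, desc_mk, ← tt_single_single, bH_tt, bd_single, one_smul]
      have e3 : ∀ v : List (FF S π D) →₀ k, v ∈ supported k k {x' | List.Sublist x' x} →
          qm k W (T (tt k (single [] 1) v)) = qm k W (hcons k (fr x) (tt k (single [] 1) v)) := by
        intro v hv
        rw [← sub_eq_zero]
        set U : (List (FF S π D) →₀ k) →ₗ[k] (Orb W (List (FF S π D) × List W) →₀ k) :=
          (qm k W) ∘ₗ T ∘ₗ (tt k (single [] 1)) -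
            (qm k W) ∘ₗ (hcons k (fr x)) ∘ₗ (tt k (single [] 1)) with hU
        have hU' : U = Finsupp.linearCombination k (fun p => U (single p 1)) := by
          apply Finsupp.lhom_ext'
          intro p
          apply LinearMap.ext_ring
          simp
        have hU2 : U v ∈ (⊥ : Submodule k (Orb W (List (FF S π D) × List W) →₀ k)) := by
          rw [hU']
          refine lin_mem k _ ?_ hv
          intro x' hx'
          have hx'' : List.Sublist x' x := hx'
          have hg' := good_sub hπ hx'' hx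
          rw [Submodule.mem_bot, hU]
          simp only [LinearMap.sub_apply, LinearMap.coe_comp, Function.comp_apply,
            tt_single_single]
          rw [hT1 x' hg', hcons_single, qm_single, qm_single,
            hcls x' hg' (fr x) (fresh_sub hπ hx'' (hfr x hx)), sub_self]
        rw [Submodule.mem_bot, hU] at hU2
        simpa using hU2
      exact e3 _ (bdL_sublist k x)
    rw [LinearMap.add_apply, LinearMap.comp_apply, LinearMap.comp_apply, e1, e2, dH_mk, bH_hcons,
      map_sub, qm_single, LinearMap.id_apply]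
    abel
  refine ⟨Sb y, ?_, ?_⟩
  · refine desc_mem k _ hinv ?_ hy
    rintro ⟨x, l⟩ ⟨⟨hx, hxj⟩, hl⟩
    have hl' : l = [] := List.length_eq_zero_iff.1 hl
    subst hl'
    rw [hT1 x hx]
    refine single_mem_supported k 1 ⟨⟨fresh_good hπ hx (hfr x hx), ?_⟩, rfl⟩
    show x.length + 1 = j + 1
    rw [hxj]
  · rw [hz, map_zero, add_zero] at hmain
    exact hmain

end

end Run7.h798
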