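import Pool.Agent.Run7.h798.Acyc

/-!
Acyclicity of gluing groups: the induction.
-/

namespace Run7.h798

open Finsupp

lemma SP_mono {k : Type*} [CommRing k] {G Y : Type*} [Group G] [MulAction G Y] {P P' : Set Y}
    (hP : P ⊆ P') {y : Orb G Y →₀ k} (hy : y ∈ SP k G P) : y ∈ SP k G P' := by
  obtain ⟨v, hv, rfl⟩ := (mem_SP k).1 hy
  exact qm_mem_SP k (supported_mono hP hv)

section

variable (k : Type*) [CommRing k] {S I : Type*} {π : S → I} (hπ : Function.Surjective π)
  [Countable I]

include hπ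

lemma incl_zero {W : Subgroup (Equiv.Perm S)} (h : Glue π W) (n : ℕ)
    (IH : ∀ V : Subgroup (Equiv.Perm S), Glue π V → ∀ q ≤ n, Ex k V q)
    {D : Set I} (hDa : D ⊆ Acv π W) (hD : Big hπ W D) (hDc : Big hπ W Dᶜ)
    {z : Orb (sup π W Dᶜ) (PUnit.{1} × List (sup π W Dᶜ)) →₀ k}
    (hz : z ∈ SP k (sup π W Dᶜ) (LS (sup π W Dᶜ) (n + 1))) (hz0 : dV k z = 0) :
    ∃ w ∈ SP k W (LS W (n + 2)), dV k w =
      hmap k (Subgroup.inclusion (fun _ hw => hw.1 : sup π W Dᶜ ≤ W)) z := by
  obtain ⟨ψ, c, h1, h2⟩ := mit_data hπ h hDa hD hDc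
  exact mitosis k n (IH _ (glue_sup hπ h hDc)) _ ψ h1 c h2 hz hz0

lemma glue_step {W : Subgroup (Equiv.Perm S)} (h : Glue π W) (n : ℕ)
    (IH : ∀ V : Subgroup (Equiv.Perm S), Glue π V → ∀ q ≤ n, Ex k V q) : Ex k W (n + 1) := by
  classical
  obtain ⟨D, _, hDa, hD, hDc'⟩ := split_big hπ h (big_univ hπ h) ({()} : Finset Unit)
    (fun _ => Set.univ) (fun _ _ => big_univ hπ h)
  have hDc : Big hπ W Dᶜ := by
    have := hDc' () (by simp)
    rwa [← Set.compl_eq_univ_sdiff] at this
  intro y hy hyz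
  set good : Set (List (FF S π D)) := Good hπ W D with hgood
  set DD : ℕ → ℕ → Submodule k (Orb W (List (FF S π D) × List W) →₀ k) :=
    fun j q => SP k W (GS (G := W) good j q) with hDD
  have hLL : ∀ j q, GS (G := W) good j q ⊆ LL (FF S π D) W j q := by
    rintro j q p ⟨⟨_, h1⟩, h2⟩
    exact ⟨h1, h2⟩
  have mh : ∀ j q x, x ∈ DD (j + 1) q → dH k x ∈ DD j q := by
    intro j q x hx
    have hk : ∀ p ∈ GS (G := W) good (j + 1) q,
        bH k (single p 1) ∈ supported k k (GS (G := W) good j q) := by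
      rintro ⟨x, l⟩ ⟨⟨hx, hxj⟩, hl⟩
      rw [← tt_single_single, bH_tt, bd_single, one_smul]
      have h1 : bdL k x ∈ supported k k (LenSet (FF S π D) j ∩ {x' | List.Sublist x' x}) := by
        rw [supported_inter]
        exact ⟨bdL_mem k hxj, bdL_sublist k x⟩
      refine lin_mem k _ ?_ h1
      rintro x' ⟨hx'1, hx'2⟩
      rw [vt_single]
      exact single_mem_supported k 1 ⟨⟨good_sub hπ hx'2 hx, hx'1⟩, hl⟩
    obtain ⟨v, hv, rfl⟩ := (mem_SP k).1 hx
    rw [dH_mk]
    refine qm_mem_SP k ?_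
    have h1 : bH k (F := FF S π D) (B := List W) =
        Finsupp.linearCombination k (fun p => bH k (single p 1)) := by
      apply Finsupp.lhom_ext'
      intro y
      apply LinearMap.ext_ring
      simp
    rw [h1]
    exact lin_mem k _ hk hv
  have hEI : (eIg W (FF S π D)).map k y ∈ DD 0 (n + 1) := by
    refine desc_mem k _ (EqMap.inv k (eIg W (FF S π D))) ?_ hy
    rintro ⟨x, l⟩ hl
    rw [← vt_single, vop_vt, lmp_single, vt_single]
    refine single_mem_supported k 1 ⟨⟨⟨by simp [eIg], ?_⟩, rfl⟩, ?_⟩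
    · have : EE ((eIg W (FF S π D)).f x) = Set.univ := by
        ext i; simp [EE, eIg]
      rw [this]
      exact big_univ hπ h
    · show (List.map ((eIg W (FF S π D)).a x) l).length = n + 1
      rw [List.length_map]
      exact hl
  obtain ⟨z, hzD, hzV, hzH⟩ := zig (dH k) (dV k) DD n (fun x => dH_dV k x) (fun x => dH_dH k x)
    (fun x => dV_dV k x) mh
    (fun j q x hx => by
      have := dV_mem k (good := {x : List (FF S π D) | x ∈ good ∧ x.length = j}) (q := q)
        (y := x) hx
      exact this)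
    (fun q x hx => dH_zero_LL k (SP_mono (hLL 0 q) hx))
    (by
      intro j q x _ hx hxz
      cases q with
      | zero => exact row_zero hπ h k hD hDa hDc j x hx hxz
      | succ q =>
        exact row_exact k good (fun g x hx => good_smul hπ h g x hx)
          (fun T hT => cone_exists hπ h hD hDa hDc T hT) j q x hx hxz)
    (by
      intro j q x _ hq hx hxz
      obtain ⟨w, hw, h2⟩ := col_exact k (A := List (FF S π D)) {x | x ∈ good ∧ x.length = j}
        (fun g x hx => ⟨good_smul hπ h g x hx.1, by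
          show (g • x).length = j
          rw [smul_list_length]; exact hx.2⟩) q
        (fun a ha => by
          rw [stab_good hπ h ha.1]
          exact Ex_iso k (Subgroup.subgroupOfEquivOfLe
            (fun _ hw => hw.1 : sup π W (EE a) ≤ W)).symm
            (IH _ (glue_sup hπ h ha.1.2) q hq)) x hx hxz
      exact ⟨w, hw, h2⟩)
    (fun j x hx => dV_zero_LL k (SP_mono (hLL j 0) hx))
    ((eIg W (FF S π D)).map k y) hEI (by rw [← EqMap.map_dV, hyz, map_zero])
  -- Shapiro
  obtain ⟨T, hT, hκ, w, hw, hdec⟩ := shap k (A := List (FF S π D))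
    {x | x ∈ good ∧ x.length = 1}
    (fun g x hx => ⟨good_smul hπ h g x hx.1, by
      show (g • x).length = 1
      rw [smul_list_length]; exact hx.2⟩) (n + 1) z hzD hzV
  have hzS : z ∈ SP k W {p : List (FF S π D) × List W | p.2.length = n + 1} :=
    SP_mono (fun p hp => hp.2) hzD
  have hbd : ∀ a ∈ T, ∃ t ∈ SP k W (LS W (n + 2)), dV k t =
      (eOg W (FF S π D)).map k (dH k ((eIn a).map k (kap k a z))) := by
    intro a ha
    obtain ⟨hga, hla⟩ := hT a ha
    obtain ⟨u, rfl⟩ := List.length_eq_one_iff.1 hla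
    rw [eOg_key]
    have hEu : EE [u] = (img u)ᶜ := by
      ext i; simp [EE]
    obtain ⟨w0, hw0⟩ := hga.1 u List.mem_cons_self
    have himg : img u = act hπ w0.1 '' D := by
      rw [hw0, img_smul hπ h, img_u0 hπ]
    have h1 : img u ⊆ Acv π W := by
      rw [himg]
      rintro _ ⟨d, hd, rfl⟩
      exact acv_act hπ h w0.2 (hDa hd)
    have h2 : Big hπ W (img u) := by
      rw [himg]
      exact big_act hπ h hD w0
    have h3 : Big hπ W (img u)ᶜ := by
      rw [← hEu]; exact hga.2
    have hst : MulAction.stabilizer W [u] = (sup π W (img u)ᶜ).subgroupOf W := by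
      rw [stab_good hπ h hga, hEu]
    let θ : MulAction.stabilizer W [u] →* sup π W (img u)ᶜ :=
      { toFun := fun s => ⟨s.1.1, by
          have h6 : ∀ g : W, g ∈ MulAction.stabilizer W [u] → g.1 ∈ sup π W (img u)ᶜ := by
            intro g hg
            rw [hst, Subgroup.mem_subgroupOf] at hg
            exact hg
          exact h6 s.1 s.2⟩
        map_one' := rfl
        map_mul' := fun _ _ => rfl }
    obtain ⟨t, ht, h4⟩ := incl_zero k hπ h n IH h1 h2 h3
      (z := hmap k θ (kap k [u] z)) (hmap_mem k _ (kap_mem k [u] hzS))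
      (by rw [← hmap_dV, hκ, map_zero])
    refine ⟨t, ht, ?_⟩
    rw [h4, hmap_hmap]
    rfl
  choose! t ht1 ht2 using hbd
  have hwO : (eOg W (FF S π D)).map k (dH k w) ∈ SP k W (LS W (n + 2)) := by
    refine eOg_mem k ?_
    have hw1 : w ∈ SP k W (LL (FF S π D) W 1 (n + 2)) := by
      refine SP_mono ?_ hw
      intro p hp
      exact ⟨hp.1.2, hp.2⟩
    refine SP_mono ?_ (dH_mem_LL k (j := 0) hw1)
    intro p hp
    exact hp.2
  refine ⟨∑ a ∈ T, t a - (eOg W (FF S π D)).map k (dH k w),
    Submodule.sub_mem _ (Submodule.sum_mem _ ht1) hwO, ?_⟩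
  have h5 : y = (eOg W (FF S π D)).map k (dH k z) := by rw [hzH, eOg_eIg]
  rw [map_sub, map_sum]
  conv_rhs => rw [h5, hdec]
  rw [map_sub, map_sub, map_sum, map_sum, dH_dV, EqMap.map_dV]
  congr 1
  exact Finset.sum_congr rfl (fun a ha => ht2 a ha)

/-- gluing groups whose nontrivial orbits are infinite are acyclic -/
theorem glue_acyclic (n : ℕ) : ∀ W : Subgroup (Equiv.Perm S), Glue π W → Ex k W n := by
  induction n using Nat.strong_induction_on with
  | _ n ih =>
    intro W h
    cases n with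
    | zero => exact Ex_zero k
    | succ n =>
      exact glue_step k hπ h n (fun V hV q hq => ih q (by omega) V hV)

end

end Run7.h798
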