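import Pool.Agent.Run7.h798.Shap

/-!
Basic properties of the complexes of groups: functoriality, conjugation, low degrees.
-/

namespace Run7.h798

open Finsupp

section

variable (k : Type*) [CommRing k]

section comp

variable {G G' G'' : Type*} [Group G] [Group G'] [Group G'']
  {A A' A'' Z Z' Z'' : Type*} [MulAction G A] [MulAction G' A'] [MulAction G'' A'']
  [MulAction G Z] [MulAction G' Z'] [MulAction G'' Z'']

lemma lin_ext_SP {M : Type*} [AddCommGroup M] [Module k M] {Y : Type*} [MulAction G Y]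
    {S T : (Orb G Y →₀ k) →ₗ[k] M} (P : Set Y)
    (h : ∀ y ∈ P, S (single (cls G y) 1) = T (single (cls G y) 1))
    {x : Orb G Y →₀ k} (hx : x ∈ SP k G P) : S x = T x := by
  obtain ⟨v, hv, rfl⟩ := (mem_SP k).1 hx
  rw [← sub_eq_zero]
  have h1 : ∀ U : (Y →₀ k) →ₗ[k] M, U = Finsupp.linearCombination k (fun p => U (single p 1)) := by
    intro U
    apply Finsupp.lhom_ext'
    intro y
    apply LinearMap.ext_ring
    simp
  have h2 : ((S ∘ₗ qm k G) - (T ∘ₗ qm k G) : (Y →₀ k) →ₗ[k] M) v ∈ (⊥ : Submodule k M) := by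
    rw [h1 ((S ∘ₗ qm k G) - (T ∘ₗ qm k G))]
    refine lin_mem k _ ?_ hv
    intro y hy
    simp [h y hy]
  simpa using h2

lemma lin_ext_orb {M : Type*} [AddCommGroup M] [Module k M] {Y : Type*} [MulAction G Y]
    {S T : (Orb G Y →₀ k) →ₗ[k] M}
    (h : ∀ y, S (single (cls G y) 1) = T (single (cls G y) 1)) : S = T := by
  apply Finsupp.lhom_ext'
  intro q
  apply LinearMap.ext_ring
  obtain ⟨y, rfl⟩ : ∃ y, cls G y = q := Quotient.exists_rep q
  exact h y

lemma map_map (e : EqMap G G' A A' Z Z') (e' : EqMap G' G'' A' A'' Z' Z'')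
    (e'' : EqMap G G'' A A'' Z Z'')
    (h : ∀ x (l : List Z), cls G'' (e''.f x, l.map (e''.a x)) =
      cls G'' (e'.f (e.f x), (l.map (e.a x)).map (e'.a (e.f x))))
    (y : Orb G (A × List Z) →₀ k) : e'.map k (e.map k y) = e''.map k y := by
  have : (e'.map k) ∘ₗ (e.map k) = e''.map k := by
    apply lin_ext_orb
    rintro ⟨x, l⟩
    rw [LinearMap.comp_apply, EqMap.map_single, EqMap.map_single, EqMap.map_single, h x l]
  exact congrArg (fun f => f y) this

end comp

variable {S S' S'' : Type*} [Group S] [Group S'] [Group S'']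

/-- data of a homomorphism -/
def eHom (φ : S →* S') : EqMap S S' PUnit.{1} PUnit.{1} S S' where
  f := id
  a := fun _ s => φ s
  φ := fun s _ => φ s
  hf := fun _ _ => rfl
  ha := fun _ _ _ => by simp

/-- the map induced by a homomorphism -/
noncomputable def hmap (φ : S →* S') :
    (Orb S (PUnit.{1} × List S) →₀ k) →ₗ[k] (Orb S' (PUnit.{1} × List S') →₀ k) :=
  (eHom φ).map k

lemma hmap_single (φ : S →* S') (l : List S) :
    hmap k φ (single (cls S (PUnit.unit, l)) 1) = single (cls S' (PUnit.unit, l.map φ)) 1 :=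
  EqMap.map_single k _ _ _

lemma hmap_dV (φ : S →* S') (y : Orb S (PUnit.{1} × List S) →₀ k) :
    hmap k φ (dV k y) = dV k (hmap k φ y) := EqMap.map_dV k _ _

lemma hmap_hmap (φ : S →* S') (ψ : S' →* S'') (y : Orb S (PUnit.{1} × List S) →₀ k) :
    hmap k ψ (hmap k φ y) = hmap k (ψ.comp φ) y := by
  refine map_map k _ _ _ ?_ y
  intro x l
  simp only [eHom, List.map_map]
  rfl

lemma hmap_id (y : Orb S (PUnit.{1} × List S) →₀ k) : hmap k (MonoidHom.id S) y = y := by
  have : hmap k (MonoidHom.id S) = LinearMap.id := by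
    apply lin_ext_orb
    rintro ⟨x, l⟩
    rw [hmap_single]
    simp
  rw [this]; rfl

/-- lists of length `q` -/
def LS (S : Type*) (q : ℕ) : Set (PUnit.{1} × List S) := {p | p.2.length = q}

lemma to_univ {S : Type*} {q : ℕ} {v : PUnit.{1} × List S →₀ k}
    (hv : v ∈ supported k k (LS S q)) :
    v ∈ supported k k {p : PUnit.{1} × List S | p.1 ∈ (Set.univ : Set PUnit.{1}) ∧
      p.2.length = q} := by
  refine supported_mono (s := LS S q) ?_ hv
  intro p hp
  exact ⟨trivial, hp⟩

lemma of_univ {S : Type*} {q : ℕ} {v : PUnit.{1} × List S →₀ k}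
    (hv : v ∈ supported k k {p : PUnit.{1} × List S | p.1 ∈ (Set.univ : Set PUnit.{1}) ∧
      p.2.length = q}) : v ∈ supported k k (LS S q) := by
  refine supported_mono (t := LS S q) ?_ hv
  intro p hp
  exact hp.2

lemma hmap_mem (φ : S →* S') {q : ℕ} {y : Orb S (PUnit.{1} × List S) →₀ k}
    (hy : y ∈ SP k S (LS S q)) : hmap k φ y ∈ SP k S' (LS S' q) := by
  refine desc_mem k _ (EqMap.inv k (eHom φ)) ?_ hy
  rintro ⟨x, l⟩ hl
  rw [← vt_single, vop_vt, lmp_single, vt_single]
  refine single_mem_supported k 1 ?_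
  simpa [LS] using hl

lemma dV_mem {G A Z : Type*} [Group G] [MulAction G A] [MulAction G Z] {good : Set A} {q : ℕ}
    {y : Orb G (A × List Z) →₀ k}
    (hy : y ∈ SP k G {p : A × List Z | p.1 ∈ good ∧ p.2.length = q + 1}) :
    dV k y ∈ SP k G {p : A × List Z | p.1 ∈ good ∧ p.2.length = q} := by
  refine desc_mem k _ _ ?_ hy
  rintro ⟨x, l⟩ ⟨hx, hl⟩
  rw [← vt_single, bV_vt, bd_single, one_smul]
  refine lmap_mem k _ ?_ (bdL_mem k hl)
  intro l' hl'
  exact ⟨hx, hl'⟩

lemma dV_mem_LS {q : ℕ} {y : Orb S (PUnit.{1} × List S) →₀ k}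
    (hy : y ∈ SP k S (LS S (q + 1))) : dV k y ∈ SP k S (LS S q) := by
  refine desc_mem k _ _ ?_ hy
  rintro ⟨x, l⟩ hl
  rw [← vt_single, bV_vt, bd_single, one_smul]
  refine lmap_mem k _ ?_ (bdL_mem k hl)
  intro l' hl'
  exact hl'

lemma Ex_iso {q : ℕ} (e : S ≃* S') (h : Ex k S q) : Ex k S' q := by
  intro u hu hz
  obtain ⟨w, hw, h1⟩ := h (hmap k e.symm.toMonoidHom u) (hmap_mem k _ hu)
    (by rw [← hmap_dV, hz, map_zero])
  refine ⟨hmap k e.toMonoidHom w, hmap_mem k _ hw, ?_⟩
  rw [← hmap_dV, h1, hmap_hmap]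
  have : e.toMonoidHom.comp e.symm.toMonoidHom = MonoidHom.id S' := by
    ext x; simp
  rw [this, hmap_id]

/-- cone in a complex for the trivial group action: contraction upstairs -/
lemma bV_lcons {A Z : Type*} (z : Z) (v : A × List Z →₀ k) :
    bV k (vop k id (fun _ => lcons k z) v) = v - vop k id (fun _ => lcons k z) (bV k v) := by
  have : (bV k) ∘ₗ (vop k id (fun _ => lcons k z)) =
      LinearMap.id - (vop k id (fun _ => lcons k z)) ∘ₗ (bV k (A := A) (Z := Z)) := by
    apply hom_ext_vt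
    intro x w
    simp [vop_vt, bV_vt, bd_lcons]
  simpa using congrArg (fun f => f v) this

lemma vop_lcons_mem {A Z : Type*} (z : Z) {good : Set A} {q : ℕ} {v : A × List Z →₀ k}
    (hv : v ∈ supported k k {p : A × List Z | p.1 ∈ good ∧ p.2.length = q}) :
    vop k id (fun _ => lcons k z) v ∈
      supported k k {p : A × List Z | p.1 ∈ good ∧ p.2.length = q + 1} := by
  have h5 : vop k id (fun _ => lcons k z) = Finsupp.lmapDomain k k
      (fun p : A × List Z => (p.1, z :: p.2)) := by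
    apply Finsupp.lhom_ext'
    rintro ⟨x, l⟩
    apply LinearMap.ext_ring
    simp only [LinearMap.coe_comp, Function.comp_apply, lsingle_apply]
    rw [← vt_single, vop_vt]
    simp
  rw [h5]
  refine lmap_mem k _ ?_ hv
  rintro ⟨x, l⟩ ⟨hx, hl⟩
  refine ⟨hx, ?_⟩
  simpa using hl

lemma bV_zero_of_nil {A Z : Type*} {v : A × List Z →₀ k}
    (hv : v ∈ supported k k {p : A × List Z | p.2.length = 0}) : bV k v = 0 := by
  have h1 : bV k (A := A) (Z := Z) = Finsupp.linearCombination k (fun p => bV k (single p 1)) := by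
    apply Finsupp.lhom_ext'
    intro y
    apply LinearMap.ext_ring
    simp
  have : bV k v ∈ (⊥ : Submodule k (A × List Z →₀ k)) := by
    rw [h1]
    refine lin_mem k _ ?_ hv
    rintro ⟨x, l⟩ hl
    have : l = [] := List.length_eq_zero_iff.1 hl
    subst this
    rw [← vt_single, bV_vt]
    simp
  simpa using this

lemma Ex_zero : Ex k S 0 := by
  intro u hu _
  obtain ⟨v, hv, rfl⟩ := (mem_SP k).1 hu
  refine ⟨qm k S (vop k id (fun _ => lcons k 1) v), ?_, ?_⟩
  · refine qm_mem_SP k ?_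
    exact of_univ k (vop_lcons_mem k (1 : S) (to_univ k hv))
  · rw [dV_mk, bV_lcons, bV_zero_of_nil k hv, map_zero, sub_zero]

lemma qm_nil_inj {v : PUnit.{1} × List S →₀ k}
    (hv : v ∈ supported k k (LS S 0)) (h : qm k S v = 0) : v = 0 := by
  have h1 : v = single (PUnit.unit, []) (v (PUnit.unit, [])) := by
    classical
    ext ⟨x, l⟩
    by_cases hl : l = []
    · subst hl; simp
    · rw [Finsupp.single_apply, if_neg (fun h => hl (Prod.ext_iff.1 h).2.symm)]
      rw [mem_supported] at hv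
      by_contra hne
      exact hl (List.length_eq_zero_iff.1 (hv (Finsupp.mem_support_iff.2 hne)))
  rw [h1, qm_single, Finsupp.single_eq_zero] at h
  rw [h1, h, Finsupp.single_zero]

lemma bV_mem_LS {S : Type*} {q : ℕ} {v : PUnit.{1} × List S →₀ k} (hv : v ∈ supported k k (LS S (q + 1))) :
    bV k v ∈ supported k k (LS S q) := by
  have h1 : bV k (A := PUnit.{1}) (Z := S) =
      Finsupp.linearCombination k (fun p => bV k (single p 1)) := by
    apply Finsupp.lhom_ext'
    intro y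
    apply LinearMap.ext_ring
    simp
  rw [h1]
  refine lin_mem k _ ?_ hv
  rintro ⟨x, l⟩ hl
  rw [← vt_single, bV_vt, bd_single, one_smul]
  refine lmap_mem k _ ?_ (bdL_mem k hl)
  intro l' hl'
  exact hl'

lemma Ex_one : Ex k S 1 := by
  intro u hu hz
  obtain ⟨v, hv, rfl⟩ := (mem_SP k).1 hu
  have h0 : bV k v = 0 := by
    rw [dV_mk] at hz
    exact qm_nil_inj k (bV_mem_LS k (q := 0) hv) hz
  refine ⟨qm k S (vop k id (fun _ => lcons k 1) v), ?_, ?_⟩
  · refine qm_mem_SP k ?_
    exact of_univ k (vop_lcons_mem k (1 : S) (to_univ k hv))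
  · rw [dV_mk, bV_lcons, h0, map_zero, sub_zero]

/-- the trivial group is acyclic -/
lemma Ex_triv [Subsingleton S] (q : ℕ) : Ex k S q := by
  intro u hu hz
  obtain ⟨v, hv, rfl⟩ := (mem_SP k).1 hu
  have hinj : ∀ w : PUnit.{1} × List S →₀ k, qm k S w = 0 → w = 0 := by
    intro w hw
    have h2 : Function.Injective (cls S (Y := PUnit.{1} × List S)) := by
      intro a b hab
      obtain ⟨g, hg⟩ := cls_eq_iff.1 hab
      rw [← hg, Subsingleton.elim g 1, one_smul]
    apply Finsupp.mapDomain_injective h2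
    rw [Finsupp.mapDomain_zero]
    exact hw
  have h0 : bV k v = 0 := by
    rw [dV_mk] at hz
    exact hinj _ hz
  refine ⟨qm k S (vop k id (fun _ => lcons k 1) v), ?_, ?_⟩
  · refine qm_mem_SP k ?_
    exact of_univ k (vop_lcons_mem k (1 : S) (to_univ k hv))
  · rw [dV_mk, bV_lcons, h0, map_zero, sub_zero]

/-- data of a homomorphism, conjugated -/
def eConj (φ : S →* S') (c : S') : EqMap S S' PUnit.{1} PUnit.{1} S S' where
  f := id
  a := fun _ s => φ s * c⁻¹
  φ := fun s _ => φ s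
  hf := fun _ _ => rfl
  ha := fun _ _ _ => by simp [mul_assoc]

lemma eConj_map (φ φ' : S →* S') (c : S') (h : ∀ s, φ' s = c * φ s * c⁻¹)
    (y : Orb S (PUnit.{1} × List S) →₀ k) : (eConj φ c).map k y = hmap k φ' y := by
  have : (eConj φ c).map k = hmap k φ' := by
    apply lin_ext_orb
    rintro ⟨x, l⟩
    rw [hmap_single, EqMap.map_single]
    congr 1
    rw [cls_eq_iff]
    refine ⟨c⁻¹, ?_⟩
    show (c⁻¹ • PUnit.unit, c⁻¹ • List.map _ l) = (_, List.map _ l)
    congr 1
    rw [smul_list_def, List.map_map]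
    apply List.map_congr_left
    intro z _
    simp [eConj, h, mul_assoc]
  rw [this]

/-- conjugation invariance -/
lemma conj_inv (φ φ' : S →* S') (c : S') (h : ∀ s, φ' s = c * φ s * c⁻¹) {q : ℕ}
    {y : Orb S (PUnit.{1} × List S) →₀ k} (hy : y ∈ SP k S (LS S q)) (hz : dV k y = 0) :
    ∃ w ∈ SP k S' (LS S' (q + 1)), dV k w = hmap k φ' y - hmap k φ y := by
  obtain ⟨P, hP1, hP2⟩ := prism k (eHom φ) (eConj φ c) rfl rfl
  refine ⟨P y, ?_, ?_⟩
  · have h1 := hP2 Set.univ Set.univ q (fun _ _ => trivial) y (by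
      obtain ⟨v, hv, rfl⟩ := (mem_SP k).1 hy
      exact qm_mem_SP k (to_univ k hv))
    obtain ⟨v, hv, h2⟩ := (mem_SP k).1 h1
    rw [← h2]
    exact qm_mem_SP k (of_univ k hv)
  · have h1 := hP1 y
    rw [hz, map_zero, add_zero, eConj_map k φ φ' c h] at h1
    exact h1

end

end Run7.h798
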