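import Pool.Agent.Run7.h798.Acyc2

/-!
Comparison of the orbit complex of a group with the complex of inhomogeneous chains.
-/

namespace Run7.h798

open Finsupp CategoryTheory

section Part

variable {G : Type*} [Group G]

/-- partial products -/
def part : G → List G → List G
  | x, [] => [x]
  | x, (g :: l) => x :: part (x * g) l

@[simp] lemma part_nil (x : G) : part x [] = [x] := rfl

@[simp] lemma part_cons (x g : G) (l : List G) : part x (g :: l) = x :: part (x * g) l := rfl

lemma part_smul (h x : G) (l : List G) : h • part x l = part (h * x) l := by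
  induction l generalizing x with
  | nil => rfl
  | cons g l ih =>
    rw [part_cons, part_cons, smul_list_cons, ih, mul_assoc, smul_eq_mul]

lemma part_length (x : G) (l : List G) : (part x l).length = l.length + 1 := by
  induction l generalizing x with
  | nil => rfl
  | cons g l ih => simp [ih]

lemma part_inj (x : G) {l l' : List G} (h : part x l = part x l') : l = l' := by
  induction l generalizing x l' with
  | nil =>
    have := congrArg List.length h
    rw [part_length, part_length] at this
    exact (List.length_eq_zero_iff.1 (by simpa using this.symm)).symm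
  | cons g l ih =>
    cases l' with
    | nil =>
      have := congrArg List.length h
      rw [part_length, part_length] at this
      simp at this
    | cons g' l' =>
      simp only [part_cons, List.cons.injEq, true_and] at h
      have h1 : x * g = x * g' := by
        have h2 : ∀ (y : G) (l : List G), (part y l).head? = some y := by
          intro y l; cases l <;> rfl
        have h3 := congrArg List.head? h
        rw [h2, h2] at h3
        exact Option.some.inj h3
      have h2 : g = g' := mul_left_cancel h1
      subst h2
      rw [ih _ h]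

lemma part_surj (x : G) (L : List G) : ∃ l, part x l = x :: L ∧ l.length = L.length := by
  induction L generalizing x with
  | nil => exact ⟨[], rfl, rfl⟩
  | cons y L ih =>
    obtain ⟨l, h1, h2⟩ := ih y
    refine ⟨(x⁻¹ * y) :: l, ?_, by simp [h2]⟩
    rw [part_cons, mul_inv_cancel_left, h1]

lemma part_map {G' : Type*} [Group G'] (φ : G →* G') (x : G) (l : List G) :
    (part x l).map φ = part (φ x) (l.map φ) := by
  induction l generalizing x with
  | nil => rfl
  | cons g l ih => simp [ih]

lemma ofFn_contract_zero {n : ℕ} (g : Fin (n + 2) → G) :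
    List.ofFn (Fin.contractNth 0 (· * ·) g) =
      (g 0 * g 1) :: List.ofFn (fun i : Fin n => g i.succ.succ) := by
  rw [List.ofFn_succ]
  congr 1

lemma ofFn_contract_succ {n : ℕ} (g : Fin (n + 2) → G) (j : Fin (n + 1)) :
    List.ofFn (Fin.contractNth j.succ (· * ·) g) =
      g 0 :: List.ofFn (Fin.contractNth j (· * ·) (fun i : Fin (n + 1) => g i.succ)) := by
  rw [List.ofFn_succ]
  congr 1
  congr 1
  funext i
  simp only [Fin.contractNth, Fin.val_succ, Nat.add_lt_add_iff_right, Nat.add_right_cancel_iff]
  rfl

variable (k : Type*) [CommRing k]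

lemma bdL_part {n : ℕ} (g : Fin (n + 1) → G) (x : G) :
    bdL k (part x (List.ofFn g)) =
      single (part (x * g 0) (List.ofFn (fun i : Fin n => g i.succ))) 1 +
      ∑ j : Fin (n + 1), (-1 : k) ^ ((j : ℕ) + 1) •
        single (part x (List.ofFn (Fin.contractNth j (· * ·) g))) 1 := by
  induction n generalizing x with
  | zero =>
    rw [List.ofFn_succ]
    simp [bdL_cons, sub_eq_add_neg]
  | succ n ih =>
    have h0 : List.ofFn g = g 0 :: List.ofFn (fun i : Fin (n + 1) => g i.succ) := List.ofFn_succ
    have h2 : ∑ j : Fin (n + 1 + 1), (-1 : k) ^ ((j : ℕ) + 1) •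
        single (part x (List.ofFn (Fin.contractNth j (· * ·) g))) (1 : k) =
        (-1 : k) ^ ((0 : ℕ) + 1) •
          single (part x (List.ofFn (Fin.contractNth 0 (· * ·) g))) (1 : k) +
        ∑ j : Fin (n + 1), (-1 : k) ^ ((j.succ : ℕ) + 1) •
          single (part x (List.ofFn (Fin.contractNth j.succ (· * ·) g))) (1 : k) := by
      rw [Fin.sum_univ_succ]
      rfl
    rw [h0, part_cons, bdL_cons, ih (fun i => g i.succ) (x * g 0), h2,
      ofFn_contract_zero, part_cons]
    simp only [ofFn_contract_succ, part_cons, map_add, lcons_single, map_sum, map_smul,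
      Fin.val_succ, Fin.succ_zero_eq_one]
    rw [← mul_assoc]
    have h1 : ∀ j : Fin (n + 1), (-1 : k) ^ ((j : ℕ) + 1 + 1) = -((-1 : k) ^ ((j : ℕ) + 1)) := by
      intro j; rw [pow_succ]; ring
    simp only [h1, neg_smul, Finset.sum_neg_distrib]
    simp only [zero_add, pow_one, neg_smul, one_smul]
    abel

/-- the comparison map -/
noncomputable def theta (n : ℕ) : ((Fin n → G) →₀ k) →ₗ[k] (Orb G (PUnit.{1} × List G) →₀ k) :=
  Finsupp.lmapDomain k k (fun g => cls G (PUnit.unit, part 1 (List.ofFn g)))

@[simp] lemma theta_single {n : ℕ} (g : Fin n → G) (c : k) :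
    theta k n (single g c) = single (cls G (PUnit.unit, part 1 (List.ofFn g))) c := by
  simp [theta]

lemma cls_part (x : G) (l : List G) :
    cls G (PUnit.unit.{1}, part x l) = cls G (PUnit.unit.{1}, part 1 l) := by
  rw [cls_eq_iff]
  refine ⟨x, ?_⟩
  show (x • PUnit.unit, x • part 1 l) = _
  rw [part_smul, mul_one]

lemma theta_inj (n : ℕ) : Function.Injective (theta k (G := G) n) := by
  apply Finsupp.mapDomain_injective
  intro g g' h
  obtain ⟨x, hx⟩ := cls_eq_iff.1 h
  have h1 : x • part 1 (List.ofFn g') = part 1 (List.ofFn g) := (Prod.ext_iff.1 hx).2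
  rw [part_smul, mul_one] at h1
  have h2 : ∀ (y : G) (l : List G), (part y l).head? = some y := by
    intro y l; cases l <;> rfl
  have h3 := congrArg List.head? h1
  rw [h2, h2] at h3
  have h4 : x = 1 := Option.some.inj h3
  rw [h4] at h1
  exact (List.ofFn_injective (part_inj 1 h1)).symm

lemma theta_mem {n : ℕ} (v : (Fin n → G) →₀ k) : theta k n v ∈ SP k G (LS G (n + 1)) := by
  have h1 : theta k n = Finsupp.linearCombination k
      (fun g : Fin n → G => theta k n (single g 1)) := by
    apply Finsupp.lhom_ext'
    intro y
    apply LinearMap.ext_ring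
    simp
  have h2 : v ∈ supported k k (Set.univ : Set (Fin n → G)) := by simp
  rw [h1]
  refine lin_mem k _ ?_ h2
  intro g _
  rw [theta_single]
  rw [← qm_single]
  refine qm_mem_SP k (single_mem_supported k 1 ?_)
  show (part 1 (List.ofFn g)).length = n + 1
  rw [part_length, List.length_ofFn]

lemma theta_surj {n : ℕ} {y : Orb G (PUnit.{1} × List G) →₀ k}
    (hy : y ∈ SP k G (LS G (n + 1))) : ∃ v, theta k n v = y := by
  obtain ⟨v, hv, rfl⟩ := (mem_SP k).1 hy
  have h1 : qm k G (Y := PUnit.{1} × List G) = Finsupp.linearCombination k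
      (fun p => qm k G (single p 1)) := by
    apply Finsupp.lhom_ext'
    intro y
    apply LinearMap.ext_ring
    simp
  have h2 : qm k G v ∈ LinearMap.range (theta k (G := G) n) := by
    rw [h1]
    refine lin_mem k _ ?_ hv
    rintro ⟨⟨⟩, L⟩ hL
    have hL' : L.length = n + 1 := hL
    obtain ⟨x, L', rfl⟩ : ∃ x L', L = x :: L' := by
      cases L with
      | nil => simp at hL'
      | cons x L' => exact ⟨x, L', rfl⟩
    obtain ⟨l, hl1, hl2⟩ := part_surj x L'
    have hl3 : l.length = n := by rw [hl2]; simpa using hL'
    subst hl3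
    refine ⟨single (fun i => l.get i) 1, ?_⟩
    rw [theta_single, qm_single, List.ofFn_get, ← cls_part x l, hl1]
  exact h2

/-- the differential of inhomogeneous chains with trivial coefficients, on lists -/
lemma theta_d {n : ℕ} (D : ((Fin (n + 1) → G) →₀ k) →ₗ[k] ((Fin n → G) →₀ k))
    (hD : ∀ g : Fin (n + 1) → G, D (single g 1) = single (fun i => g i.succ) 1 +
      ∑ j : Fin (n + 1), (-1 : k) ^ ((j : ℕ) + 1) •
        single (Fin.contractNth j (· * ·) g) 1) (v : (Fin (n + 1) → G) →₀ k) :
    theta k n (D v) = dV k (theta k (n + 1) v) := by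
  have : (theta k n) ∘ₗ D = (dV k) ∘ₗ (theta k (n + 1)) := by
    apply Finsupp.lhom_ext'
    intro g
    apply LinearMap.ext_ring
    simp only [LinearMap.coe_comp, Function.comp_apply, lsingle_apply, hD, theta_single]
    rw [← qm_single, dV_mk, ← vt_single, bV_vt, bd_single, one_smul, bdL_part]
    simp only [map_add, map_sum, map_smul, theta_single, vt_single, qm_single]
    rw [cls_part (1 * g 0)]
  exact congrArg (fun f => f v) this

lemma theta_map {G' : Type*} [Group G'] (φ : G →* G') {n : ℕ} (v : (Fin n → G) →₀ k) :
    theta k n (Finsupp.lmapDomain k k (fun g : Fin n → G => φ ∘ g) v) =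
      hmap k φ (theta k n v) := by
  have : (theta k n) ∘ₗ (Finsupp.lmapDomain k k (fun g : Fin n → G => φ ∘ g)) =
      (hmap k φ) ∘ₗ (theta k n) := by
    apply Finsupp.lhom_ext'
    intro g
    apply LinearMap.ext_ring
    simp only [LinearMap.coe_comp, Function.comp_apply, lsingle_apply, theta_single,
      lmapDomain_apply, mapDomain_single]
    rw [hmap_single, part_map, map_one, List.map_ofFn]
  exact congrArg (fun f => f v) this

end Part

end Run7.h798
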