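import Pool.Agent.Run7.h798.Glue

/-!
Combinatorics of big sets.
-/

namespace Run7.h798

lemma split_set {α ι : Type*} {X : Set α} (hX : X.Infinite) (T : Finset ι) (E : ι → Set α)
    (hT : ∀ t ∈ T, (E t).Infinite) : ∃ D ⊆ X, D.Infinite ∧ ∀ t ∈ T, (E t \ D).Infinite := by
  classical
  let f : ℕ × ℕ → α := fun p => (Set.Infinite.natEmbedding X hX (Nat.pairEquiv p) : α)
  have hf : Function.Injective f := by
    intro p q hpq
    have := (Set.Infinite.natEmbedding X hX).injective (Subtype.ext hpq)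
    exact Nat.pairEquiv.injective this
  let D : ℕ → Set α := fun a => Set.range (fun b => f (a, b))
  have hD1 : ∀ a, D a ⊆ X := by
    rintro a _ ⟨b, rfl⟩
    exact (Set.Infinite.natEmbedding X hX (Nat.pairEquiv (a, b))).2
  have hD2 : ∀ a, (D a).Infinite := by
    intro a
    refine Set.infinite_range_of_injective ?_
    intro b c hbc
    exact (Prod.ext_iff.1 (hf hbc)).2
  by_contra H
  push Not at H
  have H' : ∀ a : ℕ, ∃ t : T, ¬ (E t \ D a).Infinite := by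
    intro a
    obtain ⟨t, ht, h1⟩ := H (D a) (hD1 a) (hD2 a)
    exact ⟨⟨t, ht⟩, by simpa using h1⟩
  choose t ht using H'
  obtain ⟨a, b, hab, htab⟩ := Finite.exists_ne_map_eq_of_infinite t
  have h1 := ht a
  have h2 := ht b
  rw [← htab] at h2
  rw [Set.not_infinite] at h1 h2
  refine hT (t a) (t a).2 ((h1.union h2).subset ?_)
  intro x hx
  by_cases hxa : x ∈ D a
  · right
    refine ⟨hx, ?_⟩
    rintro ⟨c, hc⟩
    obtain ⟨d, hd⟩ := hxa
    have := hf (hd.trans hc.symm)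
    exact hab (Prod.ext_iff.1 this).1
  · left
    exact ⟨hx, hxa⟩

section

variable {S I : Type*} {π : S → I} (hπ : Function.Surjective π)
  {W : Subgroup (Equiv.Perm S)} (h : Glue π W)

/-- the orbit relation on the index set -/
def orel : Setoid I where
  r i j := j ∈ OO hπ W i
  iseqv := ⟨fun i => OO_refl hπ h i, fun hij => OO_symm hπ h hij,
    fun hij hjl => OO_trans hπ h hij hjl⟩

/-- representative of an orbit -/
noncomputable def rep (i : I) : I := Quotient.out (Quotient.mk (orel hπ h) i)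

lemma rep_mem (i : I) : rep hπ h i ∈ OO hπ W i := by
  have : (orel hπ h).r (rep hπ h i) i := Quotient.exact (Quotient.out_eq (Quotient.mk (orel hπ h) i))
  exact OO_symm hπ h this

lemma rep_eq {i j : I} (hij : j ∈ OO hπ W i) : rep hπ h j = rep hπ h i := by
  unfold rep
  congr 1
  exact (Quotient.sound (s := orel hπ h) (a := i) (b := j) hij).symm

include h in
lemma bij [Countable I] {X Y : Set I} (hX : Big hπ W X) (hY : Big hπ W Y)
    (hXY : ∀ i, i ∉ Acv π W → (i ∈ X ↔ i ∈ Y)) :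
    ∃ e : X ≃ Y, ∀ x : X, ((e x : Y) : I) ∈ OO hπ W x := by
  classical
  let f : X → Quotient (orel hπ h) := fun x => Quotient.mk (orel hπ h) x
  let g : Y → Quotient (orel hπ h) := fun x => Quotient.mk (orel hπ h) x
  have key : ∀ c, Nonempty ({x : X // f x = c} ≃ {y : Y // g y = c}) := by
    intro c
    obtain ⟨i, rfl⟩ : ∃ i, Quotient.mk (orel hπ h) i = c := Quotient.exists_rep c
    by_cases hi : i ∈ Acv π W
    · have hinf : ∀ Z : Set I, Big hπ W Z →
          Infinite {x : Z // Quotient.mk (orel hπ h) (x : I) = Quotient.mk (orel hπ h) i} := by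
        intro Z hZ
        have h1 := (hZ i hi).to_subtype
        refine Infinite.of_injective (fun x : (Z ∩ OO hπ W i : Set I) =>
          (⟨⟨x.1, x.2.1⟩, (Quotient.sound (s := orel hπ h) (a := i) (b := x.1) x.2.2).symm⟩ :
            {x : Z // Quotient.mk (orel hπ h) (x : I) = Quotient.mk (orel hπ h) i})) ?_
        intro a b hab
        simpa [Subtype.ext_iff] using hab
      have := hinf X hX
      have := hinf Y hY
      exact nonempty_equiv_of_countable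
    · have hmem : ∀ x, Quotient.mk (orel hπ h) x = Quotient.mk (orel hπ h) i → x ∉ Acv π W := by
        intro x hx hx'
        have h1 : i ∈ OO hπ W x := Quotient.exact hx
        exact hi (acv_OO hπ h hx' h1)
      exact ⟨{ toFun := fun x => ⟨⟨x.1.1, (hXY _ (hmem _ x.2)).1 x.1.2⟩, x.2⟩
               invFun := fun y => ⟨⟨y.1.1, (hXY _ (hmem _ y.2)).2 y.1.2⟩, y.2⟩
               left_inv := fun x => rfl
               right_inv := fun y => rfl }⟩
  let e := fun c => Classical.choice (key c)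
  refine ⟨Equiv.ofFiberEquiv e, fun x => ?_⟩
  have h1 : g (Equiv.ofFiberEquiv e x) = f x := Equiv.ofFiberEquiv_map e x
  exact Quotient.exact (s := orel hπ h) h1.symm

include h

lemma split_big {ι : Type*} {E : Set I} (hE : Big hπ W E) (T : Finset ι) (F : ι → Set I)
    (hF : ∀ t ∈ T, Big hπ W (F t)) :
    ∃ D ⊆ E, D ⊆ Acv π W ∧ Big hπ W D ∧ ∀ t ∈ T, Big hπ W (F t \ D) := by
  classical
  have h1 : ∀ i : I, ∃ D : Set I, i ∈ Acv π W → D ⊆ E ∩ OO hπ W i ∧ D.Infinite ∧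
      ∀ t ∈ T, ((F t ∩ OO hπ W i) \ D).Infinite := by
    intro i
    by_cases hi : i ∈ Acv π W
    · obtain ⟨D, h1, h2, h3⟩ := split_set (hE i hi) T (fun t => F t ∩ OO hπ W i)
        (fun t ht => hF t ht i hi)
      exact ⟨D, fun _ => ⟨h1, h2, h3⟩⟩
    · exact ⟨∅, fun h => absurd h hi⟩
  choose Dl hDl using h1
  have hrep : ∀ i ∈ Acv π W, rep hπ h i ∈ Acv π W := fun i hi => acv_OO hπ h hi (rep_mem hπ h i)
  refine ⟨{j | j ∈ Acv π W ∧ j ∈ Dl (rep hπ h j)}, ?_, fun j hj => hj.1, ?_, ?_⟩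
  · rintro j ⟨hj, hj'⟩
    exact ((hDl _ (hrep j hj)).1 hj').1
  · intro i hi
    refine ((hDl _ (hrep i hi)).2.1).mono ?_
    intro j hj
    have h2 : j ∈ OO hπ W (rep hπ h i) := ((hDl _ (hrep i hi)).1 hj).2
    have h3 : j ∈ OO hπ W i := OO_trans hπ h (rep_mem hπ h i) h2
    refine ⟨⟨acv_OO hπ h hi h3, ?_⟩, h3⟩
    rw [rep_eq hπ h h3]
    exact hj
  · intro t ht i hi
    refine ((hDl _ (hrep i hi)).2.2 t ht).mono ?_
    rintro j ⟨⟨hj1, hj2⟩, hj3⟩
    have h3 : j ∈ OO hπ W i := OO_trans hπ h (rep_mem hπ h i) hj2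
    refine ⟨⟨hj1, ?_⟩, h3⟩
    rintro ⟨_, hj4⟩
    rw [rep_eq hπ h h3] at hj4
    exact hj3 hj4

/-- gluing for orbit preserving permutations -/
lemma real_perm (τ : Equiv.Perm I) (hτ : ∀ i, τ i ∈ OO hπ W i) :
    ∃ g ∈ W, ∀ i, act hπ g i = τ i := by
  choose u hu1 hu2 using hτ
  obtain ⟨g, hg, _, h2⟩ := gluing hπ h τ u hu1 hu2
  exact ⟨g, hg, h2⟩

lemma trans_big [Countable I] {D D' : Set I} (hD : Big hπ W D) (hDa : D ⊆ Acv π W)
    (hDc : Big hπ W Dᶜ)
    (hD' : Big hπ W D') (hDa' : D' ⊆ Acv π W) (hDc' : Big hπ W D'ᶜ) :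
    ∃ w ∈ W, ∀ i, act hπ w i ∈ D' ↔ i ∈ D := by
  classical
  obtain ⟨e1, he1⟩ := bij hπ h hD hD' (fun i hi =>
    ⟨fun hi' => absurd (hDa hi') hi, fun hi' => absurd (hDa' hi') hi⟩)
  obtain ⟨e2, he2⟩ := bij hπ h hDc hDc' (fun i hi =>
    ⟨fun _ hi' => hi (hDa' hi'), fun _ hi' => hi (hDa hi')⟩)
  let τ : Equiv.Perm I := (Equiv.Set.sumCompl D).symm.trans
    ((Equiv.sumCongr e1 e2).trans (Equiv.Set.sumCompl D'))
  have hτ1 : ∀ i (hi : i ∈ D), τ i = e1 ⟨i, hi⟩ := by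
    intro i hi
    simp only [τ, Equiv.trans_apply, Equiv.Set.sumCompl_symm_apply_of_mem hi,
      Equiv.sumCongr_apply, Sum.map_inl, Equiv.Set.sumCompl_apply_inl]
  have hτ2 : ∀ i (hi : i ∉ D), τ i = e2 ⟨i, hi⟩ := by
    intro i hi
    simp only [τ, Equiv.trans_apply, Equiv.Set.sumCompl_symm_apply_of_notMem hi,
      Equiv.sumCongr_apply, Sum.map_inr, Equiv.Set.sumCompl_apply_inr]
  obtain ⟨g, hg, h2⟩ := real_perm hπ h τ (by
    intro i
    by_cases hi : i ∈ D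
    · rw [hτ1 i hi]; exact he1 ⟨i, hi⟩
    · rw [hτ2 i hi]; exact he2 ⟨i, hi⟩)
  refine ⟨g, hg, fun i => ?_⟩
  rw [h2]
  by_cases hi : i ∈ D
  · rw [hτ1 i hi]
    exact ⟨fun _ => hi, fun _ => (e1 ⟨i, hi⟩).2⟩
  · rw [hτ2 i hi]
    exact ⟨fun hh => absurd hh (e2 ⟨i, hi⟩).2, fun hh => absurd hh hi⟩

lemma acv_act {w : Equiv.Perm S} (hw : w ∈ W) {i : I} (hi : i ∈ Acv π W) :
    act hπ w i ∈ Acv π W := acv_OO hπ h hi ⟨w, hw, rfl⟩

lemma acv_sup {E : Set I} (hE : Big hπ W E) {i : I} (hiE : i ∈ E) (hi : i ∈ Acv π W) :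
    i ∈ Acv π (sup π W E) := by
  obtain ⟨j, hj, hne⟩ := (hE i hi).exists_notMem_finite (Set.finite_singleton i)
  exact acv_of_ne hπ (glue_sup hπ h hE) (OO_sup hπ h hiE hj) (fun e => hne (by simp [← e]))

lemma extend_big [Countable I] {D E : Set I} (hDa : D ⊆ Acv π W) (hE : Big hπ W E)
    {w w' : Equiv.Perm S} (hw : w ∈ W) (hw' : w' ∈ W)
    (h1 : act hπ w '' D ⊆ E) (h2 : act hπ w' '' D ⊆ E)
    (h3 : Big hπ W (E \ act hπ w '' D)) (h4 : Big hπ W (E \ act hπ w' '' D)) :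
    ∃ g ∈ sup π W E, ∀ s, π s ∈ D → g (w s) = w' s := by
  classical
  have hV := glue_sup hπ h hE
  set A := act hπ w '' D with hA
  set A' := act hπ w' '' D with hA'
  have hbig : ∀ B : Set I, Big hπ W (E \ B) → Big hπ (sup π W E) Bᶜ := by
    intro B hB i hi
    obtain ⟨v, hv, s, rfl, hne⟩ := hi
    have hiE : π s ∈ E := by
      by_contra hc
      exact hne (hv.2 s hc)
    have hiW : π s ∈ Acv π W := ⟨v, hv.1, s, rfl, hne⟩
    refine (hB _ hiW).mono ?_
    rintro j ⟨⟨hj1, hj2⟩, hj3⟩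
    exact ⟨hj2, OO_sup hπ h hiE ⟨hj1, hj3⟩⟩
  have hAE : ∀ i ∈ A, i ∈ Acv π (sup π W E) := by
    rintro i hi
    obtain ⟨d, hd, rfl⟩ := hi
    exact acv_sup hπ h hE (h1 ⟨d, hd, rfl⟩) (acv_act hπ h hw (hDa hd))
  have hAE' : ∀ i ∈ A', i ∈ Acv π (sup π W E) := by
    rintro i hi
    obtain ⟨d, hd, rfl⟩ := hi
    exact acv_sup hπ h hE (h2 ⟨d, hd, rfl⟩) (acv_act hπ h hw' (hDa hd))
  obtain ⟨e, he⟩ := bij hπ hV (hbig A h3) (hbig A' h4) (fun i hi =>
    ⟨fun _ hc => hi (hAE' i hc), fun _ hc => hi (hAE i hc)⟩)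
  let e1 : A ≃ A' :=
    { toFun := fun i => ⟨act hπ (w' * w⁻¹) i, by
        obtain ⟨i, d, hd, rfl⟩ := i
        refine ⟨d, hd, ?_⟩
        rw [act_mul hπ h hw' (W.inv_mem hw), act_inv_act hπ h hw]⟩
      invFun := fun i => ⟨act hπ (w * w'⁻¹) i, by
        obtain ⟨i, d, hd, rfl⟩ := i
        refine ⟨d, hd, ?_⟩
        rw [act_mul hπ h hw (W.inv_mem hw'), act_inv_act hπ h hw']⟩
      left_inv := fun i => by
        apply Subtype.ext
        show act hπ (w * w'⁻¹) (act hπ (w' * w⁻¹) i) = i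
        rw [← act_mul hπ h (W.mul_mem hw (W.inv_mem hw')) (W.mul_mem hw' (W.inv_mem hw))]
        simp [act_one hπ h]
      right_inv := fun i => by
        apply Subtype.ext
        show act hπ (w' * w⁻¹) (act hπ (w * w'⁻¹) i) = i
        rw [← act_mul hπ h (W.mul_mem hw' (W.inv_mem hw)) (W.mul_mem hw (W.inv_mem hw'))]
        simp [act_one hπ h] }
  let τ : Equiv.Perm I := (Equiv.Set.sumCompl A).symm.trans
    ((Equiv.sumCongr e1 e).trans (Equiv.Set.sumCompl A'))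
  have hτ1 : ∀ i (hi : i ∈ A), τ i = act hπ (w' * w⁻¹) i := by
    intro i hi
    simp only [τ, Equiv.trans_apply, Equiv.Set.sumCompl_symm_apply_of_mem hi,
      Equiv.sumCongr_apply, Sum.map_inl, Equiv.Set.sumCompl_apply_inl]
    rfl
  have hτ2 : ∀ i (hi : i ∉ A), τ i = e ⟨i, hi⟩ := by
    intro i hi
    simp only [τ, Equiv.trans_apply, Equiv.Set.sumCompl_symm_apply_of_notMem hi,
      Equiv.sumCongr_apply, Sum.map_inr, Equiv.Set.sumCompl_apply_inr]
  choose v hv1 hv2 using he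
  obtain ⟨g, hg, h5, _⟩ := gluing hπ h τ
    (fun i => if hi : i ∈ A then w' * w⁻¹ else v ⟨i, hi⟩)
    (fun i => by
      split_ifs with hi
      · exact W.mul_mem hw' (W.inv_mem hw)
      · exact (hv1 ⟨i, hi⟩).1)
    (fun i => by
      by_cases hi : i ∈ A
      · rw [dif_pos hi, hτ1 i hi]
      · rw [dif_neg hi, hτ2 i hi]
        exact hv2 ⟨i, hi⟩)
  refine ⟨g, ⟨hg, fun s hs => ?_⟩, fun s hs => ?_⟩
  · have hs' : π s ∉ A := fun hc => hs (h1 hc)
    rw [h5, dif_neg hs']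
    exact (hv1 ⟨π s, hs'⟩).2 s hs
  · have hs' : π (w s) ∈ A := ⟨π s, hs, act_eq hπ h hw s⟩
    rw [h5, dif_pos hs']
    simp

end

end Run7.h798
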