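import Pool.Agent.Run7.h798.TotDef

/-!
Chains of groups with trivial coefficients, and the homology of the classifying space of a
simplicial group.
-/

namespace Run7.h798

open CategoryTheory Simplicial

universe u

variable (k : Type u) [CommRing k]

/-- the identity of the coefficients, over a homomorphism -/
noncomputable def trivHom {G H : Type u} [Group G] [Group H] (f : G →* H) :
    Rep.trivial k G k ⟶ Rep.res f (Rep.trivial k H k) :=
  Rep.ofHom ⟨LinearMap.id, fun g => by ext; simp⟩

/-- group chains with trivial coefficients -/
noncomputable def gch : GrpCat.{u} ⥤ ChainComplex (ModuleCat.{u} k) ℕ where
  obj G := groupHomology.inhomogeneousChains (Rep.trivial k G k)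
  map f := groupHomology.chainsMap f.hom (trivHom k f.hom)
  map_id G := by
    rw [← groupHomology.chainsMap_id]
    rfl
  map_comp f g := by
    rw [← groupHomology.chainsMap_comp]
    rfl

/-- The bicomplex of a simplicial group: the column of index `p` is the complex of
inhomogeneous chains of the group of `p`-simplices with trivial coefficients, and the horizontal
differential is the alternating sum of the face maps. -/
noncomputable def sgb (G : SimplicialObject GrpCat.{u}) : Bicx k :=
  (AlgebraicTopology.alternatingFaceMapComplex (ChainComplex (ModuleCat.{u} k) ℕ)).obj
    (((SimplicialObject.whiskering GrpCat (ChainComplex (ModuleCat.{u} k) ℕ)).obj (gch k)).obj G)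

/-- The homology of the classifying space of a simplicial group with coefficients in `k`. -/
noncomputable def BHom (G : SimplicialObject GrpCat.{u}) (n : ℕ) : ModuleCat.{u} k :=
  (tot (sgb k G)).homology n

/-- The natural map from the homology of the discrete group of vertices to the homology of
the classifying space of the simplicial group. -/
noncomputable def natMap (G : SimplicialObject GrpCat.{u}) (n : ℕ) :
    groupHomology (Rep.trivial k (G _⦋0⦌) k) n ⟶ BHom k G n :=
  HomologicalComplex.homologyMap (c0 (sgb k G)) n

/-- The natural map from the homology of the discrete group of vertices to the homology of the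
classifying space of the simplicial group is bijective in degree `n`. -/
def NatBij (G : SimplicialObject GrpCat.{u}) (n : ℕ) : Prop := Function.Bijective (natMap k G n)

end Run7.h798
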