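import Pool.Agent.Run7.h798.Bridge
import Pool.Agent.Run7.h798.SgDef

/-!
The kernel of the map induced on group chains by a split extension with acyclic kernel.
-/

namespace Run7.h798

open Finsupp CategoryTheory

universe u

variable (k : Type u) [CommRing k]

lemma lmap_eq {X Y : Type*} (f : X → Y) (T : (X →₀ k) →ₗ[k] (Y →₀ k))
    (h : ∀ x, T (single x 1) = single (f x) 1) (v : X →₀ k) :
    T v = Finsupp.lmapDomain k k f v := by
  have : T = Finsupp.lmapDomain k k f := by
    apply Finsupp.lhom_ext'
    intro g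
    apply LinearMap.ext_ring
    simp [h]
  rw [this]

lemma gch_map_f {G H : GrpCat.{u}} (f : G ⟶ H) (n : ℕ) (x : (Fin n → G) →₀ k) :
    ((gch k).map f).f n x = Finsupp.lmapDomain k k (fun g : Fin n → G => f.hom ∘ g) x :=
  lmap_eq k (fun g : Fin n → G => f.hom ∘ g) (((gch k).map f).f n).hom
    (fun g => groupHomology.chainsMap_f_single f.hom (trivHom k f.hom) n g (1 : k)) x

lemma gch_d {G : GrpCat.{u}} (n : ℕ) (g : Fin (n + 1) → G) :
    ((gch k).obj G).d (n + 1) n (single g (1 : k)) =
      (single (fun i => g i.succ) 1 +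
      ∑ j : Fin (n + 1), (-1 : k) ^ ((j : ℕ) + 1) •
        single (Fin.contractNth j (· * ·) g) 1 : (Fin n → G) →₀ k) := by
  have h1 : ((gch k).obj G).d (n + 1) n =
    groupHomology.inhomogeneousChains.d (Rep.trivial k G k) n :=
    groupHomology.inhomogeneousChains.d_def (A := Rep.trivial k G k) n
  rw [h1]
  exact groupHomology.inhomogeneousChains.d_single (A := Rep.trivial k G k) n g (1 : k)

/-- exactness of the kernel of group chains of a split extension with acyclic kernel -/
lemma gch_ker {G R : GrpCat.{u}} (ρ : G ⟶ R) (s : R ⟶ G) (hs : s ≫ ρ = 𝟙 R)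
    {K : Type*} [Group K] (ι : K →* G) (hι : Function.Injective ι)
    (hk : ∀ g : G, ρ.hom g = 1 ↔ ∃ a, ι a = g) (hex : ∀ q, Ex k K q) (n : ℕ)
    (x : ((gch k).obj G).X n) (hx : ∀ m, ((gch k).obj G).d n m x = 0)
    (hρ : ((gch k).map ρ).f n x = 0) :
    ∃ w : ((gch k).obj G).X (n + 1), ((gch k).map ρ).f (n + 1) w = 0 ∧
      ((gch k).obj G).d (n + 1) n w = x := by
  have hs' : ∀ r : R, ρ.hom (s.hom r) = r := by
    intro r
    have := congrArg (fun f : R ⟶ R => f.hom r) hs
    simpa using this
  cases n with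
  | zero =>
    have h0 : x = 0 := by
      have hρ' := (gch_map_f k ρ 0 x).symm.trans hρ
      have hinj : Function.Injective (fun g : Fin 0 → G => ρ.hom ∘ g) := by
        intro a b _
        exact Subsingleton.elim _ _
      have h1 : Function.Injective (Finsupp.lmapDomain k k (fun g : Fin 0 → G => ρ.hom ∘ g)) :=
        Finsupp.mapDomain_injective hinj
      exact h1 (hρ'.trans (map_zero _).symm)
    refine ⟨0, map_zero _, ?_⟩
    rw [h0, map_zero]
  | succ m =>
    have key : ∀ (n : ℕ) (v : (Fin (n + 1) → G) →₀ k),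
        theta k n (((gch k).obj G).d (n + 1) n v) = dV k (theta k (n + 1) v) := by
      intro n v
      exact theta_d k (((gch k).obj G).d (n + 1) n).hom (fun g => gch_d k n g) v
    have key2 : ∀ (n : ℕ) (v : (Fin n → G) →₀ k),
        theta k n (((gch k).map ρ).f n v) = hmap k ρ.hom (theta k n v) := by
      intro n v
      rw [gch_map_f]
      exact theta_map k ρ.hom v
    have h1 : dV k (theta k (m + 1) x) = 0 :=
      (key m x).symm.trans ((congrArg (theta k m) (hx m)).trans (map_zero _))
    have h2 : hmap k ρ.hom (theta k (m + 1) x) = 0 :=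
      (key2 (m + 1) x).symm.trans ((congrArg (theta k (m + 1)) hρ).trans (map_zero _))
    obtain ⟨w, hw, hw1, hw2⟩ := split_ex k ρ.hom s.hom ι hs' hι hk (m + 1)
      (fun q _ => hex q) _ (theta_mem k x) h1 h2
    obtain ⟨w', rfl⟩ := theta_surj k hw
    refine ⟨w', ?_, ?_⟩
    · apply theta_inj k (m + 2)
      refine (key2 (m + 2) w').trans (hw1.trans (map_zero _).symm)
    · apply theta_inj k (m + 1)
      exact (key (m + 1) w').trans hw2

end Run7.h798
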