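import Pool.Agent.Run7.h798.Mit

/-!
Groups of permutations closed under gluing along a partition.
-/

namespace Run7.h798

/-- `W` respects the partition of `S` into the fibres of `π`, is closed under gluing, and
every part which is moved at all has an infinite orbit. -/
structure Glue {S I : Type*} (π : S → I) (W : Subgroup (Equiv.Perm S)) : Prop where
  comp : ∀ w ∈ W, ∀ s s', π s = π s' → π (w s) = π (w s')
  glue : ∀ g : Equiv.Perm S, (∀ i, ∃ w ∈ W, ∀ s, π s = i → g s = w s) → g ∈ W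
  inf : ∀ i, (∃ w ∈ W, ∃ s, π s = i ∧ w s ≠ s) →
    {j | ∃ w ∈ W, ∃ s, π s = i ∧ π (w s) = j}.Infinite

section

variable {S I : Type*} {π : S → I} (hπ : Function.Surjective π)

/-- induced action on the index set -/
noncomputable def act (w : Equiv.Perm S) (i : I) : I := π (w (Function.surjInv hπ i))

/-- the parts which are moved -/
def Acv (π : S → I) (W : Subgroup (Equiv.Perm S)) : Set I :=
  {i | ∃ w ∈ W, ∃ s, π s = i ∧ w s ≠ s}

/-- the orbit of a part -/
def OO (W : Subgroup (Equiv.Perm S)) (i : I) : Set I := {j | ∃ w ∈ W, act hπ w i = j}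

/-- sets meeting every nontrivial orbit in an infinite set -/
def Big (W : Subgroup (Equiv.Perm S)) (E : Set I) : Prop :=
  ∀ i ∈ Acv π W, (E ∩ OO hπ W i).Infinite

/-- elements supported on a set of parts -/
def sup (π : S → I) (W : Subgroup (Equiv.Perm S)) (E : Set I) : Subgroup (Equiv.Perm S) where
  carrier := {w | w ∈ W ∧ ∀ s, π s ∉ E → w s = s}
  one_mem' := ⟨W.one_mem, fun _ _ => rfl⟩
  mul_mem' := by
    rintro a b ⟨ha, ha'⟩ ⟨hb, hb'⟩
    refine ⟨W.mul_mem ha hb, fun s hs => ?_⟩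
    rw [Equiv.Perm.mul_apply, hb' s hs, ha' s hs]
  inv_mem' := by
    rintro a ⟨ha, ha'⟩
    refine ⟨W.inv_mem ha, fun s hs => ?_⟩
    rw [Equiv.Perm.inv_eq_iff_eq]
    exact (ha' s hs).symm

lemma mem_sup {W : Subgroup (Equiv.Perm S)} {E : Set I} {w : Equiv.Perm S} :
    w ∈ sup π W E ↔ w ∈ W ∧ ∀ s, π s ∉ E → w s = s := Iff.rfl

variable {W : Subgroup (Equiv.Perm S)} (h : Glue π W)

include h

lemma act_eq {w : Equiv.Perm S} (hw : w ∈ W) (s : S) : act hπ w (π s) = π (w s) :=
  h.comp w hw _ _ (Function.surjInv_eq hπ (π s))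

lemma act_mul {w w' : Equiv.Perm S} (hw : w ∈ W) (hw' : w' ∈ W) (i : I) :
    act hπ (w * w') i = act hπ w (act hπ w' i) := by
  obtain ⟨s, rfl⟩ := hπ i
  rw [act_eq hπ h (W.mul_mem hw hw'), act_eq hπ h hw', act_eq hπ h hw]
  rfl

lemma act_one (i : I) : act hπ 1 i = i := by
  obtain ⟨s, rfl⟩ := hπ i
  rw [act_eq hπ h W.one_mem]
  rfl

lemma act_inv_act {w : Equiv.Perm S} (hw : w ∈ W) (i : I) :
    act hπ w⁻¹ (act hπ w i) = i := by
  rw [← act_mul hπ h (W.inv_mem hw) hw, inv_mul_cancel, act_one hπ h]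

lemma act_act_inv {w : Equiv.Perm S} (hw : w ∈ W) (i : I) :
    act hπ w (act hπ w⁻¹ i) = i := by
  rw [← act_mul hπ h hw (W.inv_mem hw), mul_inv_cancel, act_one hπ h]

lemma act_inj {w : Equiv.Perm S} (hw : w ∈ W) : Function.Injective (act hπ w) :=
  Function.LeftInverse.injective (act_inv_act hπ h hw)

lemma OO_refl (i : I) : i ∈ OO hπ W i := ⟨1, W.one_mem, act_one hπ h i⟩

lemma OO_symm {i j : I} (hij : j ∈ OO hπ W i) : i ∈ OO hπ W j := by
  obtain ⟨w, hw, rfl⟩ := hij
  exact ⟨w⁻¹, W.inv_mem hw, act_inv_act hπ h hw i⟩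

lemma OO_trans {i j l : I} (hij : j ∈ OO hπ W i) (hjl : l ∈ OO hπ W j) : l ∈ OO hπ W i := by
  obtain ⟨w, hw, rfl⟩ := hij
  obtain ⟨w', hw', rfl⟩ := hjl
  exact ⟨w' * w, W.mul_mem hw' hw, act_mul hπ h hw' hw i⟩

lemma OO_eq {i j : I} (hij : j ∈ OO hπ W i) : OO hπ W j = OO hπ W i := by
  ext l
  exact ⟨fun hl => OO_trans hπ h hij hl, fun hl => OO_trans hπ h (OO_symm hπ h hij) hl⟩

lemma acv_of_ne {i j : I} (hij : j ∈ OO hπ W i) (hne : i ≠ j) : i ∈ Acv π W := by
  obtain ⟨w, hw, rfl⟩ := hij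
  obtain ⟨s, rfl⟩ := hπ i
  refine ⟨w, hw, s, rfl, fun hs => hne ?_⟩
  rw [act_eq hπ h hw, hs]

lemma inf' {i : I} (hi : i ∈ Acv π W) : (OO hπ W i).Infinite := by
  have := h.inf i hi
  refine this.mono ?_
  rintro j ⟨w, hw, s, rfl, rfl⟩
  exact ⟨w, hw, act_eq hπ h hw s⟩

lemma acv_OO {i j : I} (hi : i ∈ Acv π W) (hij : j ∈ OO hπ W i) : j ∈ Acv π W := by
  have h1 : (OO hπ W j).Infinite := by rw [OO_eq hπ h hij]; exact inf' hπ h hi
  obtain ⟨l, hl, hne⟩ := h1.exists_notMem_finite (Set.finite_singleton j)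
  exact acv_of_ne hπ h hl (fun e => hne (by simp [← e]))

lemma nacv_OO {i j : I} (hi : i ∉ Acv π W) (hij : j ∈ OO hπ W i) : j = i := by
  by_contra hne
  exact hi (acv_of_ne hπ h hij (fun e => hne e.symm))

omit h in
lemma fix_of_nacv {s : S} (hs : π s ∉ Acv π W) {w : Equiv.Perm S} (hw : w ∈ W) : w s = s := by
  by_contra hne
  exact hs ⟨w, hw, s, rfl, hne⟩

lemma big_univ : Big hπ W Set.univ := by
  intro i hi
  rw [Set.univ_inter]
  exact inf' hπ h hi

omit h in
lemma Big.mono {E E' : Set I} (hE : Big hπ W E) (hs : E ⊆ E') : Big hπ W E' :=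
  fun i hi => (hE i hi).mono (Set.inter_subset_inter_left _ hs)

/-- gluing -/
lemma gluing (τ : Equiv.Perm I) (u : I → Equiv.Perm S) (hu : ∀ i, u i ∈ W)
    (ha : ∀ i, act hπ (u i) i = τ i) :
    ∃ g ∈ W, (∀ s, g s = u (π s) s) ∧ ∀ i, act hπ g i = τ i := by
  have hp : ∀ s, π (u (π s) s) = τ (π s) := by
    intro s
    rw [← act_eq hπ h (hu (π s)), ha]
  let g : Equiv.Perm S :=
    { toFun := fun s => u (π s) s
      invFun := fun s => (u (τ.symm (π s)))⁻¹ s
      left_inv := fun s => by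
        simp only [hp, Equiv.symm_apply_apply]
        simp
      right_inv := fun s => by
        have h1 : π ((u (τ.symm (π s)))⁻¹ s) = τ.symm (π s) := by
          have h2 := act_eq hπ h (W.inv_mem (hu (τ.symm (π s)))) s
          rw [← h2]
          have h3 := ha (τ.symm (π s))
          rw [Equiv.apply_symm_apply] at h3
          have h4 := act_inv_act hπ h (hu (τ.symm (π s))) (τ.symm (π s))
          rw [h3] at h4
          exact h4
        simp only [h1]
        simp }
  have hg : ∀ s, g s = u (π s) s := fun s => rfl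
  have hgW : g ∈ W := h.glue g (fun i => ⟨u i, hu i, fun s hs => by rw [hg, hs]⟩)
  refine ⟨g, hgW, hg, ?_⟩
  intro i
  obtain ⟨s, rfl⟩ := hπ i
  rw [act_eq hπ h hgW, hg, hp]

/-- the subgroup of elements supported on a big set is again of the same kind -/
lemma glue_sup {E : Set I} (hE : Big hπ W E) : Glue π (sup π W E) := by
  refine ⟨fun w hw => h.comp w hw.1, ?_, ?_⟩
  · intro g hg
    refine ⟨h.glue g (fun i => ?_), ?_⟩
    · obtain ⟨w, hw, h1⟩ := hg i
      exact ⟨w, hw.1, h1⟩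
    · intro s hs
      obtain ⟨w, hw, h1⟩ := hg (π s)
      rw [h1 s rfl, hw.2 s hs]
  · rintro i ⟨w, hw, s, rfl, hne⟩
    have hi : π s ∈ Acv π W := ⟨w, hw.1, s, rfl, hne⟩
    have hiE : π s ∈ E := by
      by_contra h1
      exact hne (hw.2 s h1)
    have h2 := hE _ hi
    have h3 : ((E ∩ OO hπ W (π s)) \ {π s}).Infinite := h2.sdiff (Set.finite_singleton _)
    refine h3.mono ?_
    rintro j ⟨⟨hjE, v, hv, hvj⟩, hj⟩
    have hjne : j ≠ π s := hj
    classical
    obtain ⟨g, hg, h4, h5⟩ := gluing hπ h (Equiv.swap (π s) j)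
      (fun l => if l = π s then v else if l = j then v⁻¹ else 1)
      (fun l => by
        split_ifs
        · exact hv
        · exact W.inv_mem hv
        · exact W.one_mem)
      (fun l => by
        by_cases h1 : l = π s
        · subst h1
          rw [if_pos rfl, Equiv.swap_apply_left, hvj]
        · rw [if_neg h1]
          by_cases h6 : l = j
          · subst h6
            rw [if_pos rfl, Equiv.swap_apply_right, ← hvj]
            exact act_inv_act hπ h hv _
          · rw [if_neg h6, Equiv.swap_apply_of_ne_of_ne h1 h6]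
            exact act_one hπ h l)
    refine ⟨g, ⟨hg, ?_⟩, s, rfl, ?_⟩
    · intro s' hs'
      rw [h4]
      have e1 : π s' ≠ π s := fun e => hs' (e ▸ hiE)
      have e2 : π s' ≠ j := fun e => hs' (e ▸ hjE)
      rw [if_neg e1, if_neg e2]
      rfl
    · rw [← act_eq hπ h hg, h5, Equiv.swap_apply_left]

/-- moves inside the subgroup supported on a big set -/
lemma OO_sup {E : Set I} {i : I} (hiE : i ∈ E) :
    E ∩ OO hπ W i ⊆ OO hπ (sup π W E) i := by
  rintro j ⟨hjE, v, hv, hvj⟩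
  by_cases hj : j = i
  · subst hj
    exact ⟨1, (sup π W E).one_mem, act_one hπ h j⟩
  classical
  obtain ⟨g, hg, h4, h5⟩ := gluing hπ h (Equiv.swap i j)
    (fun l => if l = i then v else if l = j then v⁻¹ else 1)
    (fun l => by
      split_ifs
      · exact hv
      · exact W.inv_mem hv
      · exact W.one_mem)
    (fun l => by
      by_cases h1 : l = i
      · subst h1
        rw [if_pos rfl, Equiv.swap_apply_left, hvj]
      · rw [if_neg h1]
        by_cases h6 : l = j
        · subst h6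
          rw [if_pos rfl, Equiv.swap_apply_right, ← hvj]
          exact act_inv_act hπ h hv _
        · rw [if_neg h6, Equiv.swap_apply_of_ne_of_ne h1 h6]
          exact act_one hπ h l)
  refine ⟨g, ⟨hg, ?_⟩, by rw [h5, Equiv.swap_apply_left]⟩
  intro s' hs'
  rw [h4]
  have e1 : π s' ≠ i := fun e => hs' (e ▸ hiE)
  have e2 : π s' ≠ j := fun e => hs' (e ▸ hjE)
  rw [if_neg e1, if_neg e2]
  rfl

end

end Run7.h798
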