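import Pool.Agent.Run7.h798.OrbCx

/-!
Exactness of the rows.
-/

namespace Run7.h798

open Finsupp

section

variable (k : Type*) [CommRing k] {F B : Type*}

/-- prepend in the horizontal direction -/
noncomputable def hcons (v : F) : (List F × B →₀ k) →ₗ[k] (List F × B →₀ k) :=
  Finsupp.lmapDomain k k (fun p => (v :: p.1, p.2))

@[simp] lemma hcons_single (v : F) (x : List F) (b : B) (c : k) :
    hcons k v (single (x, b) c) = single (v :: x, b) c := by
  simp [hcons]

lemma hcons_tt (v : F) (b : B) (w : List F →₀ k) :
    hcons k v (tt k (single b 1) w) = tt k (single b 1) (lcons k v w) := by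
  have : (hcons k v) ∘ₗ (tt k (single b 1)) = (tt k (single b 1)) ∘ₗ (lcons k v) := by
    apply Finsupp.lhom_ext'
    intro l
    apply LinearMap.ext_ring
    simp [tt_single_single]
  simpa using congrArg (fun f => f w) this

lemma bH_hcons (v : F) (y : List F × B →₀ k) :
    bH k (hcons k v y) = y - hcons k v (bH k y) := by
  have : (bH k) ∘ₗ (hcons k v) = LinearMap.id - (hcons k v) ∘ₗ (bH k (F := F) (B := B)) := by
    apply Finsupp.lhom_ext'
    rintro ⟨x, b⟩
    apply LinearMap.ext_ring
    simp only [LinearMap.coe_comp, Function.comp_apply, lsingle_apply, LinearMap.sub_apply,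
      LinearMap.id_apply]
    rw [← tt_single_single, hcons_tt, bH_tt, bH_tt, lcons_single, bd_single, bd_single,
      one_smul, one_smul, bdL_cons, map_sub, hcons_tt]
  simpa using congrArg (fun f => f y) this

end

section

variable (k : Type*) [CommRing k] {G F : Type*} [Group G] [MulAction G F]

/-- normalisation, raw version -/
noncomputable def nrm0 (p : List F × List G) : List F × List G →₀ k :=
  match p.2 with
  | [] => 0
  | (z :: l) => single (z⁻¹ • p.1, z⁻¹ • l) 1

lemma nrm0_smul (g : G) (p : List F × List G) : nrm0 k (g • p) = nrm0 k p := by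
  obtain ⟨x, l⟩ := p
  cases l with
  | nil => rfl
  | cons z l =>
    have h1 : g • (x, z :: l) = (g • x, (g • z) :: (g • l)) := rfl
    rw [h1]
    simp only [nrm0, smul_eq_mul, mul_inv_rev, mul_smul, inv_smul_smul]

/-- normalisation -/
noncomputable def nrm : (Orb G (List F × List G) →₀ k) →ₗ[k] (List F × List G →₀ k) :=
  Finsupp.linearCombination k (fun q : Orb G (List F × List G) => Quotient.liftOn q
    (nrm0 k) (fun y y' h => by
      obtain ⟨g, rfl⟩ := (MulAction.orbitRel_apply.1 h)
      exact nrm0_smul k g y'))

lemma nrm_qm (v : List F × List G →₀ k) :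
    nrm k (qm k G v) = Finsupp.linearCombination k (nrm0 k) v := by
  have : (nrm k) ∘ₗ (qm k G) = Finsupp.linearCombination k (nrm0 k (G := G) (F := F)) := by
    apply Finsupp.lhom_ext'
    intro y
    apply LinearMap.ext_ring
    simp only [LinearMap.coe_comp, Function.comp_apply, lsingle_apply, qm_single, nrm,
      Finsupp.linearCombination_single, one_smul]
    rfl
  simpa using congrArg (fun f => f v) this

/-- denormalisation -/
noncomputable def dnm : (List F × List G →₀ k) →ₗ[k] (Orb G (List F × List G) →₀ k) :=
  qm k G ∘ₗ vop k id (fun _ => lcons k (1 : G))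

lemma dnm_nrm {v : List F × List G →₀ k} {q : ℕ}
    (hv : v ∈ supported k k {p : List F × List G | p.2.length = q + 1}) :
    dnm k (nrm k (qm k G v)) = qm k G v := by
  rw [nrm_qm, ← sub_eq_zero]
  have : ((dnm k) ∘ₗ (Finsupp.linearCombination k (nrm0 k (G := G) (F := F))) - qm k G :
      (List F × List G →₀ k) →ₗ[k] (Orb G (List F × List G) →₀ k)) v ∈
      (⊥ : Submodule k (Orb G (List F × List G) →₀ k)) := by
    have h1 : ∀ T : (List F × List G →₀ k) →ₗ[k] (Orb G (List F × List G) →₀ k),
        T = Finsupp.linearCombination k (fun p => T (single p 1)) := by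
      intro T
      apply Finsupp.lhom_ext'
      intro y
      apply LinearMap.ext_ring
      simp
    rw [h1 ((dnm k) ∘ₗ (Finsupp.linearCombination k (nrm0 k (G := G) (F := F))) - qm k G)]
    refine lin_mem k _ ?_ hv
    rintro ⟨x, l⟩ hl
    cases l with
    | nil => simp at hl
    | cons z l =>
      rw [Submodule.mem_bot]
      simp only [LinearMap.sub_apply, LinearMap.coe_comp, Function.comp_apply,
        Finsupp.linearCombination_single, one_smul, nrm0, dnm, qm_single]
      rw [← vt_single, vop_vt, lcons_single, vt_single, qm_single, sub_eq_zero]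
      congr 1
      have h2 : z • ((z⁻¹ • x, 1 :: z⁻¹ • l) : List F × List G) = (x, z :: l) := by
        show (z • z⁻¹ • x, (z • (1 : G)) :: (z • z⁻¹ • l)) = (x, z :: l)
        simp
      rw [← h2, cls_smul]
      rfl
  simpa using this

lemma nrm_dH (y : Orb G (List F × List G) →₀ k) : nrm k (dH k y) = bH k (nrm k y) := by
  obtain ⟨v, rfl⟩ := qm_surj k G y
  rw [dH_mk, nrm_qm, nrm_qm]
  have : (Finsupp.linearCombination k (nrm0 k (G := G) (F := F))) ∘ₗ (bH k) =
      (bH k) ∘ₗ (Finsupp.linearCombination k (nrm0 k (G := G) (F := F))) := by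
    apply Finsupp.lhom_ext'
    rintro ⟨x, l⟩
    apply LinearMap.ext_ring
    simp only [LinearMap.coe_comp, Function.comp_apply, lsingle_apply,
      Finsupp.linearCombination_single, one_smul]
    rw [← tt_single_single, bH_tt, bd_single, one_smul]
    cases l with
    | nil =>
      have h3 : (Finsupp.linearCombination k (nrm0 k (G := G) (F := F))) ∘ₗ
          (tt k (single [] 1)) = 0 := by
        apply Finsupp.lhom_ext'
        intro x
        apply LinearMap.ext_ring
        simp [tt_single_single, nrm0]
      have h4 := congrArg (fun f => f (bdL k x)) h3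
      simp only [LinearMap.coe_comp, Function.comp_apply, LinearMap.zero_apply] at h4
      rw [h4]
      simp [nrm0]
    | cons z l =>
      have h3 : (Finsupp.linearCombination k (nrm0 k (G := G) (F := F))) ∘ₗ
          (tt k (single (z :: l) 1)) = (tt k (single (z⁻¹ • l) 1)) ∘ₗ
            (lmp k (fun f : F => z⁻¹ • f)) := by
        apply Finsupp.lhom_ext'
        intro x
        apply LinearMap.ext_ring
        simp only [LinearMap.coe_comp, Function.comp_apply, lsingle_apply, tt_single_single,
          Finsupp.linearCombination_single, one_smul, nrm0, lmp_single]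
        rfl
      have h4 := congrArg (fun f => f (bdL k x)) h3
      simp only [LinearMap.coe_comp, Function.comp_apply] at h4
      rw [h4, lmp_bdL]
      simp only [nrm0]
      rw [← tt_single_single, bH_tt, bd_single, one_smul]
      rfl
  simpa using congrArg (fun f => f v) this

lemma dH_dnm (v : List F × List G →₀ k) : dH k (dnm k v) = dnm k (bH k v) := by
  simp only [dnm, LinearMap.comp_apply]
  rw [dH_mk, bH_vop]

/-- exactness of the rows in positive vertical degree -/
lemma row_exact (good : Set (List F)) (hg : ∀ (g : G) x, x ∈ good → g • x ∈ good)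
    (cone : ∀ T : Finset (List F), (∀ x ∈ T, x ∈ good) → ∃ v : F, ∀ x ∈ T, v :: x ∈ good)
    (j q : ℕ) (y : Orb G (List F × List G) →₀ k)
    (hy : y ∈ SP k G {p : List F × List G | (p.1 ∈ good ∧ p.1.length = j) ∧ p.2.length = q + 1})
    (hz : dH k y = 0) :
    ∃ x ∈ SP k G {p : List F × List G | (p.1 ∈ good ∧ p.1.length = j + 1) ∧
      p.2.length = q + 1}, dH k x = y := by
  classical
  obtain ⟨v, hv, rfl⟩ := (mem_SP k).1 hy
  set y' := nrm k (qm k G v) with hy'
  have h1 : y' ∈ supported k k {p : List F × List G | (p.1 ∈ good ∧ p.1.length = j) ∧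
      p.2.length = q} := by
    rw [hy', nrm_qm]
    refine lin_mem k _ ?_ hv
    rintro ⟨x, l⟩ ⟨⟨hx, hxj⟩, hl⟩
    cases l with
    | nil => simp at hl
    | cons z l =>
      refine single_mem_supported k 1 ?_
      refine ⟨⟨hg _ _ hx, ?_⟩, ?_⟩
      · simpa using hxj
      · simpa using hl
  have h2 : bH k y' = 0 := by
    rw [hy', ← nrm_dH, hz, map_zero]
  rw [mem_supported] at h1
  obtain ⟨f, hf⟩ := cone (y'.support.image Prod.fst) (by
    intro x hx
    obtain ⟨p, hp, rfl⟩ := Finset.mem_image.1 hx
    exact (h1 hp).1.1)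
  have h3 : bH k (hcons k f y') = y' := by rw [bH_hcons, h2, map_zero, sub_zero]
  refine ⟨dnm k (hcons k f y'), ?_, ?_⟩
  · have h4 : hcons k f y' ∈ supported k k {p : List F × List G |
        (p.1 ∈ good ∧ p.1.length = j + 1) ∧ p.2.length = q} := by
      refine lmap_mem k (s := (y'.support : Set (List F × List G))) _ ?_ ?_
      · intro p hp
        refine ⟨⟨hf _ (Finset.mem_image_of_mem _ hp), ?_⟩, (h1 hp).2⟩
        simp [(h1 hp).1.2]
      · rw [mem_supported]
    refine qm_mem_SP k ?_
    have h5 : vop k id (fun _ => lcons k (1 : G)) = Finsupp.lmapDomain k k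
        (fun p : List F × List G => (p.1, (1 : G) :: p.2)) := by
      apply Finsupp.lhom_ext'
      rintro ⟨x, l⟩
      apply LinearMap.ext_ring
      simp only [LinearMap.coe_comp, Function.comp_apply, lsingle_apply]
      rw [← vt_single, vop_vt]
      simp
    rw [h5]
    refine lmap_mem k _ ?_ h4
    rintro ⟨x, l⟩ ⟨hx, hl⟩
    refine ⟨hx, ?_⟩
    simpa using hl
  · rw [dH_dnm, h3, hy', dnm_nrm k (q := q)]
    exact supported_mono (fun p hp => hp.2) hv

end

end Run7.h798
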