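import Mathlib

/-!
The staircase lemma for double complexes.
-/

namespace Run7.h798

variable {k V : Type*} [CommRing k] [AddCommGroup V] [Module k V]

/-- inner induction of the staircase lemma -/
lemma zig_aux (dh dv : V →ₗ[k] V) (D : ℕ → ℕ → Submodule k V) (n : ℕ)
    (hc : ∀ x, dh (dv x) = dv (dh x)) (hh : ∀ x, dh (dh x) = 0)
    (vv : ∀ x, dv (dv x) = 0)
    (mh : ∀ j q x, x ∈ D (j + 1) q → dh x ∈ D j q)
    (mv : ∀ j q x, x ∈ D j (q + 1) → dv x ∈ D j q)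
    (row : ∀ j q x, q ≤ n → x ∈ D j q → dh x = 0 → ∃ y ∈ D (j + 1) q, dh y = x)
    (col : ∀ j q x, 1 ≤ j → q ≤ n → x ∈ D j q → dv x = 0 → ∃ y ∈ D j (q + 1), dv y = x)
    (v0 : ∀ j x, x ∈ D j 0 → dv x = 0) :
    ∀ q j x, q ≤ n → x ∈ D j q → dh x = 0 → dv x = 0 →
      ∃ z ∈ D j (q + 1), dh z = 0 ∧ dv z = x := by
  intro q
  induction q with
  | zero =>
    intro j x hq hx hhx hvx
    obtain ⟨x1, hx1, e1⟩ := row j 0 x hq hx hhx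
    obtain ⟨w, hw, e2⟩ := col (j + 1) 0 x1 (by omega) hq hx1 (v0 _ _ hx1)
    refine ⟨dh w, mh _ _ _ hw, hh w, ?_⟩
    rw [← hc, e2, e1]
  | succ q ih =>
    intro j x hq hx hhx hvx
    obtain ⟨x1, hx1, e1⟩ := row j (q + 1) x hq hx hhx
    obtain ⟨z', hz', h1, h2⟩ := ih (j + 1) (dv x1) (by omega) (mv _ _ _ hx1)
      (by rw [hc, e1, hvx]) (vv x1)
    obtain ⟨w, hw, e2⟩ := col (j + 1) (q + 1) (x1 - z') (by omega) hq
      (Submodule.sub_mem _ hx1 hz') (by rw [map_sub, h2, sub_self])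
    refine ⟨dh w, mh _ _ _ hw, hh w, ?_⟩
    rw [← hc, e2, map_sub, e1, h1, sub_zero]

/-- the staircase lemma -/
lemma zig (dh dv : V →ₗ[k] V) (D : ℕ → ℕ → Submodule k V) (n : ℕ)
    (hc : ∀ x, dh (dv x) = dv (dh x)) (hh : ∀ x, dh (dh x) = 0)
    (vv : ∀ x, dv (dv x) = 0)
    (mh : ∀ j q x, x ∈ D (j + 1) q → dh x ∈ D j q)
    (mv : ∀ j q x, x ∈ D j (q + 1) → dv x ∈ D j q)
    (h0 : ∀ q x, x ∈ D 0 q → dh x = 0)
    (row : ∀ j q x, q ≤ n + 1 → x ∈ D j q → dh x = 0 → ∃ y ∈ D (j + 1) q, dh y = x)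
    (col : ∀ j q x, 1 ≤ j → q ≤ n → x ∈ D j q → dv x = 0 → ∃ y ∈ D j (q + 1), dv y = x)
    (v0 : ∀ j x, x ∈ D j 0 → dv x = 0)
    (x : V) (hx : x ∈ D 0 (n + 1)) (hvx : dv x = 0) :
    ∃ z ∈ D 1 (n + 1), dv z = 0 ∧ dh z = x := by
  obtain ⟨x1, hx1, e1⟩ := row 0 (n + 1) x le_rfl hx (h0 _ _ hx)
  obtain ⟨z, hz, h1, h2⟩ := zig_aux dh dv D n hc hh vv mh mv
    (fun j q x hq => row j q x (by omega)) col v0 n 1 (dv x1) le_rfl (mv _ _ _ hx1)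
    (by rw [hc, e1, hvx]) (vv x1)
  refine ⟨x1 - z, Submodule.sub_mem _ hx1 hz, ?_, ?_⟩
  · rw [map_sub, h2, sub_self]
  · rw [map_sub, e1, h1, sub_zero]

end Run7.h798
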