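import Pool.Agent.Run7.h798.BC
import Pool.Agent.Run7.h798.Rows
import Pool.Agent.Run7.h798.Zig

/-!
Split extensions: the lowest degree of the kernel.
-/

namespace Run7.h798

open Finsupp

section

variable (k : Type*) [CommRing k] {G R K : Type*} [Group G] [Group R] [Group K]

/-- the group `R` with `G` acting through a homomorphism -/
@[ext] structure Via (ρ : G →* R) where
  /-- the underlying element -/
  val : R

instance viaAct (ρ : G →* R) : MulAction G (Via ρ) where
  smul g x := ⟨ρ g * x.val⟩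
  one_smul x := by
    apply Via.ext
    show ρ 1 * x.val = x.val
    simp
  mul_smul g h x := by
    apply Via.ext
    show ρ (g * h) * x.val = ρ g * (ρ h * x.val)
    simp [mul_assoc]

lemma Via.val_smul {ρ : G →* R} (g : G) (x : Via ρ) : (g • x).val = ρ g * x.val := rfl

lemma via_smul_list {ρ : G →* R} (g : G) (x : List (Via ρ)) :
    (g • x).map Via.val = ρ g • (x.map Via.val) := by
  simp only [smul_list_def, List.map_map]
  apply List.map_congr_left
  intro r _
  rfl

lemma vop_map_tt {F F' Z Z' : Type*} (f0 : F → F') (O : (List Z →₀ k) →ₗ[k] (List Z' →₀ k))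
    (w : List Z →₀ k) (v : List F →₀ k) :
    vop k (List.map f0) (fun _ => O) (tt k w v) = tt k (O w) (lmp k f0 v) := by
  have : (vop k (List.map f0) (fun _ => O)) ∘ₗ (tt k w) =
      (tt k (O w)) ∘ₗ (lmp k f0) := by
    apply Finsupp.lhom_ext'
    intro l
    apply LinearMap.ext_ring
    simp [tt_single, vop_vt]
  simpa using congrArg (fun f => f v) this

lemma bH_vop_map {F F' Z Z' : Type*} (f0 : F → F') (O : (List Z →₀ k) →ₗ[k] (List Z' →₀ k))
    (y : List F × List Z →₀ k) :
    bH k (vop k (List.map f0) (fun _ => O) y) = vop k (List.map f0) (fun _ => O) (bH k y) := by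
  have : (bH k) ∘ₗ (vop k (List.map f0) (fun _ => O)) =
      (vop k (List.map f0) (fun _ => O)) ∘ₗ (bH k (F := F) (B := List Z)) := by
    apply Finsupp.lhom_ext'
    rintro ⟨x, l⟩
    apply LinearMap.ext_ring
    simp only [LinearMap.coe_comp, Function.comp_apply, lsingle_apply]
    rw [← tt_single_single, vop_map_tt, bH_tt, bH_tt, vop_map_tt, lmp_bd]
  simpa using congrArg (fun f => f y) this

/-- projection of the double complexes -/
def ePi (ρ : G →* R) : EqMap G R (List (Via ρ)) (List R) G R where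
  f := List.map Via.val
  a := fun _ g => ρ g
  φ := fun g _ => ρ g
  hf := fun g x => via_smul_list g x
  ha := fun _ _ _ => by simp

/-- section of the double complexes -/
def eSi (ρ : G →* R) (s : R →* G) (hs : ∀ r, ρ (s r) = r) :
    EqMap R G (List R) (List (Via ρ)) R G where
  f := List.map (Via.mk (ρ := ρ))
  a := fun _ r => s r
  φ := fun r _ => s r
  hf := fun r x => by
    simp only [smul_list_def, List.map_map]
    apply List.map_congr_left
    intro z _
    apply Via.ext
    show (r * z : R) = ρ (s r) * z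
    rw [hs]
  ha := fun _ _ _ => by simp

lemma ePi_eSi (ρ : G →* R) (s : R →* G) (hs : ∀ r, ρ (s r) = r)
    (y : Orb R (List R × List R) →₀ k) : (ePi ρ).map k ((eSi ρ s hs).map k y) = y := by
  have : ((ePi ρ).map k) ∘ₗ ((eSi ρ s hs).map k) = LinearMap.id := by
    apply lin_ext_orb
    rintro ⟨x, l⟩
    rw [LinearMap.comp_apply, EqMap.map_single, EqMap.map_single]
    simp only [ePi, eSi, List.map_map, LinearMap.id_apply]
    congr 2
    congr 1
    · conv_rhs => rw [← List.map_id x]
      rfl
    · conv_rhs => rw [← List.map_id l]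
      apply List.map_congr_left
      intro z _
      exact hs z
  exact congrArg (fun f => f y) this

lemma ePi_dH (ρ : G →* R) (y : Orb G (List (Via ρ) × List G) →₀ k) :
    (ePi ρ).map k (dH k y) = dH k ((ePi ρ).map k y) := by
  obtain ⟨v, rfl⟩ := qm_surj k G y
  rw [dH_mk, EqMap.map_mk, EqMap.map_mk, dH_mk]
  congr 1
  exact (bH_vop_map k Via.val (lmp k (fun g => ρ g)) v).symm

lemma eSi_dH (ρ : G →* R) (s : R →* G) (hs : ∀ r, ρ (s r) = r)
    (y : Orb R (List R × List R) →₀ k) :
    (eSi ρ s hs).map k (dH k y) = dH k ((eSi ρ s hs).map k y) := by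
  obtain ⟨v, rfl⟩ := qm_surj k R y
  rw [dH_mk, EqMap.map_mk, EqMap.map_mk, dH_mk]
  congr 1
  exact (bH_vop_map k (Via.mk (ρ := ρ)) (lmp k (fun r => s r)) v).symm

/-- pairs of lists of given lengths -/
def LL (F Z : Type*) (j q : ℕ) : Set (List F × List Z) :=
  {p | p.1.length = j ∧ p.2.length = q}

lemma EqMap.map_mem_LL {G G' F F' Z Z' : Type*} [Group G] [Group G'] [MulAction G F]
    [MulAction G' F'] [MulAction G Z] [MulAction G' Z']
    (e : EqMap G G' (List F) (List F') Z Z') (he : ∀ x, (e.f x).length = x.length) {j q : ℕ}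
    {y : Orb G (List F × List Z) →₀ k} (hy : y ∈ SP k G (LL F Z j q)) :
    e.map k y ∈ SP k G' (LL F' Z' j q) := by
  refine desc_mem k _ (EqMap.inv k e) ?_ hy
  rintro ⟨x, l⟩ ⟨hx, hl⟩
  rw [← vt_single, vop_vt, lmp_single, vt_single]
  refine single_mem_supported k 1 ⟨?_, ?_⟩
  · rw [he]; exact hx
  · simpa using hl

lemma dH_mem_LL {G F Z : Type*} [Group G] [MulAction G F] [MulAction G Z] {j q : ℕ}
    {y : Orb G (List F × List Z) →₀ k} (hy : y ∈ SP k G (LL F Z (j + 1) q)) :
    dH k y ∈ SP k G (LL F Z j q) := by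
  have hk : ∀ p ∈ LL F Z (j + 1) q, bH k (single p 1) ∈ supported k k (LL F Z j q) := by
    rintro ⟨x, l⟩ ⟨hx, hl⟩
    rw [← tt_single_single, bH_tt, bd_single, one_smul]
    refine lin_mem k _ ?_ (bdL_mem k hx)
    intro x' hx'
    rw [vt_single]
    exact single_mem_supported k 1 ⟨hx', hl⟩
  obtain ⟨v, hv, rfl⟩ := (mem_SP k).1 hy
  rw [dH_mk]
  refine qm_mem_SP k ?_
  have h1 : bH k (F := F) (B := List Z) =
      Finsupp.linearCombination k (fun p => bH k (single p 1)) := by
    apply Finsupp.lhom_ext'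
    intro y
    apply LinearMap.ext_ring
    simp
  rw [h1]
  exact lin_mem k _ hk hv

lemma dV_mem_LL {G F Z : Type*} [Group G] [MulAction G F] [MulAction G Z] {j q : ℕ}
    {y : Orb G (List F × List Z) →₀ k} (hy : y ∈ SP k G (LL F Z j (q + 1))) :
    dV k y ∈ SP k G (LL F Z j q) :=
  dV_mem k (good := {x : List F | x.length = j}) hy

lemma dH_zero_LL {G F Z : Type*} [Group G] [MulAction G F] [MulAction G Z] {q : ℕ}
    {y : Orb G (List F × List Z) →₀ k} (hy : y ∈ SP k G (LL F Z 0 q)) :
    dH k y = 0 := by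
  refine lin_ext_SP k (T := 0) (LL F Z 0 q) ?_ hy
  rintro ⟨x, l⟩ ⟨hx, hl⟩
  have : x = [] := List.length_eq_zero_iff.1 hx
  subst this
  rw [← qm_single, dH_mk, ← tt_single_single, bH_tt]
  simp

lemma dV_zero_LL {G F Z : Type*} [Group G] [MulAction G F] [MulAction G Z] {j : ℕ}
    {y : Orb G (List F × List Z) →₀ k} (hy : y ∈ SP k G (LL F Z j 0)) :
    dV k y = 0 := by
  refine lin_ext_SP k (T := 0) (LL F Z j 0) ?_ hy
  rintro ⟨x, l⟩ ⟨hx, hl⟩
  have : l = [] := List.length_eq_zero_iff.1 hl
  subst this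
  rw [← qm_single, dV_mk, ← vt_single, bV_vt]
  simp

lemma stab_via (ρ : G →* R) (ι : K →* G) (hk : ∀ g, ρ g = 1 ↔ ∃ a, ι a = g)
    (x : List (Via ρ)) (hx : x ≠ []) : MulAction.stabilizer G x = ι.range := by
  ext g
  rw [MulAction.mem_stabilizer_iff, MonoidHom.mem_range, ← hk]
  constructor
  · intro h
    cases x with
    | nil => exact absurd rfl hx
    | cons r x =>
      have h1 : g • r = r := by
        rw [smul_list_cons] at h
        exact (List.cons.inj h).1
      have h2 : ρ g * r.val = r.val := congrArg Via.val h1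
      exact mul_eq_right.1 h2
  · intro h
    rw [smul_list_def]
    conv_rhs => rw [← List.map_id x]
    apply List.map_congr_left
    intro r _
    apply Via.ext
    show (ρ g * r.val : R) = r.val
    rw [h, one_mul]

/-- the lowest degree of a split extension -/
lemma kun (ρ : G →* R) (s : R →* G) (ι : K →* G) (hs : ∀ r, ρ (s r) = r)
    (hι : Function.Injective ι) (hk : ∀ g, ρ g = 1 ↔ ∃ a, ι a = g) (n : ℕ)
    (hex : ∀ q ≤ n, Ex k K q) (y : Orb G (PUnit.{1} × List G) →₀ k)
    (hy : y ∈ SP k G (LS G (n + 1))) (hz : dV k y = 0) (hρ : hmap k ρ y = 0) :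
    ∃ u ∈ SP k K (LS K (n + 1)), dV k u = 0 ∧ ∃ w ∈ SP k G (LS G (n + 2)),
      y = hmap k ι u + dV k w := by
  classical
  set π := (ePi ρ).map k with hπ
  set σ := (eSi ρ s hs).map k with hσ
  have hπσ : ∀ t, π (σ t) = t := ePi_eSi k ρ s hs
  have hπH : ∀ t, π (dH k t) = dH k (π t) := ePi_dH k ρ
  have hσH : ∀ t, σ (dH k t) = dH k (σ t) := eSi_dH k ρ s hs
  have hπV : ∀ t, π (dV k t) = dV k (π t) := EqMap.map_dV k (ePi ρ)
  have hσV : ∀ t, σ (dV k t) = dV k (σ t) := EqMap.map_dV k (eSi ρ s hs)
  have hπm : ∀ j q t, t ∈ SP k G (LL (Via ρ) G j q) → π t ∈ SP k R (LL R R j q) := by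
    intro j q t ht
    exact EqMap.map_mem_LL k (ePi ρ) (fun x => by simp [ePi]) ht
  have hσm : ∀ j q t, t ∈ SP k R (LL R R j q) → σ t ∈ SP k G (LL (Via ρ) G j q) := by
    intro j q t ht
    exact EqMap.map_mem_LL k (eSi ρ s hs) (fun x => by simp [eSi]) ht
  set D : ℕ → ℕ → Submodule k (Orb G (List (Via ρ) × List G) →₀ k) :=
    fun j q => SP k G (LL (Via ρ) G j q) ⊓ LinearMap.ker π with hD
  -- the element over the empty list
  let eI : EqMap G G PUnit.{1} (List (Via ρ)) G G :=
    { f := fun _ => [], a := fun _ z => z, φ := fun g _ => g, hf := fun _ _ => rfl,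
      ha := fun _ _ _ => rfl }
  let eIR : EqMap R R PUnit.{1} (List R) R R :=
    { f := fun _ => [], a := fun _ z => z, φ := fun g _ => g, hf := fun _ _ => rfl,
      ha := fun _ _ _ => rfl }
  let eO : EqMap G G (List (Via ρ)) PUnit.{1} G G :=
    { f := fun _ => PUnit.unit, a := fun _ z => z, φ := fun g _ => g, hf := fun _ _ => rfl,
      ha := fun _ _ _ => rfl }
  have hOI : ∀ t, eO.map k (eI.map k t) = t := by
    intro t
    have : (eO.map k) ∘ₗ (eI.map k) = LinearMap.id := by
      apply lin_ext_orb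
      rintro ⟨x, l⟩
      rw [LinearMap.comp_apply, EqMap.map_single, EqMap.map_single]
      simp [eO, eI]
    exact congrArg (fun f => f t) this
  have hI : π (eI.map k y) = 0 := by
    have h1 : π ∘ₗ (eI.map k) = (eIR.map k) ∘ₗ (hmap k ρ) := by
      apply lin_ext_orb
      rintro ⟨x, l⟩
      rw [LinearMap.comp_apply, LinearMap.comp_apply, EqMap.map_single, hπ, EqMap.map_single,
        hmap_single, EqMap.map_single]
      simp only [eI, eIR, ePi, List.map_map, List.map_nil]
      rfl
    have h2 := congrArg (fun f => f y) h1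
    simp only [LinearMap.comp_apply] at h2
    rw [h2, hρ, map_zero]
  have hI2 : eI.map k y ∈ SP k G (LL (Via ρ) G 0 (n + 1)) := by
    refine desc_mem k _ (EqMap.inv k eI) ?_ hy
    rintro ⟨x, l⟩ hl
    rw [← vt_single, vop_vt, lmp_single, vt_single]
    refine single_mem_supported k 1 ⟨rfl, ?_⟩
    show (List.map (eI.a x) l).length = n + 1
    rw [List.length_map]
    exact hl
  -- the staircase
  obtain ⟨z, hzD, hzV, hzH⟩ := zig (dH k) (dV k) D n (fun x => dH_dV k x) (fun x => dH_dH k x)
    (fun x => dV_dV k x)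
    (fun j q x hx => Submodule.mem_inf.2 ⟨dH_mem_LL k hx.1, by
      rw [LinearMap.mem_ker, hπH, LinearMap.mem_ker.1 hx.2, map_zero]⟩)
    (fun j q x hx => Submodule.mem_inf.2 ⟨dV_mem_LL k hx.1, by
      rw [LinearMap.mem_ker, hπV, LinearMap.mem_ker.1 hx.2, map_zero]⟩)
    (fun q x hx => dH_zero_LL k hx.1)
    (by
      intro j q x _ hx hxz
      cases q with
      | zero =>
        have h0 : x = 0 := by
          have h1 : σ (π x) = x := by
            refine lin_ext_SP k (S := σ ∘ₗ π) (T := LinearMap.id) (LL (Via ρ) G j 0) ?_ hx.1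
            rintro ⟨x', l⟩ ⟨hx', hl⟩
            have : l = [] := List.length_eq_zero_iff.1 hl
            subst this
            rw [LinearMap.comp_apply, hπ, hσ, EqMap.map_single, EqMap.map_single]
            simp only [ePi, eSi, List.map_map, LinearMap.id_apply, List.map_nil]
            congr 3
            conv_rhs => rw [← List.map_id x']
            rfl
          rw [← h1, LinearMap.mem_ker.1 hx.2, map_zero]
        exact ⟨0, Submodule.zero_mem _, by rw [h0, map_zero]⟩
      | succ q =>
        have h1 := row_exact k (Set.univ : Set (List (Via ρ))) (fun _ _ _ => trivial)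
          (fun _ _ => ⟨⟨1⟩, fun _ _ => trivial⟩) j q x
          (by
            obtain ⟨v, hv, h⟩ := (mem_SP k).1 hx.1
            rw [← h]
            refine qm_mem_SP k (supported_mono ?_ hv)
            rintro p ⟨hp1, hp2⟩
            exact ⟨⟨trivial, hp1⟩, hp2⟩) hxz
        obtain ⟨w, hw, h2⟩ := h1
        have hw' : w ∈ SP k G (LL (Via ρ) G (j + 1) (q + 1)) := by
          obtain ⟨v, hv, h⟩ := (mem_SP k).1 hw
          rw [← h]
          refine qm_mem_SP k (supported_mono ?_ hv)
          rintro p ⟨⟨_, hp1⟩, hp2⟩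
          exact ⟨hp1, hp2⟩
        refine ⟨w - σ (π w), Submodule.mem_inf.2
          ⟨Submodule.sub_mem _ hw' (hσm _ _ _ (hπm _ _ _ hw')), ?_⟩, ?_⟩
        · rw [LinearMap.mem_ker, map_sub, hπσ, sub_self]
        · rw [map_sub, ← hσH, ← hπH, h2, LinearMap.mem_ker.1 hx.2, map_zero, sub_zero])
    (by
      intro j q x hj hq hx hxz
      obtain ⟨w, hw, h2⟩ := col_exact k (A := List (Via ρ)) {x | x.length = j}
        (fun g x hx => by
          show (g • x).length = j
          rw [smul_list_length]; exact hx) q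
        (fun a ha => by
          have ha' : a ≠ [] := by
            rintro rfl
            have : (0 : ℕ) = j := ha
            omega
          rw [stab_via ρ ι hk a ha']
          exact Ex_iso k (MonoidHom.ofInjective hι) (hex q hq)) x hx.1 hxz
      have hw' : w ∈ SP k G (LL (Via ρ) G j (q + 1)) := hw
      refine ⟨w - σ (π w), Submodule.mem_inf.2
        ⟨Submodule.sub_mem _ hw' (hσm _ _ _ (hπm _ _ _ hw')), ?_⟩, ?_⟩
      · rw [LinearMap.mem_ker, map_sub, hπσ, sub_self]
      · rw [map_sub, ← hσV, ← hπV, h2, LinearMap.mem_ker.1 hx.2, map_zero, sub_zero])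
    (fun j x hx => dV_zero_LL k hx.1)
    (eI.map k y) (Submodule.mem_inf.2 ⟨hI2, LinearMap.mem_ker.2 hI⟩) (by rw [← EqMap.map_dV, hz, map_zero])
  -- Shapiro
  obtain ⟨T, hT, hκ, w, hw, hdec⟩ := shap k (A := List (Via ρ)) {x | x.length = 1}
    (fun g x hx => by
      show (g • x).length = 1
      rw [smul_list_length]; exact hx) (n + 1) z hzD.1 hzV
  have hstab : ∀ a ∈ T, MulAction.stabilizer G a = ι.range := by
    intro a ha
    refine stab_via ρ ι hk a ?_
    rintro rfl
    have : (0 : ℕ) = 1 := hT _ ha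
    omega
  have key : ∀ a ∈ T, ∀ t, eO.map k (dH k ((eIn a).map k t)) =
      hmap k (MulAction.stabilizer G a).subtype t := by
    intro a ha t
    have h1 : (eO.map k) ∘ₗ (dH k) ∘ₗ ((eIn a).map k) =
        hmap k (MulAction.stabilizer G a).subtype := by
      apply lin_ext_orb
      rintro ⟨x, l⟩
      have hla : a.length = 1 := hT a ha
      obtain ⟨r, rfl⟩ := List.length_eq_one_iff.1 hla
      rw [LinearMap.comp_apply, LinearMap.comp_apply, EqMap.map_single, ← qm_single, dH_mk,
        ← tt_single_single, bH_tt, bd_single, one_smul]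
      have h3 : bdL k ((eIn (G := G) [r]).f x) = single [] 1 := by
        show bdL k [r] = single [] 1
        simp [bdL_cons]
      rw [h3, tt_single_single, qm_single, EqMap.map_single, hmap_single]
      simp only [eO, eIn, List.map_map]
      rfl
    exact congrArg (fun f => f t) h1
  -- homomorphisms to the kernel
  have hθ : ∀ a ∈ T, ∃ θ : MulAction.stabilizer G a →* K,
      ι.comp θ = (MulAction.stabilizer G a).subtype := by
    intro a ha
    refine ⟨(MonoidHom.ofInjective hι).symm.toMonoidHom.comp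
      (Subgroup.inclusion (hstab a ha).le), ?_⟩
    ext g
    simp only [MonoidHom.comp_apply]
    exact MonoidHom.apply_ofInjective_symm hι (Subgroup.inclusion (hstab a ha).le g)
  choose! θ hθ1 using hθ
  have hzS : z ∈ SP k G {p : List (Via ρ) × List G | p.2.length = n + 1} := by
    obtain ⟨v, hv, h⟩ := (mem_SP k).1 hzD.1
    rw [← h]
    exact qm_mem_SP k (supported_mono (fun p hp => hp.2) hv)
  refine ⟨∑ a ∈ T, hmap k (θ a) (kap k a z), ?_, ?_, - eO.map k (dH k w), ?_, ?_⟩
  · refine Submodule.sum_mem _ (fun a _ => hmap_mem k _ ?_)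
    exact kap_mem k a hzS
  · rw [map_sum]
    refine Finset.sum_eq_zero (fun a _ => ?_)
    rw [← hmap_dV, hκ a, map_zero]
  · refine Submodule.neg_mem _ ?_
    have hw1 : dH k w ∈ SP k G (LL (Via ρ) G 0 (n + 2)) := dH_mem_LL k hw
    refine desc_mem k _ (EqMap.inv k eO) ?_ hw1
    rintro ⟨x, l⟩ ⟨_, hl⟩
    rw [← vt_single, vop_vt, lmp_single, vt_single]
    refine single_mem_supported k 1 ?_
    simpa [LS, eO] using hl
  · rw [map_sum]
    have h5 : y = eO.map k (dH k z) := by rw [hzH, hOI]
    rw [h5]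
    conv_lhs => rw [hdec]
    rw [map_sub, map_sub, map_sum, map_sum, map_neg, dH_dV, EqMap.map_dV, sub_eq_add_neg]
    congr 1
    refine Finset.sum_congr rfl (fun a ha => ?_)
    rw [key a ha, hmap_hmap, hθ1 a ha]

end

end Run7.h798
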