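import Mathlib

/-!
Chain complexes of lists.  A simplex is a list of vertices, the boundary is
defined by the recursion `∂ (z :: l) = l - z * ∂ l`.
-/

namespace Run7.h798

open Finsupp

section Lists

variable (k : Type*) [CommRing k] {Z Z' : Type*}

/-- prepend a vertex -/
noncomputable def lcons (z : Z) : (List Z →₀ k) →ₗ[k] (List Z →₀ k) :=
  Finsupp.lmapDomain k k (List.cons z)

/-- the boundary of a list (augmented: the boundary of a one-element list is the empty list) -/
noncomputable def bdL : List Z → (List Z →₀ k)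
  | [] => 0
  | (z :: l) => single l 1 - lcons k z (bdL l)

/-- the boundary operator -/
noncomputable def bd : (List Z →₀ k) →ₗ[k] (List Z →₀ k) :=
  Finsupp.linearCombination k (bdL k)

@[simp] lemma lcons_single (z : Z) (l : List Z) (c : k) :
    lcons k z (single l c) = single (z :: l) c := by
  simp [lcons]

@[simp] lemma bdL_nil : bdL k ([] : List Z) = 0 := rfl

lemma bdL_cons (z : Z) (l : List Z) : bdL k (z :: l) = single l 1 - lcons k z (bdL k l) := rfl

@[simp] lemma bd_single (l : List Z) (c : k) : bd k (single l c) = c • bdL k l := by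
  simp [bd]

lemma bd_lcons (z : Z) (v : List Z →₀ k) : bd k (lcons k z v) = v - lcons k z (bd k v) := by
  have : (bd k) ∘ₗ (lcons k z) = LinearMap.id - (lcons k z) ∘ₗ (bd k) := by
    apply Finsupp.lhom_ext'
    intro l
    apply LinearMap.ext_ring
    simp [bdL_cons]
  simpa using congrArg (fun f => f v) this

lemma bd_bdL (l : List Z) : bd k (bdL k l) = 0 := by
  induction l with
  | nil => simp
  | cons z l ih => simp [bdL_cons, bd_lcons, ih]

lemma bd_bd (v : List Z →₀ k) : bd k (bd k v) = 0 := by
  have : (bd k) ∘ₗ (bd k) = (0 : (List Z →₀ k) →ₗ[k] (List Z →₀ k)) := by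
    apply Finsupp.lhom_ext'
    intro l
    apply LinearMap.ext_ring
    simp [bd_bdL]
  simpa using congrArg (fun f => f v) this

/-- functoriality -/
noncomputable def lmp (f : Z → Z') : (List Z →₀ k) →ₗ[k] (List Z' →₀ k) :=
  Finsupp.lmapDomain k k (List.map f)

@[simp] lemma lmp_single (f : Z → Z') (l : List Z) (c : k) :
    lmp k f (single l c) = single (l.map f) c := by
  simp [lmp]

lemma lmp_lcons (f : Z → Z') (z : Z) (v : List Z →₀ k) :
    lmp k f (lcons k z v) = lcons k (f z) (lmp k f v) := by
  have : (lmp k f) ∘ₗ (lcons k z) = (lcons k (f z)) ∘ₗ (lmp k f) := by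
    apply Finsupp.lhom_ext'
    intro l
    apply LinearMap.ext_ring
    simp
  simpa using congrArg (fun f => f v) this

lemma lmp_bdL (f : Z → Z') (l : List Z) : lmp k f (bdL k l) = bdL k (l.map f) := by
  induction l with
  | nil => simp
  | cons z l ih => simp [bdL_cons, lmp_lcons, ih]

lemma lmp_bd (f : Z → Z') (v : List Z →₀ k) : lmp k f (bd k v) = bd k (lmp k f v) := by
  have : (lmp k f) ∘ₗ (bd k) = (bd k) ∘ₗ (lmp k f) := by
    apply Finsupp.lhom_ext'
    intro l
    apply LinearMap.ext_ring
    simp [lmp_bdL]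
  simpa using congrArg (fun f => f v) this

/-- the prism operator on a list -/
noncomputable def prL (a b : Z → Z') : List Z → (List Z' →₀ k)
  | [] => 0
  | (z :: l) => lcons k (a z) (single ((z :: l).map b) 1 - prL a b l)

@[simp] lemma prL_nil (a b : Z → Z') : prL k a b [] = 0 := rfl

lemma prL_cons (a b : Z → Z') (z : Z) (l : List Z) :
    prL k a b (z :: l) = lcons k (a z) (single ((z :: l).map b) 1 - prL k a b l) := rfl

/-- the prism operator -/
noncomputable def pr (a b : Z → Z') : (List Z →₀ k) →ₗ[k] (List Z' →₀ k) :=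
  Finsupp.linearCombination k (prL k a b)

@[simp] lemma pr_single (a b : Z → Z') (l : List Z) (c : k) :
    pr k a b (single l c) = c • prL k a b l := by
  simp [pr]

lemma pr_lcons (a b : Z → Z') (z : Z) (v : List Z →₀ k) :
    pr k a b (lcons k z v) = lcons k (a z) (lcons k (b z) (lmp k b v) - pr k a b v) := by
  have : (pr k a b) ∘ₗ (lcons k z) =
      (lcons k (a z)) ∘ₗ ((lcons k (b z)) ∘ₗ (lmp k b) - pr k a b) := by
    apply Finsupp.lhom_ext'
    intro l
    apply LinearMap.ext_ring
    simp [prL_cons]
  simpa using congrArg (fun f => f v) this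

lemma bd_prL (a b : Z → Z') (l : List Z) :
    bd k (prL k a b l) + pr k a b (bdL k l) = single (l.map b) 1 - single (l.map a) 1 := by
  induction l with
  | nil => simp
  | cons z l ih =>
    have h1 : bd k (prL k a b l) = single (l.map b) 1 - single (l.map a) 1
        - pr k a b (bdL k l) := by
      rw [← ih]; abel
    have h2 : lmp k b (bdL k l) = bdL k (l.map b) := lmp_bdL k b l
    simp only [prL_cons, bdL_cons, map_sub, bd_lcons, pr_lcons, pr_single, h2, h1, bd_single,
      List.map_cons, one_smul, lcons_single]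
    abel

lemma bd_pr (a b : Z → Z') (v : List Z →₀ k) :
    bd k (pr k a b v) + pr k a b (bd k v) = lmp k b v - lmp k a v := by
  have : (bd k) ∘ₗ (pr k a b) + (pr k a b) ∘ₗ (bd k) = lmp k b - lmp k a := by
    apply Finsupp.lhom_ext'
    intro l
    apply LinearMap.ext_ring
    simp [bd_prL]
  simpa using congrArg (fun f => f v) this

lemma lmp_prL {Z'' : Type*} (a b : Z → Z') (c : Z' → Z'') (l : List Z) :
    lmp k c (prL k a b l) = prL k (c ∘ a) (c ∘ b) l := by
  induction l with
  | nil => simp
  | cons z l ih => simp [prL_cons, lmp_lcons, ih]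

lemma prL_map {Z'' : Type*} (a b : Z → Z') (c : Z'' → Z) (l : List Z'') :
    prL k a b (l.map c) = prL k (a ∘ c) (b ∘ c) l := by
  induction l with
  | nil => simp
  | cons z l ih => simp only [List.map_cons, prL_cons, ih]; simp

/-- lists of a given length -/
def LenSet (Z : Type*) (n : ℕ) : Set (List Z) := {l | l.length = n}

lemma lmap_mem {α β : Type*} (f : α → β) {s : Set α} {t : Set β} (h : ∀ a ∈ s, f a ∈ t)
    {v : α →₀ k} (hv : v ∈ supported k k s) : Finsupp.lmapDomain k k f v ∈ supported k k t := by
  have h1 : Finsupp.lmapDomain k k f v ∈ (supported k k s).map (Finsupp.lmapDomain k k f) :=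
    Submodule.mem_map_of_mem hv
  rw [Finsupp.lmapDomain_supported] at h1
  refine Finsupp.supported_mono ?_ h1
  rintro _ ⟨a, ha, rfl⟩
  exact h a ha

lemma lin_mem {α M : Type*} [AddCommGroup M] [Module k M] (f : α → M) {s : Set α}
    {S : Submodule k M} (h : ∀ a ∈ s, f a ∈ S)
    {v : α →₀ k} (hv : v ∈ supported k k s) : Finsupp.linearCombination k f v ∈ S := by
  rw [Finsupp.linearCombination_apply]
  refine Submodule.sum_mem _ (fun a ha => S.smul_mem _ (h a ?_))
  rw [mem_supported] at hv
  exact hv ha

lemma lcons_mem {n : ℕ} (z : Z) {v : List Z →₀ k} (hv : v ∈ supported k k (LenSet Z n)) :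
    lcons k z v ∈ supported k k (LenSet Z (n + 1)) := by
  refine lmap_mem k _ ?_ hv
  intro l hl
  have : l.length = n := hl
  show (z :: l).length = n + 1
  simp [this]

lemma bdL_mem {n : ℕ} {l : List Z} (hl : l.length = n + 1) :
    bdL k l ∈ supported k k (LenSet Z n) := by
  induction l generalizing n with
  | nil => simp at hl
  | cons z l ih =>
    rw [bdL_cons]
    simp only [List.length_cons, Nat.add_right_cancel_iff] at hl
    refine Submodule.sub_mem _ (single_mem_supported k 1 hl) ?_
    cases n with
    | zero =>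
      have : l = [] := List.length_eq_zero_iff.1 hl
      subst this
      simp
    | succ n => exact lcons_mem k z (ih hl)

lemma prL_mem (a b : Z → Z') {n : ℕ} {l : List Z} (hl : l.length = n) :
    prL k a b l ∈ supported k k (LenSet Z' (n + 1)) := by
  induction l generalizing n with
  | nil => simp
  | cons z l ih =>
    simp only [List.length_cons] at hl
    subst hl
    rw [prL_cons]
    apply lcons_mem
    refine Submodule.sub_mem _ (single_mem_supported k 1 ?_) (ih rfl)
    show (List.map b (z :: l)).length = l.length + 1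
    simp

lemma bd_mem {n : ℕ} {v : List Z →₀ k} (hv : v ∈ supported k k (LenSet Z (n + 1))) :
    bd k v ∈ supported k k (LenSet Z n) :=
  lin_mem k _ (fun _ hl => bdL_mem k hl) hv

lemma bd_zero_of_nil {v : List Z →₀ k} (hv : v ∈ supported k k (LenSet Z 0)) : bd k v = 0 := by
  have : bd k v ∈ (⊥ : Submodule k (List Z →₀ k)) := by
    refine lin_mem k _ ?_ hv
    intro l hl
    have : l = [] := List.length_eq_zero_iff.1 hl
    subst this
    simp
  simpa using this

/-- sublists: the boundary of a list is supported on its sublists -/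
lemma bdL_sublist (l : List Z) : bdL k l ∈ supported k k {l' | List.Sublist l' l} := by
  induction l with
  | nil => simp
  | cons z l ih =>
    rw [bdL_cons]
    refine Submodule.sub_mem _ (single_mem_supported k 1 (List.sublist_cons_self z l)) ?_
    refine lmap_mem k _ ?_ ih
    intro l' hl'
    exact List.Sublist.cons_cons z hl'

end Lists

section Pairs

variable (k : Type*) [CommRing k] {A A' A'' Z Z' Z'' F B : Type*}

/-- the column over `x` -/
noncomputable def vt (x : A) : (B →₀ k) →ₗ[k] (A × B →₀ k) :=
  Finsupp.lmapDomain k k (Prod.mk x)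

@[simp] lemma vt_single (x : A) (b : B) (c : k) : vt k x (single b c) = single (x, b) c := by
  simp [vt]

/-- operator acting in the second variable, with parameters depending on the first -/
noncomputable def vop (f : A → A') (O : A → (List Z →₀ k) →ₗ[k] (List Z' →₀ k)) :
    (A × List Z →₀ k) →ₗ[k] (A' × List Z' →₀ k) :=
  Finsupp.linearCombination k (fun p => vt k (f p.1) (O p.1 (single p.2 1)))

lemma vop_vt (f : A → A') (O : A → (List Z →₀ k) →ₗ[k] (List Z' →₀ k)) (x : A)
    (v : List Z →₀ k) : vop k f O (vt k x v) = vt k (f x) (O x v) := by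
  have : (vop k f O) ∘ₗ (vt k x) = (vt k (f x)) ∘ₗ (O x) := by
    apply Finsupp.lhom_ext'
    intro l
    apply LinearMap.ext_ring
    simp [vop]
  simpa using congrArg (fun f => f v) this

lemma hom_ext_vt {M : Type*} [AddCommGroup M] [Module k M]
    {S T : (A × B →₀ k) →ₗ[k] M} (h : ∀ x v, S (vt k x v) = T (vt k x v)) : S = T := by
  apply Finsupp.lhom_ext'
  rintro ⟨x, l⟩
  apply LinearMap.ext_ring
  simpa using h x (single l 1)

lemma vop_vop (f : A → A') (O : A → (List Z →₀ k) →ₗ[k] (List Z' →₀ k))
    (f' : A' → A'') (O' : A' → (List Z' →₀ k) →ₗ[k] (List Z'' →₀ k)) (y : A × List Z →₀ k) :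
    vop k f' O' (vop k f O y) = vop k (f' ∘ f) (fun x => O' (f x) ∘ₗ O x) y := by
  have : (vop k f' O') ∘ₗ (vop k f O) = vop k (f' ∘ f) (fun x => O' (f x) ∘ₗ O x) := by
    apply hom_ext_vt
    intro x v
    simp [vop_vt]
  simpa using congrArg (fun f => f y) this

/-- vertical boundary -/
noncomputable def bV : (A × List Z →₀ k) →ₗ[k] (A × List Z →₀ k) :=
  vop k id (fun _ => bd k)

lemma bV_vt (x : A) (v : List Z →₀ k) : bV k (vt k x v) = vt k x (bd k v) := by
  simp [bV, vop_vt]

/-- exterior product of two chains -/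
noncomputable def tt (w : B →₀ k) : (A →₀ k) →ₗ[k] (A × B →₀ k) :=
  Finsupp.linearCombination k (fun x => vt k x w)

lemma tt_single (w : B →₀ k) (x : A) : tt k w (single x 1) = vt k x w := by
  simp [tt]

lemma tt_single_single (b : B) (x : A) : tt k (single b (1 : k)) (single x 1) = single (x, b) 1 := by
  simp [tt]

lemma tt_add (w w' : B →₀ k) (v : A →₀ k) : tt k (w + w') v = tt k w v + tt k w' v := by
  simp [tt, Finsupp.linearCombination_apply, Finsupp.sum_add]

lemma tt_smul (c : k) (w : B →₀ k) (v : A →₀ k) : tt k (c • w) v = c • tt k w v := by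
  simp only [tt, Finsupp.linearCombination_apply, map_smul, Finsupp.smul_sum]
  refine Finsupp.sum_congr ?_
  intro x _
  rw [smul_comm]

/-- horizontal boundary -/
noncomputable def bH : (List F × B →₀ k) →ₗ[k] (List F × B →₀ k) :=
  Finsupp.linearCombination k (fun p => tt k (single p.2 1) (bdL k p.1))

lemma bH_tt (w : B →₀ k) (v : List F →₀ k) : bH k (tt k w v) = tt k w (bd k v) := by
  induction w using Finsupp.induction_linear with
  | zero => simp [tt, Finsupp.linearCombination_apply]
  | add w w' h h' => simp [tt_add, h, h']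
  | single b c =>
    have h1 : (single b c : B →₀ k) = c • single b 1 := by simp
    rw [h1, tt_smul, tt_smul, map_smul]
    congr 1
    have : (bH k) ∘ₗ (tt k (single b 1)) = (tt k (single b 1)) ∘ₗ (bd k (Z := F)) := by
      apply Finsupp.lhom_ext'
      intro l
      apply LinearMap.ext_ring
      simp [bH, tt_single_single]
    simpa using congrArg (fun f => f v) this

lemma vop_tt (O : (List Z →₀ k) →ₗ[k] (List Z' →₀ k)) (w : List Z →₀ k) (v : A →₀ k) :
    vop k id (fun _ => O) (tt k w v) = tt k (O w) v := by
  have : (vop k id (fun _ => O)) ∘ₗ (tt k w) = tt k (A := A) (O w) := by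
    apply Finsupp.lhom_ext'
    intro l
    apply LinearMap.ext_ring
    simp [tt_single, vop_vt]
  simpa using congrArg (fun f => f v) this

lemma bH_vop (O : (List Z →₀ k) →ₗ[k] (List Z' →₀ k)) (y : List F × List Z →₀ k) :
    bH k (vop k id (fun _ => O) y) = vop k id (fun _ => O) (bH k y) := by
  have : (bH k) ∘ₗ (vop k id (fun _ => O)) =
      (vop k id (fun _ => O)) ∘ₗ (bH k (F := F) (B := List Z)) := by
    apply Finsupp.lhom_ext'
    rintro ⟨x, l⟩
    apply LinearMap.ext_ring
    simp only [LinearMap.coe_comp, Function.comp_apply, lsingle_apply]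
    rw [← tt_single_single, vop_tt, bH_tt, bH_tt, vop_tt]
  simpa using congrArg (fun f => f y) this

lemma bV_bV (y : A × List Z →₀ k) : bV k (bV k y) = 0 := by
  have : (bV k) ∘ₗ (bV k) = (0 : (A × List Z →₀ k) →ₗ[k] (A × List Z →₀ k)) := by
    apply hom_ext_vt
    intro x v
    simp [bV_vt, bd_bd]
  simpa using congrArg (fun f => f y) this

lemma bH_bH (y : List F × B →₀ k) : bH k (bH k y) = 0 := by
  have : (bH k) ∘ₗ (bH k) = (0 : (List F × B →₀ k) →ₗ[k] (List F × B →₀ k)) := by
    apply Finsupp.lhom_ext'
    rintro ⟨x, l⟩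
    apply LinearMap.ext_ring
    simp only [LinearMap.coe_comp, Function.comp_apply, lsingle_apply]
    rw [← tt_single_single, bH_tt, bH_tt, bd_bd]
    simp
  simpa using congrArg (fun f => f y) this

lemma bH_bV (y : List F × List Z →₀ k) : bH k (bV k y) = bV k (bH k y) :=
  bH_vop k (bd k) y

end Pairs

end Run7.h798
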