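import Pool.Agent.Run7.h798.Kun

/-!
Split extensions with acyclic kernel, and the mitosis argument.
-/

namespace Run7.h798

open Finsupp

section

variable (k : Type*) [CommRing k] {G R K : Type*} [Group G] [Group R] [Group K]

lemma hmap_sec (ρ : G →* R) (s : R →* G) (hs : ∀ r, ρ (s r) = r)
    (y : Orb R (PUnit.{1} × List R) →₀ k) : hmap k ρ (hmap k s y) = y := by
  rw [hmap_hmap]
  have : ρ.comp s = MonoidHom.id R := by ext r; exact hs r
  rw [this, hmap_id]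

/-- exactness of the kernel of the projection of a split extension with acyclic kernel -/
lemma split_ex (ρ : G →* R) (s : R →* G) (ι : K →* G) (hs : ∀ r, ρ (s r) = r)
    (hι : Function.Injective ι) (hk : ∀ g, ρ g = 1 ↔ ∃ a, ι a = g) (n : ℕ)
    (hex : ∀ q ≤ n + 1, Ex k K q) (y : Orb G (PUnit.{1} × List G) →₀ k)
    (hy : y ∈ SP k G (LS G (n + 1))) (hz : dV k y = 0) (hρ : hmap k ρ y = 0) :
    ∃ w ∈ SP k G (LS G (n + 2)), hmap k ρ w = 0 ∧ dV k w = y := by
  obtain ⟨u, hu, hu0, w, hw, hdec⟩ := kun k ρ s ι hs hι hk n (fun q hq => hex q (by omega))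
    y hy hz hρ
  obtain ⟨u', hu', h1⟩ := hex (n + 1) le_rfl u hu hu0
  set w' := hmap k ι u' + w with hw'
  have h2 : dV k w' = y := by
    rw [hw', map_add, ← hmap_dV, h1, hdec]
  have hw'm : w' ∈ SP k G (LS G (n + 2)) := Submodule.add_mem _ (hmap_mem k _ hu') hw
  refine ⟨w' - hmap k s (hmap k ρ w'), Submodule.sub_mem _ hw'm
    (hmap_mem k _ (hmap_mem k _ hw'm)), ?_, ?_⟩
  · rw [map_sub, hmap_sec k ρ s hs, sub_self]
  · rw [map_sub, ← hmap_dV, ← hmap_dV, h2, hρ, map_zero, sub_zero]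

/-- the lowest degree of a split extension, relative to boundaries -/
lemma kun' (ρ : G →* R) (s : R →* G) (ι : K →* G) (hs : ∀ r, ρ (s r) = r)
    (hι : Function.Injective ι) (hk : ∀ g, ρ g = 1 ↔ ∃ a, ι a = g) (n : ℕ)
    (hex : ∀ q ≤ n, Ex k K q) (y : Orb G (PUnit.{1} × List G) →₀ k)
    (hy : y ∈ SP k G (LS G (n + 1))) (hz : dV k y = 0)
    (hρ : ∃ t ∈ SP k R (LS R (n + 2)), dV k t = hmap k ρ y) :
    ∃ u ∈ SP k K (LS K (n + 1)), dV k u = 0 ∧ ∃ w ∈ SP k G (LS G (n + 2)),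
      y = hmap k ι u + dV k w := by
  obtain ⟨t, ht, h1⟩ := hρ
  obtain ⟨u, hu, hu0, w, hw, hdec⟩ := kun k ρ s ι hs hι hk n hex
    (y - dV k (hmap k s t))
    (Submodule.sub_mem _ hy (dV_mem_LS k (hmap_mem k _ ht)))
    (by rw [map_sub, hz, dV_dV, sub_zero])
    (by rw [map_sub, hmap_dV, hmap_sec k ρ s hs, h1, sub_self])
  refine ⟨u, hu, hu0, w + hmap k s t, Submodule.add_mem _ hw (hmap_mem k _ ht), ?_⟩
  rw [map_add, ← add_assoc, ← hdec]
  abel

/-- the image of a cycle of positive degree under the trivial homomorphism is a boundary -/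
lemma triv_bd {S S' : Type*} [Group S] [Group S'] {q : ℕ} {y : Orb S (PUnit.{1} × List S) →₀ k}
    (hy : y ∈ SP k S (LS S q)) (hz : dV k y = 0) :
    ∃ w ∈ SP k S' (LS S' (q + 1)), dV k w = hmap k (1 : S →* S') y := by
  obtain ⟨w, hw, h1⟩ := Ex_triv k (S := Unit) q (hmap k (1 : S →* Unit) y) (hmap_mem k _ hy)
    (by rw [← hmap_dV, hz, map_zero])
  refine ⟨hmap k (1 : Unit →* S') w, hmap_mem k _ hw, ?_⟩
  rw [← hmap_dV, h1, hmap_hmap]
  rfl

/-- the diagonal in lowest degree -/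
lemma diag_low {S : Type*} [Group S] (n : ℕ) (hex : ∀ q ≤ n, Ex k S q)
    {z : Orb S (PUnit.{1} × List S) →₀ k} (hz : z ∈ SP k S (LS S (n + 1))) (hc : dV k z = 0) :
    ∃ w ∈ SP k (S × S) (LS (S × S) (n + 2)), dV k w =
      hmap k ((MonoidHom.id S).prod (MonoidHom.id S)) z - hmap k (MonoidHom.inl S S) z
        - hmap k (MonoidHom.inr S S) z := by
  set Δ := (MonoidHom.id S).prod (MonoidHom.id S) with hΔ
  set u := hmap k Δ z - hmap k (MonoidHom.inl S S) z - hmap k (MonoidHom.inr S S) z with hu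
  have hum : u ∈ SP k (S × S) (LS (S × S) (n + 1)) :=
    Submodule.sub_mem _ (Submodule.sub_mem _ (hmap_mem k _ hz) (hmap_mem k _ hz)) (hmap_mem k _ hz)
  have hu0 : dV k u = 0 := by
    rw [hu, map_sub, map_sub, ← hmap_dV, ← hmap_dV, ← hmap_dV, hc]
    simp
  have e1 : (MonoidHom.fst S S).comp Δ = MonoidHom.id S := by ext; rfl
  have e2 : (MonoidHom.fst S S).comp (MonoidHom.inl S S) = MonoidHom.id S := by ext; rfl
  have e3 : (MonoidHom.fst S S).comp (MonoidHom.inr S S) = 1 := by ext; rfl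
  have e4 : (MonoidHom.snd S S).comp Δ = MonoidHom.id S := by ext; rfl
  have e5 : (MonoidHom.snd S S).comp (MonoidHom.inl S S) = 1 := by ext; rfl
  have e6 : (MonoidHom.snd S S).comp (MonoidHom.inr S S) = MonoidHom.id S := by ext; rfl
  obtain ⟨t, ht, h1⟩ := triv_bd k (S' := S) hz hc
  obtain ⟨v, hv, hv0, w, hw, hdec⟩ := kun' k (MonoidHom.fst S S) (MonoidHom.inl S S)
    (MonoidHom.inr S S) (fun r => rfl) (fun a b h => (Prod.ext_iff.1 h).2)
    (fun g => ⟨fun h => ⟨g.2, Prod.ext h.symm rfl⟩, fun ⟨a, ha⟩ => by rw [← ha]; rfl⟩)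
    n hex u hum hu0 ⟨-t, Submodule.neg_mem _ ht, by
      rw [map_neg, h1, hu, map_sub, map_sub, hmap_hmap, hmap_hmap, hmap_hmap, e1, e2, e3, hmap_id]
      abel⟩
  have h2 : hmap k (MonoidHom.snd S S) u = v + dV k (hmap k (MonoidHom.snd S S) w) := by
    rw [hdec, map_add, hmap_hmap, e6, hmap_id, hmap_dV]
  have h3 : hmap k (MonoidHom.snd S S) u = - dV k t := by
    rw [h1, hu, map_sub, map_sub, hmap_hmap, hmap_hmap, hmap_hmap, e4, e5, e6, hmap_id]
    abel
  have h4 : v = dV k (-t - hmap k (MonoidHom.snd S S) w) := by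
    rw [map_sub, map_neg, ← h3, h2]
    abel
  refine ⟨hmap k (MonoidHom.inr S S) (-t - hmap k (MonoidHom.snd S S) w) + w,
    Submodule.add_mem _ (hmap_mem k _ (Submodule.sub_mem _ (Submodule.neg_mem _ ht)
      (hmap_mem k _ hw))) hw, ?_⟩
  rw [map_add, ← hmap_dV, ← h4, ← hdec]

/-- the mitosis argument -/
lemma mitosis {C G : Type*} [Group C] [Group G] (n : ℕ) (hex : ∀ q ≤ n, Ex k C q)
    (j ψ : C →* G) (hcomm : ∀ a b, j a * ψ b = ψ b * j a) (c : G)
    (hc : ∀ f, j f * ψ f = c * ψ f * c⁻¹)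
    {z : Orb C (PUnit.{1} × List C) →₀ k} (hz : z ∈ SP k C (LS C (n + 1))) (hz0 : dV k z = 0) :
    ∃ w ∈ SP k G (LS G (n + 2)), dV k w = hmap k j z := by
  let m : C × C →* G := MonoidHom.noncommCoprod j ψ (fun a b => hcomm a b)
  let δ : C →* G := m.comp ((MonoidHom.id C).prod (MonoidHom.id C))
  obtain ⟨w, hw, h1⟩ := diag_low k n hex hz hz0
  obtain ⟨w', hw', h2⟩ := conj_inv k ψ δ c (fun s => by
    show j s * ψ s = _
    exact hc s) hz hz0
  have e1 : m.comp (MonoidHom.inl C C) = j := by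
    ext x
    show j x * ψ 1 = j x
    simp
  have e2 : m.comp (MonoidHom.inr C C) = ψ := by
    ext x
    show j 1 * ψ x = ψ x
    simp
  refine ⟨w' - hmap k m w, Submodule.sub_mem _ hw' (hmap_mem k _ hw), ?_⟩
  rw [map_sub, ← hmap_dV, h1, h2, map_sub, map_sub, hmap_hmap, hmap_hmap, hmap_hmap, e1, e2]
  show hmap k δ z - hmap k ψ z - (hmap k δ z - hmap k j z - hmap k ψ z) = hmap k j z
  abel

end

end Run7.h798
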