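import Pool.Agent.Run7.h798.Comb

/-!
Mitosis in gluing groups.
-/

namespace Run7.h798

section slices

variable {X : Type*}

open Classical in
/-- act on the slices in `N` -/
noncomputable def slice (N : Set ℤ) : Equiv.Perm X →* Equiv.Perm (X × ℤ) where
  toFun f :=
    { toFun := fun p => (if p.2 ∈ N then f p.1 else p.1, p.2)
      invFun := fun p => (if p.2 ∈ N then f.symm p.1 else p.1, p.2)
      left_inv := fun p => by
        obtain ⟨x, n⟩ := p
        by_cases hn : n ∈ N <;> simp [hn]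
      right_inv := fun p => by
        obtain ⟨x, n⟩ := p
        by_cases hn : n ∈ N <;> simp [hn] }
  map_one' := by
    ext p <;> simp
  map_mul' f g := by
    apply Equiv.ext
    rintro ⟨x, n⟩
    by_cases hn : n ∈ N <;> simp [hn]

lemma slice_apply (N : Set ℤ) (f : Equiv.Perm X) (x : X) {n : ℤ} (hn : n ∈ N) :
    slice N f (x, n) = (f x, n) := by
  simp [slice, hn]

lemma slice_apply' (N : Set ℤ) (f : Equiv.Perm X) (x : X) {n : ℤ} (hn : n ∉ N) :
    slice N f (x, n) = (x, n) := by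
  simp [slice, hn]

/-- the shift -/
def shf (X : Type*) : Equiv.Perm (X × ℤ) where
  toFun p := (p.1, p.2 - 1)
  invFun p := (p.1, p.2 + 1)
  left_inv p := by simp
  right_inv p := by simp

lemma slice_comm (a b : Equiv.Perm X) :
    slice {0} a * slice {n | 1 ≤ n} b = slice {n | 1 ≤ n} b * slice {0} a := by
  apply Equiv.ext
  rintro ⟨x, n⟩
  rw [Equiv.Perm.mul_apply, Equiv.Perm.mul_apply]
  by_cases h0 : n ∈ ({0} : Set ℤ)
  · have h1 : n ∉ {n : ℤ | 1 ≤ n} := by
      have : n = 0 := h0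
      simp [this]
    rw [slice_apply' _ _ _ h1, slice_apply _ _ _ h0, slice_apply' _ _ _ h1]
  · rw [slice_apply' _ _ _ h0]
    by_cases h1 : n ∈ {n : ℤ | 1 ≤ n}
    · rw [slice_apply _ _ _ h1, slice_apply' _ _ _ h0]
    · rw [slice_apply' _ _ _ h1, slice_apply' _ _ _ h0]

lemma slice_shift (a : Equiv.Perm X) :
    slice {0} a * slice {n | 1 ≤ n} a = shf X * slice {n | 1 ≤ n} a * (shf X)⁻¹ := by
  rw [eq_mul_inv_iff_mul_eq]
  apply Equiv.ext
  rintro ⟨x, n⟩
  simp only [Equiv.Perm.mul_apply]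
  have hs : ∀ y : X, ∀ m : ℤ, shf X (y, m) = (y, m - 1) := fun _ _ => rfl
  rw [hs]
  by_cases h1 : n ∈ {n : ℤ | 1 ≤ n}
  · rw [slice_apply _ _ _ h1, hs]
    have h1' : (1 : ℤ) ≤ n := h1
    by_cases h0 : n - 1 ∈ ({0} : Set ℤ)
    · have h2 : n - 1 ∉ {n : ℤ | 1 ≤ n} := by
        have : n - 1 = 0 := h0
        simp [this]
      rw [slice_apply' _ _ _ h2, slice_apply _ _ _ h0]
    · have h0' : n - 1 ≠ 0 := h0
      have h2 : n - 1 ∈ {n : ℤ | 1 ≤ n} := by
        show (1 : ℤ) ≤ n - 1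
        omega
      rw [slice_apply _ _ _ h2, slice_apply' _ _ _ h0]
  · rw [slice_apply' _ _ _ h1, hs]
    have h1' : ¬ (1 : ℤ) ≤ n := h1
    have h2 : n - 1 ∉ {n : ℤ | 1 ≤ n} := by
      show ¬ (1 : ℤ) ≤ n - 1
      omega
    have h0 : n - 1 ∉ ({0} : Set ℤ) := by
      show ¬ (n - 1 = 0)
      omega
    rw [slice_apply' _ _ _ h2, slice_apply' _ _ _ h0]

end slices

section

variable {S I : Type*} {π : S → I} (hπ : Function.Surjective π)
  {W : Subgroup (Equiv.Perm S)} (h : Glue π W)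

include h

/-- the decomposition of the active parts -/
lemma beta_exists [Countable I] {D : Set I} (hDa : D ⊆ Acv π W) (hD : Big hπ W D)
    (hDc : Big hπ W Dᶜ) :
    ∃ β : ({i // i ∈ Acv π W ∧ i ∉ D} × ℤ) ≃ {i // i ∈ Acv π W},
      (∀ p, ((β p : {i // i ∈ Acv π W}) : I) ∈ OO hπ W p.1) ∧
      (∀ c, ((β (c, 0) : {i // i ∈ Acv π W}) : I) = c) ∧
      (∀ p, p.2 ≠ 0 → ((β p : {i // i ∈ Acv π W}) : I) ∈ D) := by
  classical
  let C := {i // i ∈ Acv π W ∧ i ∉ D}
  let f : {p : C × ℤ // p.2 ≠ 0} → Quotient (orel hπ h) := fun p => Quotient.mk _ (p.1.1 : I)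
  let g : D → Quotient (orel hπ h) := fun x => Quotient.mk _ (x : I)
  have key : ∀ c, Nonempty ({x // f x = c} ≃ {y : D // g y = c}) := by
    intro c
    obtain ⟨i, rfl⟩ : ∃ i, Quotient.mk (orel hπ h) i = c := Quotient.exists_rep c
    by_cases hi : i ∈ Acv π W
    · have hA : Infinite {x // f x = Quotient.mk (orel hπ h) i} := by
        have h1 := (hDc i hi).to_subtype
        refine Infinite.of_injective (fun x : (Dᶜ ∩ OO hπ W i : Set I) =>
          (⟨⟨(⟨x.1, acv_OO hπ h hi x.2.2, x.2.1⟩, 1), one_ne_zero⟩,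
            (Quotient.sound (s := orel hπ h) (a := i) (b := x.1) x.2.2).symm⟩ :
            {x // f x = Quotient.mk (orel hπ h) i})) ?_
        intro a b hab
        have h2 : (a : I) = b := congrArg
          (fun z : {x // f x = Quotient.mk (orel hπ h) i} => ((z.1.1.1 : C) : I)) hab
        exact Subtype.ext h2
      have hB : Infinite {y : D // g y = Quotient.mk (orel hπ h) i} := by
        have h1 := (hD i hi).to_subtype
        refine Infinite.of_injective (fun x : (D ∩ OO hπ W i : Set I) =>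
          (⟨⟨x.1, x.2.1⟩, (Quotient.sound (s := orel hπ h) (a := i) (b := x.1) x.2.2).symm⟩ :
            {x : D // g x = Quotient.mk (orel hπ h) i})) ?_
        intro a b hab
        simpa [Subtype.ext_iff] using hab
      exact nonempty_equiv_of_countable
    · have hmem : ∀ x, Quotient.mk (orel hπ h) x = Quotient.mk (orel hπ h) i → x ∉ Acv π W := by
        intro x hx hx'
        have h1 : i ∈ OO hπ W x := Quotient.exact hx
        exact hi (acv_OO hπ h hx' h1)
      exact ⟨{ toFun := fun x => absurd x.1.1.1.2.1 (hmem _ x.2)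
               invFun := fun y => absurd (hDa y.1.2) (hmem _ y.2)
               left_inv := fun x => absurd x.1.1.1.2.1 (hmem _ x.2)
               right_inv := fun y => absurd (hDa y.1.2) (hmem _ y.2) }⟩
  let e0 := fun c => Classical.choice (key c)
  let e : {p : C × ℤ // p.2 ≠ 0} ≃ D := Equiv.ofFiberEquiv e0
  have he : ∀ x, ((e x : D) : I) ∈ OO hπ W x.1.1 := by
    intro x
    have h1 : g (Equiv.ofFiberEquiv e0 x) = f x := Equiv.ofFiberEquiv_map e0 x
    exact Quotient.exact (s := orel hπ h) h1.symm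
  let b : C × ℤ → {i // i ∈ Acv π W} := fun p =>
    if hp : p.2 ≠ 0 then ⟨e ⟨p, hp⟩, hDa (e ⟨p, hp⟩).2⟩ else ⟨p.1, p.1.2.1⟩
  have hb1 : ∀ p (hp : p.2 ≠ 0), ((b p : {i // i ∈ Acv π W}) : I) = e ⟨p, hp⟩ := by
    intro p hp
    simp only [b]
    rw [dif_pos hp]
  have hb2 : ∀ p, ¬ p.2 ≠ 0 → ((b p : {i // i ∈ Acv π W}) : I) = p.1 := by
    intro p hp
    simp only [b]
    rw [dif_neg hp]
  have hbij : Function.Bijective b := by
    constructor
    · intro p q hpq
      have hpq' := congrArg Subtype.val hpq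
      by_cases hp : p.2 ≠ 0
      · by_cases hq : q.2 ≠ 0
        · rw [hb1 p hp, hb1 q hq] at hpq'
          have := e.injective (Subtype.ext hpq')
          exact congrArg Subtype.val this
        · rw [hb1 p hp, hb2 q hq] at hpq'
          exact absurd (hpq' ▸ (e ⟨p, hp⟩).2) q.1.2.2
      · by_cases hq : q.2 ≠ 0
        · rw [hb2 p hp, hb1 q hq] at hpq'
          exact absurd (hpq' ▸ (e ⟨q, hq⟩).2) p.1.2.2
        · rw [hb2 p hp, hb2 q hq] at hpq'
          have h1 : p.1 = q.1 := Subtype.ext hpq'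
          have h2 : p.2 = q.2 := by
            have h3 : p.2 = 0 := not_not.1 hp
            have h4 : q.2 = 0 := not_not.1 hq
            rw [h3, h4]
          exact Prod.ext h1 h2
    · rintro ⟨i, hi⟩
      by_cases hiD : i ∈ D
      · refine ⟨(e.symm ⟨i, hiD⟩).1, Subtype.ext ?_⟩
        rw [hb1 _ (e.symm ⟨i, hiD⟩).2]
        simp
      · refine ⟨(⟨i, hi, hiD⟩, 0), Subtype.ext ?_⟩
        rw [hb2 _ (by simp)]
  refine ⟨Equiv.ofBijective b hbij, ?_, ?_, ?_⟩
  · intro p
    rw [Equiv.ofBijective_apply]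
    by_cases hp : p.2 ≠ 0
    · rw [hb1 p hp]
      exact he ⟨p, hp⟩
    · rw [hb2 p hp]
      exact OO_refl hπ h _
  · intro c
    rw [Equiv.ofBijective_apply, hb2 _ (by simp)]
  · intro p hp
    rw [Equiv.ofBijective_apply, hb1 p hp]
    exact (e ⟨p, hp⟩).2

/-- the data needed for mitosis -/
lemma mit_data [Countable I] {D : Set I} (hDa : D ⊆ Acv π W) (hD : Big hπ W D)
    (hDc : Big hπ W Dᶜ) :
    ∃ (ψ : (sup π W Dᶜ) →* W) (c : W),
      (∀ a b : sup π W Dᶜ, (Subgroup.inclusion (fun _ hw => hw.1 : sup π W Dᶜ ≤ W)) a * ψ b =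
        ψ b * (Subgroup.inclusion (fun _ hw => hw.1 : sup π W Dᶜ ≤ W)) a) ∧
      (∀ f : sup π W Dᶜ, (Subgroup.inclusion (fun _ hw => hw.1 : sup π W Dᶜ ≤ W)) f * ψ f =
        c * ψ f * c⁻¹) := by
  classical
  obtain ⟨β, hβ1, hβ2, hβ3⟩ := beta_exists hπ h hDa hD hDc
  have hlam : ∀ p : {i // i ∈ Acv π W ∧ i ∉ D} × ℤ, ∃ w ∈ W,
      act hπ w p.1 = β p ∧ (p.2 = 0 → w = 1) := by
    intro p
    by_cases hp : p.2 = 0
    · refine ⟨1, W.one_mem, ?_, fun _ => rfl⟩
      rw [act_one hπ h]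
      have h1 := hβ2 p.1
      rw [← hp] at h1
      exact h1.symm
    · obtain ⟨w, hw, h1⟩ := hβ1 p
      exact ⟨w, hw, h1, fun h => absurd h hp⟩
  choose lam hl1 hl2 hl3 using hlam
  let X := {s : S // π s ∈ Acv π W ∧ π s ∉ D}
  let T := {s : S // π s ∈ Acv π W}
  let pc : X → {i // i ∈ Acv π W ∧ i ∉ D} := fun x => ⟨π x.1, x.2⟩
  have hπl : ∀ (x : X) (n : ℤ), π (lam (pc x, n) x.1) = β (pc x, n) := by
    intro x n
    rw [← act_eq hπ h (hl1 _)]
    exact hl2 (pc x, n)
  have hπi : ∀ t : T, π ((lam (β.symm ⟨π t.1, t.2⟩))⁻¹ t.1) = (β.symm ⟨π t.1, t.2⟩).1 := by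
    intro t
    rw [← act_eq hπ h (W.inv_mem (hl1 _))]
    have h1 := hl2 (β.symm ⟨π t.1, t.2⟩)
    rw [Equiv.apply_symm_apply] at h1
    have h2 := act_inv_act hπ h (hl1 (β.symm ⟨π t.1, t.2⟩)) (β.symm ⟨π t.1, t.2⟩).1
    rw [h1] at h2
    exact h2
  let Θ : X × ℤ ≃ T :=
    { toFun := fun p => ⟨lam (pc p.1, p.2) p.1.1, by rw [hπl]; exact (β _).2⟩
      invFun := fun t => (⟨(lam (β.symm ⟨π t.1, t.2⟩))⁻¹ t.1, by
        rw [hπi t]; exact (β.symm ⟨π t.1, t.2⟩).1.2⟩, (β.symm ⟨π t.1, t.2⟩).2)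
      left_inv := by
        rintro ⟨x, n⟩
        have h1 : β.symm ⟨π (lam (pc x, n) x.1), by rw [hπl]; exact (β _).2⟩ = (pc x, n) := by
          rw [Equiv.symm_apply_eq]
          exact Subtype.ext (hπl x n)
        refine Prod.ext (Subtype.ext ?_) ?_
        · simp only [h1]
          simp
        · simp only [h1]
      right_inv := by
        intro t
        have h1 : ∀ hx, pc ⟨(lam (β.symm ⟨π t.1, t.2⟩))⁻¹ t.1, hx⟩ = (β.symm ⟨π t.1, t.2⟩).1 := by
          intro hx
          exact Subtype.ext (hπi t)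
        apply Subtype.ext
        simp only [h1]
        simp }
  let Φ : Equiv.Perm (X × ℤ) →* Equiv.Perm S :=
    (Equiv.Perm.ofSubtype (p := fun s => π s ∈ Acv π W)).comp (Θ.permCongrHom).toMonoidHom
  have hΦ1 : ∀ P s, π s ∉ Acv π W → Φ P s = s := by
    intro P s hs
    exact Equiv.Perm.ofSubtype_apply_of_not_mem _ hs
  have hΦ2 : ∀ P (t : T), Φ P t.1 = (Θ (P (Θ.symm t))).1 := by
    intro P t
    show (Equiv.Perm.ofSubtype (p := fun s => π s ∈ Acv π W) (Θ.permCongrHom P)) t.1 = _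
    exact Equiv.Perm.ofSubtype_apply_of_mem (p := fun s => π s ∈ Acv π W)
      (Θ.permCongrHom P) (a := t.1) t.2
  have hΦ3 : ∀ P x n, Φ P (Θ (x, n)).1 = (Θ (P (x, n))).1 := by
    intro P x n
    rw [hΦ2, Equiv.symm_apply_apply]
  -- restriction
  have hCD : ∀ f : sup π W Dᶜ, ∀ s, (π (f.1 s) ∈ Acv π W ∧ π (f.1 s) ∉ D) ↔
      (π s ∈ Acv π W ∧ π s ∉ D) := by
    have aux : ∀ f : sup π W Dᶜ, ∀ s, (π s ∈ Acv π W ∧ π s ∉ D) →
        (π (f.1 s) ∈ Acv π W ∧ π (f.1 s) ∉ D) := by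
      rintro f s ⟨h1, h2⟩
      refine ⟨?_, fun h3 => ?_⟩
      · rw [← act_eq hπ h f.2.1]
        exact acv_act hπ h f.2.1 h1
      · have h4 : f.1 (f.1 s) = f.1 s := f.2.2 _ (fun h5 => h5 h3)
        have h5 := f.1.injective h4
        rw [h5] at h3
        exact h2 h3
    intro f s
    refine ⟨fun h1 => ?_, aux f s⟩
    have := aux f⁻¹ (f.1 s) h1
    simpa using this
  let res : (sup π W Dᶜ) →* Equiv.Perm X :=
    { toFun := fun f => Equiv.Perm.subtypePerm f.1 (fun s => hCD f s)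
      map_one' := by ext; rfl
      map_mul' := fun f g => by ext; rfl }
  have hres : ∀ f x, ((res f x : X) : S) = f.1 x.1 := fun f x => rfl
  have hW : ∀ (N : Set ℤ) f, Φ (slice N (res f)) ∈ W := by
    intro N f
    refine h.glue _ (fun i => ?_)
    by_cases hi : i ∈ Acv π W
    · set p := β.symm ⟨i, hi⟩ with hp
      by_cases hn : p.2 ∈ N
      · have hmem : act hπ f.1 p.1 ∈ Acv π W ∧ act hπ f.1 p.1 ∉ D := by
          obtain ⟨s, hs⟩ := hπ p.1.1
          rw [← hs, act_eq hπ h f.2.1]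
          rw [hCD f s, hs]
          exact p.1.2
        refine ⟨lam (⟨act hπ f.1 p.1, hmem⟩, p.2) * f.1 * (lam p)⁻¹,
          W.mul_mem (W.mul_mem (hl1 _) f.2.1) (W.inv_mem (hl1 _)), ?_⟩
        rintro s rfl
        obtain ⟨⟨x, n⟩, hx⟩ := Θ.surjective ⟨s, hi⟩
        have hs : s = (Θ (x, n)).1 := by rw [hx]
        have hp' : p = (pc x, n) := by
          rw [hp, Equiv.symm_apply_eq]
          apply Subtype.ext
          show π s = _
          rw [hs]
          exact hπl x n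
        have hn' : n ∈ N := by rw [hp'] at hn; exact hn
        conv_lhs => rw [hs, hΦ3, slice_apply _ _ _ hn']
        simp only [Equiv.Perm.mul_apply]
        have e1 : (lam p)⁻¹ s = x.1 := by
          rw [hp', hs]
          show (lam (pc x, n))⁻¹ (lam (pc x, n) x.1) = x.1
          simp
        rw [e1]
        show lam (pc (res f x), n) (f.1 x.1) = _
        congr 2
        have e2 : pc (res f x) = ⟨act hπ f.1 p.1, hmem⟩ := by
          apply Subtype.ext
          show π (f.1 x.1) = act hπ f.1 p.1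
          rw [← act_eq hπ h f.2.1, hp']
        rw [e2]
        congr 1
        rw [hp']
      · refine ⟨1, W.one_mem, ?_⟩
        rintro s rfl
        obtain ⟨⟨x, n⟩, hx⟩ := Θ.surjective ⟨s, hi⟩
        have hs : s = (Θ (x, n)).1 := by rw [hx]
        have hp' : p = (pc x, n) := by
          rw [hp, Equiv.symm_apply_eq]
          apply Subtype.ext
          show π s = _
          rw [hs]
          exact hπl x n
        have hn' : n ∉ N := by rw [hp'] at hn; exact hn
        rw [hs, hΦ3, slice_apply' _ _ _ hn']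
        rfl
    · refine ⟨1, W.one_mem, ?_⟩
      rintro s rfl
      rw [hΦ1 _ _ hi]
      rfl
  have hWs : Φ (shf X) ∈ W := by
    refine h.glue _ (fun i => ?_)
    by_cases hi : i ∈ Acv π W
    · set p := β.symm ⟨i, hi⟩ with hp
      refine ⟨lam (p.1, p.2 - 1) * (lam p)⁻¹, W.mul_mem (hl1 _) (W.inv_mem (hl1 _)), ?_⟩
      rintro s rfl
      obtain ⟨⟨x, n⟩, hx⟩ := Θ.surjective ⟨s, hi⟩
      have hs : s = (Θ (x, n)).1 := by rw [hx]
      have hp' : p = (pc x, n) := by
        rw [hp, Equiv.symm_apply_eq]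
        apply Subtype.ext
        show π s = _
        rw [hs]
        exact hπl x n
      conv_lhs => rw [hs, hΦ3]
      simp only [Equiv.Perm.mul_apply]
      have e1 : (lam p)⁻¹ s = x.1 := by
        rw [hp', hs]
        show (lam (pc x, n))⁻¹ (lam (pc x, n) x.1) = x.1
        simp
      rw [e1, hp']
      rfl
    · refine ⟨1, W.one_mem, ?_⟩
      rintro s rfl
      rw [hΦ1 _ _ hi]
      rfl
  have hincl : ∀ f : sup π W Dᶜ, Φ (slice {0} (res f)) = f.1 := by
    intro f
    apply Equiv.ext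
    intro s
    by_cases hs : π s ∈ Acv π W
    · obtain ⟨⟨x, n⟩, hx⟩ := Θ.surjective ⟨s, hs⟩
      have hs' : s = (Θ (x, n)).1 := by rw [hx]
      by_cases hn : n ∈ ({0} : Set ℤ)
      · rw [hs', hΦ3, slice_apply _ _ _ hn]
        have hn0 : n = 0 := hn
        subst hn0
        show lam (pc (res f x), 0) (f.1 x.1) = f.1 (lam (pc x, 0) x.1)
        rw [hl3 _ rfl, hl3 _ rfl]
        rfl
      · rw [hs', hΦ3, slice_apply' _ _ _ hn]
        have h1 : π (Θ (x, n)).1 ∈ D := by
          show π (lam (pc x, n) x.1) ∈ D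
          rw [hπl]
          exact hβ3 _ (fun h0 => hn h0)
        exact (f.2.2 _ (fun h5 => h5 h1)).symm
    · rw [hΦ1 _ _ hs]
      exact (fix_of_nacv hs f.2.1).symm
  refine ⟨{ toFun := fun f => ⟨Φ (slice {n | 1 ≤ n} (res f)), hW _ f⟩
            map_one' := by apply Subtype.ext; simp
            map_mul' := fun f g => by apply Subtype.ext; simp },
          ⟨Φ (shf X), hWs⟩, ?_, ?_⟩
  · intro a b
    apply Subtype.ext
    show a.1 * Φ (slice {n | 1 ≤ n} (res b)) = Φ (slice {n | 1 ≤ n} (res b)) * a.1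
    rw [← hincl a, ← map_mul, ← map_mul, slice_comm]
  · intro f
    apply Subtype.ext
    show f.1 * Φ (slice {n | 1 ≤ n} (res f)) =
      Φ (shf X) * Φ (slice {n | 1 ≤ n} (res f)) * (Φ (shf X))⁻¹
    rw [← map_mul, ← map_inv, ← map_mul, ← slice_shift, map_mul, hincl f]

end

end Run7.h798
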