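import Pool.Agent.Run7.h798.ListCx

/-!
Complexes of orbits of lists.
-/

namespace Run7.h798

open Finsupp

/-- diagonal action on lists -/
instance listAct (G Z : Type*) [Group G] [MulAction G Z] : MulAction G (List Z) where
  smul g l := l.map (fun z => g • z)
  one_smul l := by
    show l.map (fun z => (1 : G) • z) = l
    simp
  mul_smul g h l := by
    show l.map (fun z => (g * h) • z) = (l.map (fun z => h • z)).map (fun z => g • z)
    simp [mul_smul]

lemma smul_list_def {G Z : Type*} [Group G] [MulAction G Z] (g : G) (l : List Z) :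
    g • l = l.map (fun z => g • z) := rfl

@[simp] lemma smul_list_nil {G Z : Type*} [Group G] [MulAction G Z] (g : G) :
    g • ([] : List Z) = [] := rfl

@[simp] lemma smul_list_cons {G Z : Type*} [Group G] [MulAction G Z] (g : G) (z : Z) (l : List Z) :
    g • (z :: l) = (g • z) :: (g • l) := rfl

@[simp] lemma smul_list_length {G Z : Type*} [Group G] [MulAction G Z] (g : G) (l : List Z) :
    (g • l).length = l.length := by
  simp [smul_list_def]

/-- orbit type -/
abbrev Orb (G Y : Type*) [Group G] [MulAction G Y] : Type _ := MulAction.orbitRel.Quotient G Y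

/-- class of an element -/
def cls (G : Type*) {Y : Type*} [Group G] [MulAction G Y] (y : Y) : Orb G Y :=
  Quotient.mk (MulAction.orbitRel G Y) y

lemma cls_eq_iff {G Y : Type*} [Group G] [MulAction G Y] {y y' : Y} :
    cls G y = cls G y' ↔ ∃ g : G, g • y' = y := by
  unfold cls
  rw [Quotient.eq]
  exact MulAction.orbitRel_apply

@[simp] lemma cls_smul {G Y : Type*} [Group G] [MulAction G Y] (g : G) (y : Y) :
    cls G (g • y) = cls G y := cls_eq_iff.2 ⟨g, rfl⟩

section

variable (k : Type*) [CommRing k] (G G' G'' : Type*) [Group G] [Group G'] [Group G'']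
  {Y Y' Y'' : Type*} [MulAction G Y] [MulAction G' Y'] [MulAction G'' Y'']

/-- projection to chains of orbits -/
noncomputable def qm : (Y →₀ k) →ₗ[k] (Orb G Y →₀ k) := Finsupp.lmapDomain k k (cls G)

@[simp] lemma qm_single (y : Y) (c : k) : qm k G (single y c) = single (cls G y) c := by
  simp [qm]

lemma qm_surj (q : Orb G Y →₀ k) : ∃ v : Y →₀ k, qm k G v = q :=
  Finsupp.mapDomain_surjective (f := cls G) (fun q => Quotient.exists_rep q) q

/-- translation -/
noncomputable def trl {G : Type*} [Group G] {Y : Type*} [MulAction G Y] (g : G) :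
    (Y →₀ k) →ₗ[k] (Y →₀ k) := Finsupp.lmapDomain k k (fun y => g • y)

@[simp] lemma trl_single {G : Type*} [Group G] {Y : Type*} [MulAction G Y] (g : G) (y : Y) (c : k) :
    trl k g (single y c) = single (g • y) c := by
  simp [trl]

lemma qm_trl (g : G) (v : Y →₀ k) : qm k G (trl k g v) = qm k G v := by
  have : (qm k G) ∘ₗ (trl k g) = qm k G (Y := Y) := by
    apply Finsupp.lhom_ext'
    intro y
    apply LinearMap.ext_ring
    simp
  simpa using congrArg (fun f => f v) this

variable {G G' G''}

/-- descend an operator to chains of orbits -/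
noncomputable def desc (T : (Y →₀ k) →ₗ[k] (Y' →₀ k))
    (hT : ∀ (g : G) (y : Y), qm k G' (T (single (g • y) 1)) = qm k G' (T (single y 1))) :
    (Orb G Y →₀ k) →ₗ[k] (Orb G' Y' →₀ k) :=
  Finsupp.linearCombination k (fun q : Orb G Y => Quotient.liftOn q
    (fun y => qm k G' (T (single y 1))) (fun y y' h => by
      obtain ⟨g, rfl⟩ := (MulAction.orbitRel_apply.1 h)
      exact hT g y'))

lemma desc_mk (T : (Y →₀ k) →ₗ[k] (Y' →₀ k))
    (hT : ∀ (g : G) (y : Y), qm k G' (T (single (g • y) 1)) = qm k G' (T (single y 1)))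
    (v : Y →₀ k) : desc k T hT (qm k G v) = qm k G' (T v) := by
  have : (desc k T hT) ∘ₗ (qm k G) = (qm k G') ∘ₗ T := by
    apply Finsupp.lhom_ext'
    intro y
    apply LinearMap.ext_ring
    simp only [LinearMap.coe_comp, Function.comp_apply, lsingle_apply, qm_single, desc,
      Finsupp.linearCombination_single, one_smul]
    rfl
  simpa using congrArg (fun f => f v) this

/-- chains of orbits supported on a set -/
noncomputable def SP (G : Type*) [Group G] {Y : Type*} [MulAction G Y] (P : Set Y) :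
    Submodule k (Orb G Y →₀ k) := (supported k k P).map (qm k G)

lemma mem_SP {P : Set Y} {y : Orb G Y →₀ k} :
    y ∈ SP k G P ↔ ∃ v ∈ supported k k P, qm k G v = y := by
  simp [SP]

lemma qm_mem_SP {P : Set Y} {v : Y →₀ k} (hv : v ∈ supported k k P) : qm k G v ∈ SP k G P :=
  ⟨v, hv, rfl⟩

lemma desc_mem (T : (Y →₀ k) →ₗ[k] (Y' →₀ k))
    (hT : ∀ (g : G) (y : Y), qm k G' (T (single (g • y) 1)) = qm k G' (T (single y 1)))
    {P : Set Y} {P' : Set Y'} (h : ∀ y ∈ P, T (single y 1) ∈ supported k k P')
    {y : Orb G Y →₀ k} (hy : y ∈ SP k G P) : desc k T hT y ∈ SP k G' P' := by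
  obtain ⟨v, hv, rfl⟩ := (mem_SP k).1 hy
  rw [desc_mk]
  refine qm_mem_SP k ?_
  have h1 : T v = Finsupp.linearCombination k (fun y => T (single y 1)) v := by
    have : T = Finsupp.linearCombination k (fun y => T (single y 1)) := by
      apply Finsupp.lhom_ext'
      intro y
      apply LinearMap.ext_ring
      simp
    exact congrArg (fun f => f v) this
  rw [h1]
  exact lin_mem k _ h hv

end

section Complex

variable (k : Type*) [CommRing k] {G G' G'' : Type*} [Group G] [Group G'] [Group G'']
  {A A' A'' Z Z' Z'' F : Type*} [MulAction G A] [MulAction G' A'] [MulAction G'' A'']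
  [MulAction G Z] [MulAction G' Z'] [MulAction G'' Z''] [MulAction G F]

lemma trl_vt (g : G) (x : A) (v : List Z →₀ k) :
    trl k g (vt k x v) = vt k (g • x) (lmp k (fun z => g • z) v) := by
  have : (trl k g) ∘ₗ (vt k x) = (vt k (g • x)) ∘ₗ (lmp k (fun z : Z => g • z)) := by
    apply Finsupp.lhom_ext'
    intro y
    apply LinearMap.ext_ring
    simp only [LinearMap.coe_comp, Function.comp_apply, lsingle_apply, vt_single, trl_single,
      lmp_single]
    rfl
  simpa using congrArg (fun f => f v) this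

/-- criterion for descending a vertical operator -/
lemma vop_inv (f : A → A') (O : A → (List Z →₀ k) →ₗ[k] (List Z' →₀ k)) (φ : G → A → G')
    (hf : ∀ g x, f (g • x) = φ g x • f x)
    (hO : ∀ g x l, O (g • x) (single (g • l) 1) = lmp k (fun z => φ g x • z) (O x (single l 1)))
    (g : G) (y : A × List Z) :
    qm k G' (vop k f O (single (g • y) 1)) = qm k G' (vop k f O (single y 1)) := by
  obtain ⟨x, l⟩ := y
  have h1 : g • (x, l) = (g • x, g • l) := rfl
  rw [h1, ← vt_single, ← vt_single, vop_vt, vop_vt, hf, hO, ← trl_vt, qm_trl]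

lemma bV_inv (g : G) (y : A × List Z) :
    qm k G (bV k (single (g • y) 1)) = qm k G (bV k (single y 1)) := by
  refine vop_inv k id (fun _ => bd k) (fun g _ => g) (fun _ _ => rfl) ?_ g y
  intro g x l
  simp only [bd_single, one_smul]
  rw [lmp_bdL]
  rfl

/-- the vertical boundary on chains of orbits -/
noncomputable def dV : (Orb G (A × List Z) →₀ k) →ₗ[k] (Orb G (A × List Z) →₀ k) :=
  desc k (bV k) (bV_inv k)

lemma dV_mk (v : A × List Z →₀ k) : dV k (qm k G v) = qm k G (bV k v) := desc_mk _ _ _ _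

lemma dV_dV (y : Orb G (A × List Z) →₀ k) : dV k (dV k y) = 0 := by
  obtain ⟨v, rfl⟩ := qm_surj k G y
  rw [dV_mk, dV_mk, bV_bV, map_zero]

lemma bH_inv {B : Type*} [MulAction G B] (g : G) (y : List F × B) :
    qm k G (bH k (single (g • y) 1)) = qm k G (bH k (single y 1)) := by
  obtain ⟨x, b⟩ := y
  have h1 : g • (x, b) = (g • x, g • b) := rfl
  rw [h1, ← tt_single_single, ← tt_single_single, bH_tt, bH_tt, bd_single, bd_single, one_smul,
    one_smul]
  have h2 : bdL k (g • x) = lmp k (fun z => g • z) (bdL k x) := by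
    rw [lmp_bdL]; rfl
  rw [h2]
  have h3 : ∀ v : List F →₀ k, tt k (single (g • b) 1) (lmp k (fun z : F => g • z) v) =
      trl k g (tt k (single b 1) v) := by
    intro v
    have : (tt k (single (g • b) 1)) ∘ₗ (lmp k (fun z : F => g • z)) =
      (trl k g) ∘ₗ (tt k (single b 1)) := by
      apply Finsupp.lhom_ext'
      intro y
      apply LinearMap.ext_ring
      simp only [LinearMap.coe_comp, Function.comp_apply, lsingle_apply,
        lmp_single, tt_single_single, trl_single]
      rfl
    simpa using congrArg (fun f => f v) this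
  rw [h3, qm_trl]

/-- the horizontal boundary on chains of orbits -/
noncomputable def dH {B : Type*} [MulAction G B] :
    (Orb G (List F × B) →₀ k) →ₗ[k] (Orb G (List F × B) →₀ k) :=
  desc k (bH k) (bH_inv k)

lemma dH_mk {B : Type*} [MulAction G B] (v : List F × B →₀ k) :
    dH k (qm k G v) = qm k G (bH k v) := desc_mk _ _ _ _

lemma dH_dH {B : Type*} [MulAction G B] (y : Orb G (List F × B) →₀ k) :
    dH k (dH k y) = 0 := by
  obtain ⟨v, rfl⟩ := qm_surj k G y
  rw [dH_mk, dH_mk, bH_bH, map_zero]

lemma dH_dV (y : Orb G (List F × List Z) →₀ k) : dH k (dV k y) = dV k (dH k y) := by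
  obtain ⟨v, rfl⟩ := qm_surj k G y
  rw [dH_mk, dV_mk, dH_mk, dV_mk, bH_bV]

/-- Data for an induced chain map -/
structure EqMap (G G' : Type*) [Group G] [Group G'] (A A' Z Z' : Type*)
    [MulAction G A] [MulAction G' A'] [MulAction G Z] [MulAction G' Z'] where
  /-- the map on coefficients -/
  f : A → A'
  /-- the map on vertices -/
  a : A → Z → Z'
  /-- the comparison of groups -/
  φ : G → A → G'
  hf : ∀ g x, f (g • x) = φ g x • f x
  ha : ∀ g x z, a (g • x) (g • z) = φ g x • a x z

lemma EqMap.inv (e : EqMap G G' A A' Z Z') (g : G) (y : A × List Z) :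
    qm k G' (vop k e.f (fun x => lmp k (e.a x)) (single (g • y) 1)) =
      qm k G' (vop k e.f (fun x => lmp k (e.a x)) (single y 1)) := by
  refine vop_inv k e.f _ e.φ e.hf ?_ g y
  intro g x l
  simp only [lmp_single, List.map_map, smul_list_def]
  congr 1
  apply List.map_congr_left
  intro z _
  exact e.ha g x z

/-- the induced chain map -/
noncomputable def EqMap.map (e : EqMap G G' A A' Z Z') :
    (Orb G (A × List Z) →₀ k) →ₗ[k] (Orb G' (A' × List Z') →₀ k) :=
  desc k (vop k e.f (fun x => lmp k (e.a x))) (e.inv k)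

lemma EqMap.map_mk (e : EqMap G G' A A' Z Z') (v : A × List Z →₀ k) :
    e.map k (qm k G v) = qm k G' (vop k e.f (fun x => lmp k (e.a x)) v) := desc_mk _ _ _ _

lemma EqMap.map_single (e : EqMap G G' A A' Z Z') (x : A) (l : List Z) :
    e.map k (single (cls G (x, l)) 1) = single (cls G' (e.f x, l.map (e.a x))) 1 := by
  rw [← qm_single, EqMap.map_mk, ← vt_single, vop_vt, lmp_single, vt_single, qm_single]

lemma EqMap.map_dV (e : EqMap G G' A A' Z Z') (y : Orb G (A × List Z) →₀ k) :
    e.map k (dV k y) = dV k (e.map k y) := by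
  obtain ⟨v, rfl⟩ := qm_surj k G y
  rw [dV_mk, EqMap.map_mk, EqMap.map_mk, dV_mk]
  congr 1
  unfold bV
  rw [vop_vop, vop_vop]
  congr 2
  funext x
  apply LinearMap.ext
  intro w
  simp [lmp_bd]

/-- the prism homotopy -/
lemma prism (e e' : EqMap G G' A A' Z Z') (hf : e.f = e'.f) (hφ : e.φ = e'.φ) :
    ∃ P : (Orb G (A × List Z) →₀ k) →ₗ[k] (Orb G' (A' × List Z') →₀ k),
      (∀ y, dV k (P y) + P (dV k y) = e'.map k y - e.map k y) ∧
      (∀ (T : Set A) (T' : Set A') (n : ℕ) (_ : ∀ x ∈ T, e.f x ∈ T') y,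
        y ∈ SP k G {p : A × List Z | p.1 ∈ T ∧ p.2.length = n} →
        P y ∈ SP k G' {p : A' × List Z' | p.1 ∈ T' ∧ p.2.length = n + 1}) := by
  have hinv : ∀ (g : G) (y : A × List Z),
      qm k G' (vop k e.f (fun x => pr k (e.a x) (e'.a x)) (single (g • y) 1)) =
      qm k G' (vop k e.f (fun x => pr k (e.a x) (e'.a x)) (single y 1)) := by
    refine vop_inv k e.f _ e.φ e.hf ?_
    intro g x l
    simp only [pr_single, one_smul, smul_list_def]
    rw [lmp_prL, prL_map]
    congr 1
    · funext z; exact e.ha g x z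
    · funext z; rw [hφ]; exact e'.ha g x z
  refine ⟨desc k (vop k e.f (fun x => pr k (e.a x) (e'.a x))) hinv, ?_, ?_⟩
  · intro y
    obtain ⟨v, rfl⟩ := qm_surj k G y
    rw [dV_mk, desc_mk, desc_mk, dV_mk, EqMap.map_mk, EqMap.map_mk, ← map_sub, ← map_add]
    congr 1
    unfold bV
    have : (vop k id (fun _ => bd k)) ∘ₗ (vop k e.f (fun x => pr k (e.a x) (e'.a x))) +
        (vop k e.f (fun x => pr k (e.a x) (e'.a x))) ∘ₗ (vop k id (fun _ => bd k)) =
        vop k e'.f (fun x => lmp k (e'.a x)) - vop k e.f (fun x => lmp k (e.a x)) := by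
      apply hom_ext_vt
      intro x w
      simp only [LinearMap.add_apply, LinearMap.comp_apply, vop_vt, id, LinearMap.sub_apply, ← hf]
      rw [← map_add, ← map_sub, bd_pr]
    simpa using congrArg (fun f => f v) this
  · intro T T' n hT y hy
    refine desc_mem k _ _ ?_ hy
    rintro ⟨x, l⟩ ⟨hx, hl⟩
    rw [← vt_single, vop_vt, pr_single, one_smul]
    refine lmap_mem k _ ?_ (prL_mem k _ _ hl)
    intro l' hl'
    exact ⟨hT x hx, hl'⟩

end Complex

end Run7.h798
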