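import Mathlib

/-!
Piecewise linear manifolds and the simplicial group of piecewise linear homeomorphisms.
-/

namespace Run7.h798

open Topology CategoryTheory Simplicial

/-- The local model of dimension `d`: the points of `ℝ^d` whose coordinate of index zero is
nonnegative (for `d = 0` there is no condition). -/
def HSp (d : ℕ) : Type := {x : Fin d → ℝ // ∀ i : Fin d, (i : ℕ) = 0 → 0 ≤ x i}

/-- The topology of the local model, induced from `ℝ^d`. -/
instance instTopHSp (d : ℕ) : TopologicalSpace (HSp d) :=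
  TopologicalSpace.induced (fun x => x.1) inferInstance

/-- Piecewise linear maps between subsets of the local model: continuous maps which near each
point choose their values among the values of finitely many affine maps. -/
def PLOn {d : ℕ} (f : HSp d → HSp d) (s : Set (HSp d)) : Prop :=
  ContinuousOn f s ∧ ∀ x ∈ s, ∃ A : Set ((Fin d → ℝ) →ᵃ[ℝ] (Fin d → ℝ)), A.Finite ∧
    ∀ᶠ y in 𝓝[s] x, ∃ a ∈ A, (f y).1 = a y.1

lemma PLOn.comp {d : ℕ} {f g : HSp d → HSp d} {u v : Set (HSp d)} (hf : PLOn f u)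
    (hg : PLOn g v) : PLOn (g ∘ f) (u ∩ f ⁻¹' v) := by
  refine ⟨?_, ?_⟩
  · exact hg.1.comp (hf.1.mono Set.inter_subset_left) (fun x hx => hx.2)
  · intro x hx
    obtain ⟨A, hA, h1⟩ := hf.2 x hx.1
    obtain ⟨B, hB, h2⟩ := hg.2 (f x) hx.2
    refine ⟨Set.image2 (fun b a => b.comp a) B A, hB.image2 _ hA, ?_⟩
    have h3 : ∀ᶠ y in 𝓝[u ∩ f ⁻¹' v] x, ∃ a ∈ A, (f y).1 = a y.1 :=
      h1.filter_mono (nhdsWithin_mono _ Set.inter_subset_left)
    have h4 : Filter.Tendsto f (𝓝[u ∩ f ⁻¹' v] x) (𝓝[v] (f x)) := by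
      apply tendsto_nhdsWithin_of_tendsto_nhds_of_eventually_within
      · exact (hf.1 x hx.1).mono_left (nhdsWithin_mono _ Set.inter_subset_left)
      · filter_upwards [self_mem_nhdsWithin] with y hy using hy.2
    filter_upwards [h3, h4.eventually h2] with y hy1 hy2
    obtain ⟨a, ha, e1⟩ := hy1
    obtain ⟨b, hb, e2⟩ := hy2
    refine ⟨b.comp a, Set.mem_image2_of_mem hb ha, ?_⟩
    rw [AffineMap.comp_apply, ← e1]
    exact e2

lemma PLOn.id {d : ℕ} : PLOn (id : HSp d → HSp d) Set.univ :=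
  ⟨continuousOn_id, fun _ _ => ⟨{AffineMap.id ℝ _}, Set.finite_singleton _,
    Filter.Eventually.of_forall fun _ => ⟨_, rfl, rfl⟩⟩⟩

lemma PLOn.local {d : ℕ} {f : HSp d → HSp d} {u : Set (HSp d)}
    (h : ∀ x ∈ u, ∃ v, IsOpen v ∧ x ∈ v ∧ PLOn f (u ∩ v)) : PLOn f u := by
  refine ⟨?_, ?_⟩
  · intro x hx
    obtain ⟨v, hv, hxv, hp⟩ := h x hx
    exact (hp.1 x ⟨hx, hxv⟩).mono_of_mem_nhdsWithin
      (inter_mem_nhdsWithin u (hv.mem_nhds hxv))
  · intro x hx
    obtain ⟨v, hv, hxv, hp⟩ := h x hx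
    obtain ⟨A, hA, h1⟩ := hp.2 x ⟨hx, hxv⟩
    refine ⟨A, hA, ?_⟩
    rwa [nhdsWithin_inter_of_mem' (mem_nhdsWithin_of_mem_nhds (hv.mem_nhds hxv))] at h1

lemma PLOn.congr {d : ℕ} {f g : HSp d → HSp d} {u : Set (HSp d)} (hfg : ∀ x ∈ u, g x = f x)
    (hf : PLOn f u) : PLOn g u := by
  refine ⟨hf.1.congr hfg, ?_⟩
  intro x hx
  obtain ⟨A, hA, h1⟩ := hf.2 x hx
  refine ⟨A, hA, ?_⟩
  filter_upwards [h1, self_mem_nhdsWithin] with y hy hyu
  rw [hfg y hyu]
  exact hy

/-- The pregroupoid of piecewise linear maps. -/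
def plPregroupoid (d : ℕ) : Pregroupoid (HSp d) where
  property := PLOn
  comp hf hg _ _ _ := PLOn.comp hf hg
  id_mem := PLOn.id
  locality _ h := PLOn.local h
  congr _ hfg hf := PLOn.congr hfg hf

/-- The structure groupoid of piecewise linear changes of coordinates.  A piecewise linear
manifold of dimension `d`, possibly with boundary, is a charted space on `HSp d` with this
structure groupoid. -/
def plGroupoid (d : ℕ) : StructureGroupoid (HSp d) := (plPregroupoid d).groupoid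

/-- The standard simplex of dimension `n`. -/
def Spx (n : ℕ) : Type := stdSimplex ℝ (Fin (n + 1))

/-- The topology of the standard simplex, induced from `ℝ^(n+1)`. -/
instance instTopSpx (n : ℕ) : TopologicalSpace (Spx n) :=
  inferInstanceAs (TopologicalSpace (stdSimplex ℝ (Fin (n + 1))))

/-- The affine map of standard simplices given by a map of vertices. -/
noncomputable def smap {m n : ℕ} (θ : Fin (m + 1) → Fin (n + 1)) (t : Spx m) : Spx n :=
  stdSimplex.map θ t

/-- The product of the standard simplex of dimension `n` with `M`. -/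
def Cyl (M : Type) (n : ℕ) : Type := Spx n × M

/-- The product topology. -/
instance instTopCyl (M : Type) [TopologicalSpace M] (n : ℕ) : TopologicalSpace (Cyl M n) :=
  inferInstanceAs (TopologicalSpace (Spx n × M))

section Cont

variable {M : Type} [TopologicalSpace M] {n m : ℕ}

lemma smap_cont (θ : Fin (m + 1) → Fin (n + 1)) : Continuous (smap θ) :=
  stdSimplex.continuous_map (S := ℝ) θ

lemma smap_id (t : Spx n) : smap id t = t := stdSimplex.map_id_apply t

lemma smap_smap {l : ℕ} (θ : Fin (m + 1) → Fin (n + 1)) (η : Fin (l + 1) → Fin (m + 1))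
    (t : Spx l) : smap θ (smap η t) = smap (θ ∘ η) t := stdSimplex.map_comp_apply η θ t

lemma fst_cont : Continuous (fun z : Cyl M n => z.1) := continuous_fst (X := Spx n) (Y := M)

lemma snd_cont : Continuous (fun z : Cyl M n => z.2) := continuous_snd (X := Spx n) (Y := M)

lemma mk_cont {X : Type*} [TopologicalSpace X] {f : X → Spx n} {g : X → M} (hf : Continuous f)
    (hg : Continuous g) : Continuous (fun x => ((f x, g x) : Cyl M n)) := hf.prodMk hg

end Cont

section

variable (d : ℕ) (M : Type) [TopologicalSpace M] [ChartedSpace (HSp d) M]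

variable {M}

/-- A map from the product of a simplex with `M` to `M` is piecewise linear at a point: near this
point its expression in the charts chooses its values among the values of finitely many affine
maps. -/
def PLAt {n : ℕ} (f : Cyl M n → M) (z : Cyl M n) : Prop :=
  ∃ A : Set (((Fin (n + 1) → ℝ) × (Fin d → ℝ)) →ᵃ[ℝ] (Fin d → ℝ)), A.Finite ∧
    ∀ᶠ w in 𝓝 z, ∃ a ∈ A,
      (chartAt (HSp d) (f z) (f w)).1 = a (w.1.1, (chartAt (HSp d) z.2 w.2).1)

/-- A self-homeomorphism of the product of a simplex with `M` which commutes with the projection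
to the simplex and is piecewise linear. -/
def IsPL {n : ℕ} (F : Cyl M n ≃ₜ Cyl M n) : Prop :=
  (∀ z, (F z).1 = z.1) ∧ ∀ z, PLAt d (fun w => (F w).2) z

variable (M)

lemma PLAt.comp {n : ℕ} {f : Cyl M n → M} {F : Cyl M n → Cyl M n} {z : Cyl M n}
    (hF : ContinuousAt F z) (h1 : ∀ z, (F z).1 = z.1) (hF' : PLAt d (fun w => (F w).2) z)
    (hf : PLAt d f (F z)) : PLAt d (fun w => f (F w)) z := by
  obtain ⟨A, hA, h2⟩ := hF'
  obtain ⟨B, hB, h3⟩ := hf
  let P : ((Fin (n + 1) → ℝ) × (Fin d → ℝ)) →ᵃ[ℝ] (Fin (n + 1) → ℝ) :=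
    (LinearMap.fst ℝ (Fin (n + 1) → ℝ) (Fin d → ℝ)).toAffineMap
  refine ⟨Set.image2 (fun b a => b.comp (P.prod a)) B A, hB.image2 _ hA, ?_⟩
  filter_upwards [h2, hF.eventually h3] with y hy1 hy2
  obtain ⟨a, ha, e1⟩ := hy1
  obtain ⟨b, hb, e2⟩ := hy2
  refine ⟨b.comp (P.prod a), Set.mem_image2_of_mem hb ha, ?_⟩
  rw [e2, AffineMap.comp_apply, AffineMap.prod_apply, ← e1, h1 y]
  rfl

lemma isPL_one {n : ℕ} : IsPL d (1 : Cyl M n ≃ₜ Cyl M n) := by
  refine ⟨fun z => rfl, fun z => ?_⟩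
  refine ⟨{(LinearMap.snd ℝ (Fin (n + 1) → ℝ) (Fin d → ℝ)).toAffineMap},
    Set.finite_singleton _, Filter.Eventually.of_forall fun w => ⟨_, rfl, rfl⟩⟩

variable {M} in
lemma IsPL.mul {n : ℕ} {F G : Cyl M n ≃ₜ Cyl M n} (h1 : IsPL d F) (h3 : IsPL d G) :
    IsPL d (F * G) := by
  refine ⟨fun z => ?_, fun z => ?_⟩
  · exact (h1.1 (G z)).trans (h3.1 z)
  · exact PLAt.comp d M (f := fun w => (F w).2) (F := G) G.continuous.continuousAt
      h3.1 (h3.2 z) (h1.2 (G z))

/-- The group of `n`-simplices of the simplicial group of piecewise linear homeomorphisms of `M`: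
piecewise linear homeomorphisms of the product of the standard `n`-simplex with `M` which commute
with the projection to the simplex, with piecewise linear inverse. -/
def PLn (n : ℕ) : Subgroup (Cyl M n ≃ₜ Cyl M n) where
  carrier := {F | IsPL d F ∧ IsPL d F⁻¹}
  one_mem' := ⟨isPL_one d M, isPL_one d M⟩
  mul_mem' h h' := ⟨IsPL.mul d h.1 h'.1, IsPL.mul d h'.2 h.2⟩
  inv_mem' h := ⟨h.2, h.1⟩

/-- The type of `n`-simplices. -/
def PLG (n : ℕ) : Type := PLn d M n

/-- The group structure, by composition. -/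
instance instGroupPLG (n : ℕ) : Group (PLG d M n) := inferInstanceAs (Group (PLn d M n))

variable {M}

variable {d} in
/-- The map underlying a simplex. -/
def fn {n : ℕ} (F : PLG d M n) (z : Cyl M n) : Cyl M n := F.1 z

section Fn

variable {d} {n : ℕ}

lemma fn_ext {F G : PLG d M n} (h : ∀ z, fn F z = fn G z) : F = G :=
  Subtype.ext (Homeomorph.ext h)

lemma fn_one (z : Cyl M n) : fn (1 : PLG d M n) z = z := rfl

lemma fn_mul (F G : PLG d M n) (z : Cyl M n) : fn (F * G) z = fn F (fn G z) := rfl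

lemma fn_cont (F : PLG d M n) : Continuous (fn F) := F.1.continuous

lemma fn_inv (F : PLG d M n) (z : Cyl M n) : fn F⁻¹ (fn F z) = z := F.1.symm_apply_apply z

lemma fn_inv' (F : PLG d M n) (z : Cyl M n) : fn F (fn F⁻¹ z) = z := F.1.apply_symm_apply z

lemma fn_fst (F : PLG d M n) (z : Cyl M n) : (fn F z).1 = z.1 := F.2.1.1 z

lemma fn_PL (F : PLG d M n) (z : Cyl M n) : PLAt d (fun w => (fn F w).2) z := F.2.1.2 z

lemma fn_snd_cont (F : PLG d M n) : Continuous (fun z => (fn F z).2) :=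
  snd_cont.comp (fn_cont F)

/-- construction of a simplex from maps -/
def mkG (f g : Cyl M n → Cyl M n) (hfg : ∀ z, g (f z) = z) (hgf : ∀ z, f (g z) = z)
    (hf : Continuous f) (hg : Continuous g) (hf1 : ∀ z, (f z).1 = z.1)
    (hg1 : ∀ z, (g z).1 = z.1) (hfP : ∀ z, PLAt d (fun w => (f w).2) z)
    (hgP : ∀ z, PLAt d (fun w => (g w).2) z) : PLG d M n :=
  ⟨⟨⟨f, g, hfg, hgf⟩, hf, hg⟩, ⟨hf1, hfP⟩, ⟨hg1, hgP⟩⟩

end Fn

section Pull

variable {d} {m n : ℕ} (θ : Fin (m + 1) → Fin (n + 1))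

/-- Pull back of a map over a simplex along an affine map of simplices. -/
noncomputable def pullF (f : Cyl M n → Cyl M n) (z : Cyl M m) : Cyl M m :=
  (z.1, (f (smap θ z.1, z.2)).2)

lemma pullF_cont {f : Cyl M n → Cyl M n} (hf : Continuous f) : Continuous (pullF θ f) :=
  mk_cont fst_cont (snd_cont.comp (hf.comp (mk_cont ((smap_cont θ).comp fst_cont) snd_cont)))

omit [TopologicalSpace M] in
lemma pullF_comp {f g : Cyl M n → Cyl M n} (hf : ∀ z, (f z).1 = z.1) (z : Cyl M m) :
    pullF θ g (pullF θ f z) = pullF θ (fun z => g (f z)) z := by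
  have h1 : ((smap θ z.1, (f (smap θ z.1, z.2)).2) : Cyl M n) = f (smap θ z.1, z.2) :=
    Prod.ext (hf (smap θ z.1, z.2)).symm rfl
  refine Prod.ext rfl ?_
  show (g (smap θ z.1, (f (smap θ z.1, z.2)).2)).2 = (g (f (smap θ z.1, z.2))).2
  rw [h1]

lemma pullF_inv (F : PLG d M n) (z : Cyl M m) :
    pullF θ (fn F⁻¹) (pullF θ (fn F) z) = z := by
  rw [pullF_comp θ (fn_fst F)]
  have h1 : (fn F⁻¹ (fn F (smap θ z.1, z.2))).2 = z.2 :=
    congrArg Prod.snd (fn_inv F (smap θ z.1, z.2))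
  exact Prod.ext rfl h1

lemma pullF_inv' (F : PLG d M n) (z : Cyl M m) :
    pullF θ (fn F) (pullF θ (fn F⁻¹) z) = z := by
  have := pullF_inv θ F⁻¹ z
  rwa [inv_inv] at this

lemma pullF_PL (F : PLG d M n) (z : Cyl M m) : PLAt d (fun w => (pullF θ (fn F) w).2) z := by
  obtain ⟨A, hA, h1⟩ := fn_PL F (smap θ z.1, z.2)
  let L : (Fin (m + 1) → ℝ) →ₗ[ℝ] (Fin (n + 1) → ℝ) := FunOnFinite.linearMap ℝ ℝ θ
  let T : ((Fin (m + 1) → ℝ) × (Fin d → ℝ)) →ᵃ[ℝ] ((Fin (n + 1) → ℝ) × (Fin d → ℝ)) :=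
    (L.prodMap LinearMap.id).toAffineMap
  refine ⟨(fun a => a.comp T) '' A, hA.image _, ?_⟩
  have hc : ContinuousAt (fun w : Cyl M m => ((smap θ w.1, w.2) : Cyl M n)) z :=
    (mk_cont ((smap_cont θ).comp fst_cont) snd_cont).continuousAt
  filter_upwards [hc.eventually h1] with w hw
  obtain ⟨a, ha, e⟩ := hw
  exact ⟨a.comp T, ⟨a, ha, rfl⟩, e⟩

/-- Pull back of a simplex along an affine map of simplices. -/
noncomputable def pullG (F : PLG d M n) : PLG d M m :=
  mkG (pullF θ (fn F)) (pullF θ (fn F⁻¹)) (pullF_inv θ F) (pullF_inv' θ F)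
    (pullF_cont θ (fn_cont F)) (pullF_cont θ (fn_cont F⁻¹)) (fun _ => rfl) (fun _ => rfl)
    (pullF_PL θ F) (pullF_PL θ F⁻¹)

lemma fn_pullG (F : PLG d M n) (z : Cyl M m) : fn (pullG θ F) z = pullF θ (fn F) z := rfl

lemma pullG_one : pullG θ (1 : PLG d M n) = 1 := fn_ext fun _ => rfl

lemma pullG_mul (F G : PLG d M n) : pullG θ (F * G) = pullG θ F * pullG θ G := by
  apply fn_ext
  intro z
  rw [fn_mul, fn_pullG, fn_pullG, fn_pullG, pullF_comp θ (fn_fst G)]
  rfl

/-- The structure maps of the simplicial group of piecewise linear homeomorphisms. -/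
noncomputable def pull : PLG d M n →* PLG d M m where
  toFun := pullG θ
  map_one' := pullG_one θ
  map_mul' := pullG_mul θ

lemma fn_pull (F : PLG d M n) (z : Cyl M m) : fn (pull θ F) z = pullF θ (fn F) z := rfl

lemma pull_id (F : PLG d M n) : pull id F = F := by
  apply fn_ext
  intro z
  refine Prod.ext (fn_fst F z).symm ?_
  show (fn F (smap id z.1, z.2)).2 = (fn F z).2
  rw [smap_id]
  rfl

lemma pull_comp {l : ℕ} (η : Fin (l + 1) → Fin (m + 1)) (F : PLG d M n) :
    pull (θ ∘ η) F = pull η (pull θ F) := by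
  apply fn_ext
  intro z
  refine Prod.ext rfl ?_
  show (fn F (smap (θ ∘ η) z.1, z.2)).2 = (fn F (smap θ (smap η z.1), z.2)).2
  rw [smap_smap]

end Pull

variable (M)

/-- The simplicial group of piecewise linear homeomorphisms of `M`. -/
noncomputable def PLs : SimplicialObject GrpCat.{0} where
  obj Δ := GrpCat.of (PLG d M Δ.unop.len)
  map f := GrpCat.ofHom (pull f.unop.toOrderHom)
  map_id _ := GrpCat.hom_ext (MonoidHom.ext pull_id)
  map_comp f g := GrpCat.hom_ext (MonoidHom.ext (pull_comp f.unop.toOrderHom g.unop.toOrderHom))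

/-- The components of `M` visited by a point under piecewise linear homeomorphisms of `M`. -/
def orbitC (x : M) : Set (_root_.ConnectedComponents M) :=
  {c | ∃ (F : PLG d M 0) (t : Spx 0), ConnectedComponents.mk (fn F (t, x)).2 = c}

end

end Run7.h798
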