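import Pool.Agent.Run7.h798.PLDef

/-!
The part of a piecewise linear manifold made of the components with finite orbit.
-/

namespace Run7.h798

open Topology CategoryTheory Simplicial

instance instLocHSp (d : ℕ) : LocallyConnectedSpace (HSp d) := by
  have hS : Convex ℝ (Set.ofPred (fun x : Fin d → ℝ => ∀ i : Fin d, (i : ℕ) = 0 → 0 ≤ x i)) := by
    intro x hx y hy a b ha hb _ i hi
    have h1 := hx i hi
    have h2 := hy i hi
    simp only [Pi.add_apply, Pi.smul_apply, smul_eq_mul]
    positivity
  have := hS.locallyPathConnectedSpace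
  exact (inferInstance : LocallyConnectedSpace
    (Set.ofPred (fun x : Fin d → ℝ => ∀ i : Fin d, (i : ℕ) = 0 → 0 ≤ x i)))

lemma locM (d : ℕ) (M : Type) [TopologicalSpace M] [ChartedSpace (HSp d) M] :
    LocallyConnectedSpace M := ChartedSpace.locallyConnectedSpace (HSp d) M

section

variable (d : ℕ) (M : Type) [TopologicalSpace M] [ChartedSpace (HSp d) M]

variable {M}

/-- the component of a point -/
abbrev cc (x : M) : _root_.ConnectedComponents M := ConnectedComponents.mk x

lemma cc_map {f : M → M} (hf : Continuous f) {x y : M} (h : cc x = cc y) : cc (f x) = cc (f y) :=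
  congrArg hf.connectedComponentsMap h

lemma cc_cyl {n : ℕ} {f : Cyl M n → M} (hf : Continuous f) {z z' : Cyl M n}
    (h : cc z.2 = cc z'.2) : cc (f z) = cc (f z') := by
  have h1 : cc (f (z.1, z.2)) = cc (f (z.1, z'.2)) :=
    cc_map (f := fun x => f (z.1, x)) (hf.comp (mk_cont continuous_const continuous_id)) h
  have h2 : cc (f (z.1, z'.2)) = cc (f (z'.1, z'.2)) := by
    have hc : Continuous (fun t : Spx n => f (t, z'.2)) :=
      hf.comp (mk_cont continuous_id continuous_const)
    have h0 : PreconnectedSpace (Spx n) :=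
      inferInstanceAs (PreconnectedSpace (stdSimplex ℝ (Fin (n + 1))))
    have h3 : IsPreconnected (Set.range (fun t : Spx n => f (t, z'.2))) :=
      isPreconnected_range hc
    rw [ConnectedComponents.coe_eq_coe']
    exact (h3.subset_connectedComponent ⟨z'.1, rfl⟩) ⟨z.1, rfl⟩
  exact h1.trans h2

lemma cc_pull {n : ℕ} (F : PLG d M n) (z : Cyl M n) (t : Spx 0) :
    cc (fn F z).2 = cc (fn (pull (fun _ : Fin 1 => (0 : Fin (n + 1))) F) (t, z.2)).2 :=
  cc_cyl (fn_snd_cont F) rfl

lemma cc_act {n : ℕ} (F : PLG d M n) {z z' : Cyl M n} (h : cc z.2 = cc z'.2) :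
    cc (fn F z).2 = cc (fn F z').2 :=
  cc_cyl (fn_snd_cont F) h

lemma orbitC_congr {x y : M} (h : cc x = cc y) : orbitC d M x = orbitC d M y := by
  ext c
  constructor
  · rintro ⟨F, t, rfl⟩
    exact ⟨F, t, cc_act d F h.symm⟩
  · rintro ⟨F, t, rfl⟩
    exact ⟨F, t, cc_act d F h⟩

lemma orbitC_sub {n : ℕ} (F : PLG d M n) (z : Cyl M n) :
    orbitC d M (fn F z).2 ⊆ orbitC d M z.2 := by
  rintro c ⟨G, t, rfl⟩
  let F0 := pull (fun _ : Fin 1 => (0 : Fin (n + 1))) F
  refine ⟨G * F0, t, ?_⟩
  exact cc_act d G (cc_pull d F z t).symm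

lemma orbitC_eq {n : ℕ} (F : PLG d M n) (z : Cyl M n) :
    orbitC d M (fn F z).2 = orbitC d M z.2 := by
  refine Set.Subset.antisymm (orbitC_sub d F z) ?_
  have h := orbitC_sub d F⁻¹ (fn F z)
  rwa [fn_inv] at h

lemma orbitC_isOpen : IsOpen (Set.ofPred (fun x : M => (orbitC d M x).Finite)) := by
  have := locM d M
  rw [isOpen_iff_mem_nhds]
  intro x hx
  refine Filter.mem_of_superset ((isOpen_connectedComponent (x := x)).mem_nhds
    mem_connectedComponent) ?_
  intro y hy
  have h1 : cc y = cc x := ConnectedComponents.coe_eq_coe'.2 hy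
  show (orbitC d M y).Finite
  rw [orbitC_congr d h1]
  exact hx

variable (M)

/-- The union of the components of `M` whose orbit under the group of piecewise linear
homeomorphisms of `M` is finite. -/
def finPart : TopologicalSpace.Opens M where
  carrier := Set.ofPred (fun x : M => (orbitC d M x).Finite)
  is_open' := orbitC_isOpen d

end

end Run7.h798
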