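import Pool.Agent.Run7.h798.TotDef

/-!
Total complexes of first quadrant bicomplexes: components, and a comparison criterion.
-/

namespace Run7.h798

open CategoryTheory

universe u

variable {k : Type u} [CommRing k]

variable (K L : Bicx k)

/-- projection to a summand -/
noncomputable def pj (p q n : ℕ) (h : p + q = n) : (tot K).X n ⟶ (K.X p).X q :=
  K.totalDesc (fun i₁ i₂ (hi : i₁ + i₂ = n) =>
    if e : i₁ = p then (K.XXIsoOfEq _ _ _ e (by omega : i₂ = q)).hom else 0)

lemma io_pj (p q n : ℕ) (h : p + q = n) : io K p q n h ≫ pj K p q n h = 𝟙 _ := by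
  unfold io pj
  rw [HomologicalComplex₂.ι_totalDesc]
  simp

lemma io_pj_ne {p q p' q' n : ℕ} (h : p + q = n) (h' : p' + q' = n) (hne : p' ≠ p) :
    io K p' q' n h' ≫ pj K p q n h = 0 := by
  unfold io pj
  rw [HomologicalComplex₂.ι_totalDesc]
  simp [hne]

lemma sum_pj (n : ℕ) : 𝟙 ((tot K).X n) = ∑ p : Fin (n + 1),
    pj K p (n - p) n (by omega) ≫ io K p (n - p) n (by omega) := by
  apply tot_ext
  intro p q h
  rw [Category.comp_id, Preadditive.comp_sum]
  rw [Finset.sum_eq_single (⟨p, by omega⟩ : Fin (n + 1))]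
  · have hq : n - p = q := by omega
    subst hq
    rw [← Category.assoc, io_pj, Category.id_comp]
  · intro b _ hb
    rw [← Category.assoc, io_pj_ne, Limits.zero_comp]
    intro hpb
    apply hb
    ext
    exact hpb.symm
  · intro hh
    exact absurd (Finset.mem_univ _) hh

lemma d1_succ (p q m : ℕ) (h : p + q = m) :
    K.d₁ (ComplexShape.down ℕ) (p + 1) q m = (K.d (p + 1) p).f q ≫ io K p q m h := by
  rw [HomologicalComplex₂.d₁_eq K (ComplexShape.down ℕ) (by simp : (ComplexShape.down ℕ).Rel (p + 1) p) q m h]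
  exact one_smul _ _

lemma d2_zero (p m : ℕ) : K.d₂ (ComplexShape.down ℕ) p 0 m = 0 := by
  apply HomologicalComplex₂.d₂_eq_zero
  simp

lemma d_pj (p q m : ℕ) (h : p + q = m) :
    (tot K).d (m + 1) m ≫ pj K p q m h =
      pj K (p + 1) q (m + 1) (by omega) ≫ (K.d (p + 1) p).f q +
      ((-1 : ℤˣ) ^ p) • (pj K p (q + 1) (m + 1) (by omega) ≫ (K.X p).d (q + 1) q) := by
  apply tot_ext
  intro a b hab
  rw [← Category.assoc, io_d, Preadditive.add_comp, Preadditive.comp_add, ← Category.assoc,
    Linear.comp_units_smul, ← Category.assoc]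
  congr 1
  · cases a with
    | zero =>
      rw [d1_zero K b m, Limits.zero_comp, io_pj_ne _ _ _ (by omega), Limits.zero_comp]
    | succ a =>
      rw [d1_succ K a b m (by omega), Category.assoc]
      by_cases hap : a = p
      · subst hap
        obtain rfl : b = q := by omega
        rw [io_pj, io_pj, Category.comp_id, Category.id_comp]
      · rw [io_pj_ne _ _ _ hap, io_pj_ne _ _ _ (by omega), Limits.comp_zero, Limits.zero_comp]
  · cases b with
    | zero =>
      rw [d2_zero K a m, Limits.zero_comp, io_pj_ne _ _ _ (by omega), Limits.zero_comp, smul_zero]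
    | succ b =>
      rw [d2_succ K a b m (by omega), Linear.units_smul_comp, Category.assoc]
      by_cases hap : a = p
      · subst hap
        obtain rfl : b = q := by omega
        rw [io_pj, io_pj, Category.comp_id, Category.id_comp]
      · rw [io_pj_ne _ _ _ hap, io_pj_ne _ _ _ (by omega), Limits.comp_zero, Limits.zero_comp,
          smul_zero, smul_zero]


lemma pj_d_el (p q m : ℕ) (h : p + q = m) (z : (tot K).X (m + 1)) :
    pj K p q m h ((tot K).d (m + 1) m z) =
      (K.d (p + 1) p).f q (pj K (p + 1) q (m + 1) (by omega) z) +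
      ((-1 : ℤˣ) ^ p) • ((K.X p).d (q + 1) q (pj K p (q + 1) (m + 1) (by omega) z)) :=
  DFunLike.congr_fun (congrArg ModuleCat.Hom.hom (d_pj K p q m h)) z

lemma pj_io_el (p q n : ℕ) (h : p + q = n) (x : (K.X p).X q) :
    pj K p q n h (io K p q n h x) = x :=
  DFunLike.congr_fun (congrArg ModuleCat.Hom.hom (io_pj K p q n h)) x

lemma pj_io_ne_el {p q p' q' n : ℕ} (h : p + q = n) (h' : p' + q' = n) (hne : p' ≠ p)
    (x : (K.X p').X q') : pj K p q n h (io K p' q' n h' x) = 0 :=
  DFunLike.congr_fun (congrArg ModuleCat.Hom.hom (io_pj_ne K h h' hne)) x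

/-! homology of maps of complexes -/

section Gen

variable {C D : ChainComplex (ModuleCat.{u} k) ℕ}

lemma dd_el (C : ChainComplex (ModuleCat.{u} k) ℕ) (i j m : ℕ) (x : C.X i) :
    C.d j m (C.d i j x) = 0 :=
  DFunLike.congr_fun (congrArg ModuleCat.Hom.hom (C.d_comp_d i j m)) x

lemma comm_el (f : C ⟶ D) (i j : ℕ) (x : C.X i) : D.d i j (f.f i x) = f.f j (C.d i j x) :=
  DFunLike.congr_fun (congrArg ModuleCat.Hom.hom (f.comm i j)) x

lemma hmz (g : C ⟶ D) (n : ℕ)
    (h : ∀ x : C.X n, (∀ m, C.d n m x = 0) → ∃ w : D.X (n + 1), D.d (n + 1) n w = g.f n x) :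
    HomologicalComplex.homologyMap g n = 0 := by
  rw [← cancel_epi (C.homologyπ n), HomologicalComplex.homologyπ_naturality, Limits.comp_zero]
  ext z
  obtain ⟨w, hw⟩ := h (C.iCycles n z) (fun m =>
    DFunLike.congr_fun (congrArg ModuleCat.Hom.hom (C.iCycles_d n m)) z)
  have h1 : HomologicalComplex.cyclesMap g n z = D.toCycles (n + 1) n w := by
    have hinj : Function.Injective (D.iCycles n) := (ModuleCat.mono_iff_injective _).1 inferInstance
    apply hinj
    have h2 : D.iCycles n (HomologicalComplex.cyclesMap g n z) = g.f n (C.iCycles n z) :=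
      DFunLike.congr_fun (congrArg ModuleCat.Hom.hom (HomologicalComplex.cyclesMap_i g n)) z
    have h3 : D.iCycles n (D.toCycles (n + 1) n w) = D.d (n + 1) n w :=
      DFunLike.congr_fun (congrArg ModuleCat.Hom.hom (D.toCycles_i (n + 1) n)) w
    exact h2.trans (hw.symm.trans h3.symm)
  have h4 : D.homologyπ n (D.toCycles (n + 1) n w) = 0 :=
    DFunLike.congr_fun (congrArg ModuleCat.Hom.hom (D.toCycles_comp_homologyπ (n + 1) n)) w
  exact (congrArg (D.homologyπ n).hom h1).trans h4

lemma hm_iso (f : C ⟶ D) (s : D ⟶ C) (hs : s ≫ f = 𝟙 D) (n : ℕ)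
    (h : ∀ x : C.X n, (∀ m, C.d n m x = 0) → f.f n x = 0 → ∃ w, C.d (n + 1) n w = x) :
    IsIso (HomologicalComplex.homologyMap f n) := by
  have h1 : HomologicalComplex.homologyMap (𝟙 C - f ≫ s) n = 0 := by
    apply hmz
    intro x hx
    have h2 : (𝟙 C - f ≫ s).f n x = x - s.f n (f.f n x) := by
      simp
    rw [h2]
    apply h
    · intro m
      rw [map_sub, comm_el, comm_el, hx m, map_zero, map_zero, sub_zero]
    · have h3 : f.f n (s.f n (f.f n x)) = f.f n x :=
        DFunLike.congr_fun (congrArg (fun g => ModuleCat.Hom.hom (g.f n)) hs) (f.f n x)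
      rw [map_sub, h3, sub_self]
  refine ⟨HomologicalComplex.homologyMap s n, ?_, ?_⟩
  · rw [HomologicalComplex.homologyMap_sub, HomologicalComplex.homologyMap_id,
      HomologicalComplex.homologyMap_comp, sub_eq_zero] at h1
    exact h1.symm
  · rw [← HomologicalComplex.homologyMap_comp, hs, HomologicalComplex.homologyMap_id]

end Gen

section Cmp

variable {K L} (φ : K ⟶ L) (σ : L ⟶ K)

/-- the induced map of total complexes -/
noncomputable abbrev totM (φ : K ⟶ L) : tot K ⟶ tot L :=
  HomologicalComplex₂.total.map φ (ComplexShape.down ℕ)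

lemma io_totM (p q n : ℕ) (h : p + q = n) :
    io K p q n h ≫ (totM φ).f n = (φ.f p).f q ≫ io L p q n h :=
  HomologicalComplex₂.ιTotal_map K L φ (ComplexShape.down ℕ) p q n h

lemma totM_pj (p q n : ℕ) (h : p + q = n) :
    (totM φ).f n ≫ pj L p q n h = pj K p q n h ≫ (φ.f p).f q := by
  apply tot_ext
  intro a b hab
  rw [← Category.assoc, io_totM, Category.assoc, ← Category.assoc (io K a b n hab)]
  by_cases hap : a = p
  · subst hap
    obtain rfl : b = q := by omega
    rw [io_pj, io_pj, Category.comp_id, Category.id_comp]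
  · rw [io_pj_ne _ _ _ hap, io_pj_ne _ _ _ hap, Limits.comp_zero, Limits.zero_comp]

lemma totM_pj_el (p q n : ℕ) (h : p + q = n) (z : (tot K).X n) :
    pj L p q n h ((totM φ).f n z) = (φ.f p).f q (pj K p q n h z) :=
  DFunLike.congr_fun (congrArg ModuleCat.Hom.hom (totM_pj φ p q n h)) z

lemma totM_io_el (p q n : ℕ) (h : p + q = n) (z : (K.X p).X q) :
    (totM φ).f n (io K p q n h z) = io L p q n h ((φ.f p).f q z) :=
  DFunLike.congr_fun (congrArg ModuleCat.Hom.hom (io_totM φ p q n h)) z

lemma eq_zero_of_pj {n : ℕ} {z : (tot K).X n} (h : ∀ p q hpq, pj K p q n hpq z = 0) : z = 0 := by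
  have h1 := congrArg (fun f => f.hom z) (sum_pj K n)
  simp only [ModuleCat.hom_id, LinearMap.id_coe, id_eq, ModuleCat.hom_sum, LinearMap.sum_apply,
    ModuleCat.hom_comp, LinearMap.comp_apply] at h1
  rw [h1]
  apply Finset.sum_eq_zero
  intro p _
  have := h p (n - p) (by omega)
  exact (congrArg (io K p (n - p) n (by omega)).hom this).trans (map_zero _)

lemma tot_step (hcol : ∀ (p q : ℕ) (x : (K.X p).X q), (∀ m, (K.X p).d q m x = 0) →
      (φ.f p).f q x = 0 → ∃ w : (K.X p).X (q + 1), (φ.f p).f (q + 1) w = 0 ∧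
        (K.X p).d (q + 1) q w = x) (n P : ℕ) (z : (tot K).X n)
      (hz : ∀ m, (tot K).d n m z = 0) (hφ : (totM φ).f n z = 0)
      (hP : ∀ p q hpq, P + 1 ≤ p → pj K p q n hpq z = 0) :
      ∃ w : (tot K).X (n + 1), (totM φ).f (n + 1) w = 0 ∧
        ∀ p q hpq, P ≤ p → pj K p q n hpq (z - (tot K).d (n + 1) n w) = 0 := by
  by_cases hPn : n < P
  · refine ⟨0, map_zero _, ?_⟩
    intro p q hpq hp
    omega
  · obtain ⟨q, hq⟩ : ∃ q, P + q = n := ⟨n - P, by omega⟩
    have h1 : (φ.f P).f q (pj K P q n hq z) = 0 := by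
      rw [← totM_pj_el, hφ, map_zero]
    have h2 : ∀ m, (K.X P).d q m (pj K P q n hq z) = 0 := by
      intro m
      by_cases hm : m + 1 = q
      · subst hm
        obtain rfl : n = (P + m) + 1 := by omega
        have h3 := pj_d_el K P m (P + m) rfl z
        rw [hz (P + m), map_zero, hP _ _ _ le_rfl, map_zero, zero_add] at h3
        have h5 := congrArg (fun y => ((-1 : ℤˣ) ^ P) • y) h3.symm
        simp only [smul_zero] at h5
        rw [smul_smul, ← mul_pow, neg_one_mul, neg_neg, one_pow, one_smul] at h5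
        exact h5
      · rw [HomologicalComplex.shape _ _ _ (by simpa using hm)]
        rfl
    obtain ⟨w0, hw1, hw2⟩ := hcol P q _ h2 h1
    refine ⟨((-1 : ℤˣ) ^ P) • io K P (q + 1) (n + 1) (by omega) w0, ?_, ?_⟩
    · have h3 : (totM φ).f (n + 1) (io K P (q + 1) (n + 1) (by omega) w0) = 0 := by
        rw [totM_io_el, hw1, map_zero]
      rw [Units.smul_def, map_zsmul, h3, smul_zero]
    · intro p q' hpq hp
      rw [map_sub, pj_d_el]
      have h6 : pj K (p + 1) q' (n + 1) (by omega)
          (((-1 : ℤˣ) ^ P) • io K P (q + 1) (n + 1) (by omega) w0) = 0 := by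
        rw [Units.smul_def, map_zsmul, pj_io_ne_el K _ _ (by omega), smul_zero]
      rw [h6, map_zero, zero_add, Units.smul_def, Units.smul_def, map_zsmul, map_zsmul]
      by_cases hpP : p = P
      · subst hpP
        obtain rfl : q = q' := by omega
        rw [pj_io_el, hw2, smul_smul, ← Units.val_mul, ← mul_pow, neg_one_mul,
          neg_neg, one_pow, Units.val_one, one_smul, sub_self]
      · rw [hP p q' hpq (by omega), pj_io_ne_el K _ _ (by omega), map_zero, smul_zero, smul_zero,
          sub_zero]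

lemma tot_ker (hcol : ∀ (p q : ℕ) (x : (K.X p).X q), (∀ m, (K.X p).d q m x = 0) →
      (φ.f p).f q x = 0 → ∃ w : (K.X p).X (q + 1), (φ.f p).f (q + 1) w = 0 ∧
        (K.X p).d (q + 1) q w = x) (n P : ℕ) : ∀ (z : (tot K).X n)
      (_ : ∀ m, (tot K).d n m z = 0) (_ : (totM φ).f n z = 0)
      (_ : ∀ p q hpq, P ≤ p → pj K p q n hpq z = 0),
      ∃ w : (tot K).X (n + 1), (tot K).d (n + 1) n w = z := by
  induction P with
  | zero =>
    intro z _ _ hP
    refine ⟨0, ?_⟩
    rw [map_zero]
    exact (eq_zero_of_pj (fun p q hpq => hP p q hpq (Nat.zero_le _))).symm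
  | succ P ih =>
    intro z hz hφ hP
    obtain ⟨w, hw1, hw2⟩ := tot_step φ hcol n P z hz hφ hP
    obtain ⟨w', hw'⟩ := ih (z - (tot K).d (n + 1) n w)
      (fun m => by rw [map_sub, hz m, dd_el, sub_zero])
      (by rw [map_sub, hφ, ← comm_el, hw1, map_zero, sub_zero]) hw2
    refine ⟨w' + w, ?_⟩
    rw [map_add, hw', sub_add_cancel]

lemma tot_iso (hs : σ ≫ φ = 𝟙 L)
    (hcol : ∀ (p q : ℕ) (x : (K.X p).X q), (∀ m, (K.X p).d q m x = 0) →
      (φ.f p).f q x = 0 → ∃ w : (K.X p).X (q + 1), (φ.f p).f (q + 1) w = 0 ∧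
        (K.X p).d (q + 1) q w = x) (n : ℕ) :
    IsIso (HomologicalComplex.homologyMap (totM φ) n) := by
  apply hm_iso (totM φ) (totM σ)
  · rw [← HomologicalComplex₂.total.map_comp, hs, HomologicalComplex₂.total.map_id]
  · intro z hz hφ
    exact tot_ker φ hcol n (n + 1) z hz hφ (fun p q hpq hp => by omega)

lemma c0_nat : c0 K ≫ totM φ = φ.f 0 ≫ c0 L := by
  ext n : 1
  exact io_totM φ 0 n n (by omega)

/-- the comparison criterion -/
theorem c0_bij_iff (hs : σ ≫ φ = 𝟙 L)
    (hcol : ∀ (p q : ℕ) (x : (K.X p).X q), (∀ m, (K.X p).d q m x = 0) →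
      (φ.f p).f q x = 0 → ∃ w : (K.X p).X (q + 1), (φ.f p).f (q + 1) w = 0 ∧
        (K.X p).d (q + 1) q w = x) (n : ℕ) :
    Function.Bijective (HomologicalComplex.homologyMap (c0 K) n) ↔
      Function.Bijective (HomologicalComplex.homologyMap (c0 L) n) := by
  have h1 : IsIso (HomologicalComplex.homologyMap (totM φ) n) := tot_iso φ σ hs hcol n
  have h2 : IsIso (HomologicalComplex.homologyMap (φ.f 0) n) := by
    apply hm_iso (φ.f 0) (σ.f 0)
    · exact congrArg (fun g => g.f 0) hs
    · intro x hx hφ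
      obtain ⟨w, _, hw⟩ := hcol 0 n x hx hφ
      exact ⟨w, hw⟩
  have h3 : HomologicalComplex.homologyMap (c0 K) n ≫ HomologicalComplex.homologyMap (totM φ) n =
      HomologicalComplex.homologyMap (φ.f 0) n ≫ HomologicalComplex.homologyMap (c0 L) n := by
    rw [← HomologicalComplex.homologyMap_comp, ← HomologicalComplex.homologyMap_comp, c0_nat]
  rw [← ConcreteCategory.isIso_iff_bijective, ← ConcreteCategory.isIso_iff_bijective]
  constructor
  · intro h
    have h4 : IsIso (HomologicalComplex.homologyMap (φ.f 0) n ≫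
        HomologicalComplex.homologyMap (c0 L) n) := by rw [← h3]; infer_instance
    exact IsIso.of_isIso_comp_left (HomologicalComplex.homologyMap (φ.f 0) n) _
  · intro h
    have h4 : IsIso (HomologicalComplex.homologyMap (c0 K) n ≫
        HomologicalComplex.homologyMap (totM φ) n) := by rw [h3]; infer_instance
    exact IsIso.of_isIso_comp_right _ (HomologicalComplex.homologyMap (totM φ) n)

end Cmp


section Row

variable {K}

lemma row_step (h0 : ∀ (q : ℕ) (x : (K.X 1).X q), (K.d 1 0).f q x = 0)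
    (hrow : ∀ (p q : ℕ) (x : (K.X (p + 1)).X q), (K.d (p + 1) p).f q x = 0 →
      ∃ w : (K.X (p + 2)).X q, (K.d (p + 2) (p + 1)).f q w = x) (n Q : ℕ) (u : (tot K).X n)
    (hu : ∀ m, (tot K).d n m u = 0)
    (hQ : ∀ p q hpq, Q + 1 ≤ q → pj K (p + 1) q n hpq u = 0) :
    ∃ w : (tot K).X (n + 1),
      ∀ p q hpq, Q ≤ q → pj K (p + 1) q n hpq (u - (tot K).d (n + 1) n w) = 0 := by
  by_cases hPn : n ≤ Q
  · refine ⟨0, ?_⟩
    intro p q hpq hp
    omega
  · obtain ⟨P, hP⟩ : ∃ P, P + 1 + Q = n := ⟨n - Q - 1, by omega⟩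
    have h1 : (K.d (P + 1) P).f Q (pj K (P + 1) Q n hP u) = 0 := by
      cases P with
      | zero => exact h0 Q _
      | succ P =>
        obtain rfl : n = (P + 1 + Q) + 1 := by omega
        have h3 := pj_d_el K (P + 1) Q (P + 1 + Q) rfl u
        rw [hu (P + 1 + Q), map_zero, hQ P (Q + 1) (by omega) le_rfl, map_zero, smul_zero,
          add_zero] at h3
        exact h3.symm
    obtain ⟨w0, hw0⟩ := hrow P Q _ h1
    refine ⟨io K (P + 2) Q (n + 1) (by omega) w0, ?_⟩
    intro p q hpq hq
    rw [map_sub, pj_d_el]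
    have h6 : pj K (p + 1) (q + 1) (n + 1) (by omega) (io K (P + 2) Q (n + 1) (by omega) w0) = 0 :=
      pj_io_ne_el K _ _ (by omega) _
    rw [h6, map_zero, smul_zero, add_zero]
    by_cases hpP : p = P
    · subst hpP
      obtain rfl : Q = q := by omega
      rw [pj_io_el, hw0, sub_self]
    · rw [hQ p q hpq (by omega), pj_io_ne_el K _ _ (by omega), map_zero, sub_zero]

lemma row_red (h0 : ∀ (q : ℕ) (x : (K.X 1).X q), (K.d 1 0).f q x = 0)
    (hrow : ∀ (p q : ℕ) (x : (K.X (p + 1)).X q), (K.d (p + 1) p).f q x = 0 →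
      ∃ w : (K.X (p + 2)).X q, (K.d (p + 2) (p + 1)).f q w = x) (n Q : ℕ) : ∀ (u : (tot K).X n)
    (_ : ∀ m, (tot K).d n m u = 0)
    (_ : ∀ p q hpq, Q ≤ q → pj K (p + 1) q n hpq u = 0),
    ∃ w : (tot K).X (n + 1),
      ∀ p q hpq, pj K (p + 1) q n hpq (u - (tot K).d (n + 1) n w) = 0 := by
  induction Q with
  | zero =>
    intro u _ hQ
    refine ⟨0, ?_⟩
    intro p q hpq
    rw [map_zero, sub_zero]
    exact hQ p q hpq (Nat.zero_le _)
  | succ Q ih =>
    intro u hu hQ
    obtain ⟨w, hw⟩ := row_step h0 hrow n Q u hu hQ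
    obtain ⟨w', hw'⟩ := ih (u - (tot K).d (n + 1) n w)
      (fun m => by rw [map_sub, hu m, dd_el, sub_zero]) hw
    refine ⟨w' + w, ?_⟩
    intro p q hpq
    rw [map_add, sub_add_eq_sub_sub_swap]
    exact hw' p q hpq

/-- if all rows are exact except at the origin column, the inclusion of the column of
index zero induces isomorphisms in homology -/
theorem c0_bij_row (h0 : ∀ (q : ℕ) (x : (K.X 1).X q), (K.d 1 0).f q x = 0)
    (hrow : ∀ (p q : ℕ) (x : (K.X (p + 1)).X q), (K.d (p + 1) p).f q x = 0 →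
      ∃ w : (K.X (p + 2)).X q, (K.d (p + 2) (p + 1)).f q w = x) (n : ℕ) :
    Function.Bijective (HomologicalComplex.homologyMap (c0 K) n) := by
  have hc : ∀ (n m : ℕ) (hnm : m + 1 = n), pj K 0 n n (by omega) ≫ (K.X 0).d n m =
      (tot K).d n m ≫ pj K 0 m m (by omega) := by
    intro n m hnm
    subst hnm
    ext z
    have h1 := pj_d_el K 0 m m (by omega) z
    rw [h0, pow_zero, one_smul] at h1
    exact (h1.trans (zero_add _)).symm
  let r : tot K ⟶ K.X 0 :=
    { f := fun n => pj K 0 n n (by omega)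
      comm' := fun n m hnm => hc n m (by simpa using hnm) }
  have hr : c0 K ≫ r = 𝟙 (K.X 0) := by
    ext n : 1
    exact io_pj K 0 n n (by omega)
  have h1 : IsIso (HomologicalComplex.homologyMap r n) := by
    apply hm_iso r (c0 K) hr
    intro x hx hrx
    obtain ⟨w, hw⟩ := row_red h0 hrow n n x hx (fun p q hpq hq => by omega)
    refine ⟨w - (c0 K).f (n + 1) (r.f (n + 1) w), ?_⟩
    rw [map_sub, comm_el, comm_el, sub_eq_iff_eq_add, ← sub_eq_iff_eq_add']
    have h2 : (tot K).d (n + 1) n w - x - (c0 K).f n (r.f n ((tot K).d (n + 1) n w)) = 0 := by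
      apply eq_zero_of_pj
      intro p q hpq
      cases p with
      | zero =>
        obtain rfl : n = q := by omega
        have h3 : pj K 0 n n (by omega) x = 0 := hrx
        have h4 : pj K 0 n n (by omega) ((c0 K).f n (r.f n ((tot K).d (n + 1) n w))) =
          pj K 0 n n (by omega) ((tot K).d (n + 1) n w) := pj_io_el K 0 n n _ _
        rw [map_sub, map_sub, h3, h4, sub_zero, sub_self]
      | succ p =>
        have h3 := hw p q hpq
        have h4 : pj K (p + 1) q n hpq ((c0 K).f n (r.f n ((tot K).d (n + 1) n w))) = 0 :=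
          pj_io_ne_el K _ _ (by omega) _
        rw [map_sub, sub_eq_zero] at h3
        rw [map_sub, map_sub, h3, h4, sub_self, sub_zero]
    exact sub_eq_zero.1 h2
  have h2 : HomologicalComplex.homologyMap (c0 K) n ≫ HomologicalComplex.homologyMap r n =
      𝟙 _ := by
    rw [← HomologicalComplex.homologyMap_comp, hr, HomologicalComplex.homologyMap_id]
  have h3 : IsIso (HomologicalComplex.homologyMap (c0 K) n) := by
    have h4 : IsIso (HomologicalComplex.homologyMap (c0 K) n ≫
        HomologicalComplex.homologyMap r n) := by rw [h2]; infer_instance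
    exact IsIso.of_isIso_comp_right _ (HomologicalComplex.homologyMap r n)
  exact (ConcreteCategory.isIso_iff_bijective _).1 h3

end Row

end Run7.h798
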