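import Pool.Agent.Run7.h798.Gch
import Pool.Agent.Run7.h798.Tot

/-!
Homology of the classifying space of a simplicial group.
-/

namespace Run7.h798

open CategoryTheory Finsupp Simplicial

universe u

variable (k : Type u) [CommRing k]

/-- functoriality of the bicomplex -/
noncomputable def sgbM {G H : SimplicialObject GrpCat.{u}} (f : G ⟶ H) : sgb k G ⟶ sgb k H :=
  (AlgebraicTopology.alternatingFaceMapComplex (ChainComplex (ModuleCat.{u} k) ℕ)).map
    (((SimplicialObject.whiskering GrpCat (ChainComplex (ModuleCat.{u} k) ℕ)).obj (gch k)).map f)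

lemma sgbM_f {G H : SimplicialObject GrpCat.{u}} (f : G ⟶ H) (p : ℕ) :
    (sgbM k f).f p = (gch k).map (f.app (Opposite.op ⦋p⦌)) := rfl

lemma sgbM_comp {G H K : SimplicialObject GrpCat.{u}} (f : G ⟶ H) (g : H ⟶ K) :
    sgbM k (f ≫ g) = sgbM k f ≫ sgbM k g :=
  (((SimplicialObject.whiskering GrpCat (ChainComplex (ModuleCat.{u} k) ℕ)).obj (gch k)) ⋙
    AlgebraicTopology.alternatingFaceMapComplex (ChainComplex (ModuleCat.{u} k) ℕ)).map_comp f g

lemma sgbM_id {G : SimplicialObject GrpCat.{u}} : sgbM k (𝟙 G) = 𝟙 (sgb k G) :=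
  (((SimplicialObject.whiskering GrpCat (ChainComplex (ModuleCat.{u} k) ℕ)).obj (gch k)) ⋙
    AlgebraicTopology.alternatingFaceMapComplex (ChainComplex (ModuleCat.{u} k) ℕ)).map_id G

/-- comparison for a split morphism of simplicial groups with acyclic kernels -/
theorem sg_bij_iff {G R : SimplicialObject GrpCat.{u}} (ρ : G ⟶ R) (s : R ⟶ G)
    (hs : s ≫ ρ = 𝟙 R)
    (hK : ∀ p : ℕ, ∃ (K : Type u) (_ : Group K) (ι : K →* (G _⦋p⦌ : GrpCat.{u})),
      Function.Injective ι ∧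
      (∀ g : (G _⦋p⦌ : GrpCat.{u}), (ρ.app (Opposite.op ⦋p⦌)).hom g = 1 ↔ ∃ a, ι a = g) ∧
      ∀ q, Ex k K q) (n : ℕ) :
    NatBij k G n ↔ NatBij k R n := by
  apply c0_bij_iff (sgbM k ρ) (sgbM k s)
  · rw [← sgbM_comp, hs, sgbM_id]
  · intro p q x hx hφ
    obtain ⟨K, _, ι, h1, h2, h3⟩ := hK p
    refine gch_ker k (ρ.app (Opposite.op ⦋p⦌)) (s.app (Opposite.op ⦋p⦌)) ?_ ι h1 h2 h3 q x hx hφ
    have := congrArg (fun f => f.app (Opposite.op ⦋p⦌)) hs
    simpa using this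

section Triv

variable {k} {G : SimplicialObject GrpCat.{u}}

/-- the coefficient at the constant function one -/
def ev (G : SimplicialObject GrpCat.{u}) (p q : ℕ) (x : ((sgb k G).X p).X q) : k :=
  (show (Fin q → (G _⦋p⦌ : GrpCat.{u})) →₀ k from x) (fun _ => 1)

lemma ev_inj (p q : ℕ) [Subsingleton (G _⦋p⦌ : GrpCat.{u})] {x y : ((sgb k G).X p).X q}
    (h : ev G p q x = ev G p q y) : x = y := by
  refine Finsupp.ext (f := (show (Fin q → (G _⦋p⦌ : GrpCat.{u})) →₀ k from x))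
    (g := (show (Fin q → (G _⦋p⦌ : GrpCat.{u})) →₀ k from y)) ?_
  intro a
  rw [Subsingleton.elim a (fun _ => 1)]
  exact h

lemma ev_add (p q : ℕ) (x y : ((sgb k G).X p).X q) :
    ev G p q (x + y) = ev G p q x + ev G p q y := rfl

lemma ev_zero (p q : ℕ) : ev G p q (0 : ((sgb k G).X p).X q) = 0 := rfl

/-- the coefficient map as an additive map -/
def evA (G : SimplicialObject GrpCat.{u}) (p q : ℕ) : ((sgb k G).X p).X q →+ k where
  toFun := ev G p q
  map_zero' := ev_zero p q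
  map_add' := ev_add p q

lemma ev_surj (p q : ℕ) (c : k) : ∃ x : ((sgb k G).X p).X q, ev G p q x = c := by
  refine ⟨(Finsupp.single (fun _ => 1) c : (Fin q → (G _⦋p⦌ : GrpCat.{u})) →₀ k), ?_⟩
  simp [ev]

lemma ev_map (p q : ℕ) [Subsingleton (G _⦋p⦌ : GrpCat.{u})]
    [Subsingleton (G _⦋p + 1⦌ : GrpCat.{u})] (i : Fin (p + 2))
    (x : ((sgb k G).X (p + 1)).X q) :
    ev G p q (((gch k).map (G.δ i)).f q x) = ev G (p + 1) q x := by
  have h1 := gch_map_f k (G.δ i) q x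
  have h2 : (show (Fin q → (G _⦋p + 1⦌ : GrpCat.{u})) →₀ k from x) =
      Finsupp.single (fun _ => 1) (ev G (p + 1) q x) := by
    apply ev_inj (G := G) (p + 1) q
    simp [ev]
  have h3 : ev G p q (((gch k).map (G.δ i)).f q x) = ev G p q
    (show ((sgb k G).X p).X q from
      (Finsupp.lmapDomain k k (fun g : Fin q → (G _⦋p + 1⦌ : GrpCat.{u}) => (G.δ i).hom ∘ g) x)) :=
    congrArg (ev G p q) h1
  rw [h3]
  show (Finsupp.lmapDomain k k
    (fun g : Fin q → (G _⦋p + 1⦌ : GrpCat.{u}) => (G.δ i).hom ∘ g) x) (fun _ => 1) = _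
  have h4 : (Finsupp.lmapDomain k k
      (fun g : Fin q → (G _⦋p + 1⦌ : GrpCat.{u}) => (G.δ i).hom ∘ g) x) =
      Finsupp.single ((G.δ i).hom ∘ (fun _ => 1)) (ev G (p + 1) q x) := by
    refine (congrArg (Finsupp.lmapDomain k k
      (fun g : Fin q → (G _⦋p + 1⦌ : GrpCat.{u}) => (G.δ i).hom ∘ g)) h2).trans ?_
    exact Finsupp.mapDomain_single
  rw [h4, Subsingleton.elim ((G.δ i).hom ∘ (fun _ : Fin q => 1)) (fun _ => 1)]
  simp

lemma sum_f_el {C D : ChainComplex (ModuleCat.{u} k) ℕ} {m : ℕ} (a : Fin m → ℤ)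
    (F : Fin m → (C ⟶ D)) (q : ℕ) (x : C.X q) :
    (∑ i, a i • F i).f q x = ∑ i, a i • ((F i).f q x) := by
  rw [← HomologicalComplex.Hom.fAddMonoidHom_apply, map_sum]
  simp only [HomologicalComplex.Hom.fAddMonoidHom_apply, HomologicalComplex.zsmul_f_apply]
  show (∑ i, a i • (F i).f q).hom x = _
  rw [ModuleCat.hom_sum, LinearMap.sum_apply]
  rfl

lemma sgb_d (p q : ℕ) (x : ((sgb k G).X (p + 1)).X q) :
    ((sgb k G).d (p + 1) p).f q x =
      ∑ i : Fin (p + 2), (-1 : ℤ) ^ (i : ℕ) • (((gch k).map (G.δ i)).f q x) := by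
  have h1 : (sgb k G).d (p + 1) p =
      ∑ i : Fin (p + 2), (-1 : ℤ) ^ (i : ℕ) • ((gch k).map (G.δ i)) :=
    AlgebraicTopology.alternatingFaceMapComplex_obj_d _ _
  rw [h1]
  exact sum_f_el _ _ q x

lemma ev_d (hG : ∀ p : ℕ, Subsingleton (G _⦋p⦌ : GrpCat.{u})) (p q : ℕ)
    (x : ((sgb k G).X (p + 1)).X q) :
    ev G p q (((sgb k G).d (p + 1) p).f q x) =
      (if Even (p + 2) then (0 : k) else 1) * ev G (p + 1) q x := by
  have h1 : ev G p q (((sgb k G).d (p + 1) p).f q x) =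
      evA G p q (∑ i : Fin (p + 2), (-1 : ℤ) ^ (i : ℕ) • (((gch k).map (G.δ i)).f q x)) :=
    congrArg (ev G p q) (sgb_d p q x)
  have := hG p
  have := hG (p + 1)
  have h2 : ∀ i : Fin (p + 2), evA G p q (((gch k).map (G.δ i)).f q x) = ev G (p + 1) q x :=
    fun i => ev_map p q i x
  have h3 : ∀ i : Fin (p + 2), evA G p q ((-1 : ℤ) ^ (i : ℕ) • (((gch k).map (G.δ i)).f q x)) =
      (-1 : ℤ) ^ (i : ℕ) • ev G (p + 1) q x := fun i =>
    (map_zsmul (evA G p q) ((-1 : ℤ) ^ (i : ℕ)) (((gch k).map (G.δ i)).f q x)).trans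
      (congrArg (fun y => (-1 : ℤ) ^ (i : ℕ) • y) (h2 i))
  have h4 := (map_sum (evA G p q)
    (fun i : Fin (p + 2) => (-1 : ℤ) ^ (i : ℕ) • (((gch k).map (G.δ i)).f q x)) Finset.univ).trans
    (Finset.sum_congr rfl (fun i _ => h3 i))
  refine (h1.trans h4).trans ?_
  rw [← Finset.sum_smul, zsmul_eq_mul, ← Fin.sum_neg_one_pow k (p + 2)]
  push_cast
  rfl

/-- the natural map is bijective for a trivial simplicial group -/
theorem sg_triv (hG : ∀ p : ℕ, Subsingleton (G _⦋p⦌ : GrpCat.{u})) (n : ℕ) :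
    NatBij k G n := by
  apply c0_bij_row
  · intro q x
    have := hG 0
    apply ev_inj (G := G) 0 q
    rw [ev_d hG, if_pos (by decide), zero_mul]
    rfl
  · intro p q x hx
    have h1 := ev_d hG p q x
    rw [hx, ev_zero] at h1
    have := hG (p + 1)
    by_cases hp : Even (p + 2)
    · obtain ⟨w, hw⟩ := ev_surj (k := k) (G := G) (p + 2) q (ev G (p + 1) q x)
      refine ⟨w, ?_⟩
      apply ev_inj (G := G) (p + 1) q
      rw [ev_d hG, hw, if_neg, one_mul]
      intro h2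
      rw [Nat.even_iff] at hp h2
      omega
    · rw [if_neg hp, one_mul] at h1
      refine ⟨0, ?_⟩
      rw [map_zero]
      apply ev_inj (G := G) (p + 1) q
      rw [ev_zero, h1]

end Triv

end Run7.h798
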