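import Pool.Agent.Run7.h798.PLRes
import Pool.Agent.Run7.h798.Sg

/-!
The kernel of the restriction to the components with finite orbit is acyclic.
-/

namespace Run7.h798

open Topology CategoryTheory Simplicial

section

variable (d : ℕ) {M : Type} [TopologicalSpace M] [ChartedSpace (HSp d) M]

/-- the permutation underlying a simplex -/
def toPerm (n : ℕ) : PLG d M n →* Equiv.Perm (Cyl M n) where
  toFun F := ⟨fn F, fn F⁻¹, fn_inv F, fn_inv' F⟩
  map_one' := rfl
  map_mul' _ _ := rfl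

lemma toPerm_inj (n : ℕ) : Function.Injective (toPerm d (M := M) n) := by
  intro F G h
  apply fn_ext
  intro z
  exact DFunLike.congr_fun h z

/-- restriction to the finite part -/
noncomputable def rho (M : Type) [TopologicalSpace M] [ChartedSpace (HSp d) M] (n : ℕ) :
    PLG d M n →* PLG d (finPart d M) n :=
  resn (finPart_inv d M) n

/-- the kernel of the restriction to the finite part, as a group of permutations -/
noncomputable def WW (d : ℕ) (M : Type) [TopologicalSpace M] [ChartedSpace (HSp d) M] (n : ℕ) :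
    Subgroup (Equiv.Perm (Cyl M n)) :=
  (rho d M n).ker.map (toPerm d n)

lemma mem_WW {n : ℕ} {w : Equiv.Perm (Cyl M n)} :
    w ∈ WW d M n ↔ ∃ F : PLG d M n, (∀ z : Cyl M n, z.2 ∈ finPart d M → fn F z = z) ∧
      ∀ z, fn F z = w z := by
  constructor
  · rintro ⟨F, hF, rfl⟩
    refine ⟨F, ?_, fun _ => rfl⟩
    intro z hz
    obtain ⟨y, rfl⟩ := mem_jn hz
    have h1 : rho d M n F = 1 := hF
    have h2 := jn_resn (finPart_inv d M) F y
    rw [← h2]
    show jn (finPart d M) n (fn (rho d M n F) y) = _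
    rw [h1]
    rfl
  · rintro ⟨F, hF, h⟩
    refine ⟨F, ?_, Equiv.ext h⟩
    apply fn_ext
    intro z
    apply jn_inj
    refine (jn_resn (finPart_inv d M) F z).trans ?_
    exact hF _ z.2.2

include d in
lemma cc_open (x : M) : ∀ᶠ y in 𝓝 x, cc y = cc x := by
  have := locM d M
  refine Filter.mem_of_superset ((isOpen_connectedComponent (x := x)).mem_nhds
    mem_connectedComponent) ?_
  intro y hy
  exact ConnectedComponents.coe_eq_coe'.2 hy

include d in
lemma cc_open' {n : ℕ} (z : Cyl M n) : ∀ᶠ w in 𝓝 z, cc w.2 = cc z.2 :=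
  (snd_cont.tendsto z).eventually (cc_open d z.2)

/-- a map which is locally given by homeomorphisms of the group -/
lemma glue_PL {n : ℕ} (g : Equiv.Perm (Cyl M n))
    (h : ∀ z, ∃ F : PLG d M n, ∀ᶠ w in 𝓝 z, g w = fn F w) :
    Continuous g ∧ (∀ z, (g z).1 = z.1) ∧ ∀ z, PLAt d (fun w => (g w).2) z := by
  refine ⟨?_, ?_, ?_⟩
  · rw [continuous_iff_continuousAt]
    intro z
    obtain ⟨F, hF⟩ := h z
    exact (fn_cont F).continuousAt.congr_of_eventuallyEq hF
  · intro z
    obtain ⟨F, hF⟩ := h z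
    rw [hF.self_of_nhds]
    exact fn_fst F z
  · intro z
    obtain ⟨F, hF⟩ := h z
    obtain ⟨A, hA, h1⟩ := fn_PL F z
    refine ⟨A, hA, ?_⟩
    filter_upwards [hF, h1] with w hw1 hw2
    have h2 : g z = fn F z := hF.self_of_nhds
    show ∃ a ∈ A, (chartAt (HSp d) (g z).2 (g w).2).1 = _
    rw [hw1, h2]
    exact hw2

theorem glue_WW (n : ℕ) : Glue (fun z : Cyl M n => cc z.2) (WW d M n) where
  comp := by
    intro w hw s s' hs
    obtain ⟨F, _, hF⟩ := (mem_WW d).1 hw
    rw [← hF, ← hF]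
    exact cc_act d F hs
  glue := by
    intro g hg
    have h1 : ∀ z : Cyl M n, ∃ F : PLG d M n,
        (∀ z : Cyl M n, z.2 ∈ finPart d M → fn F z = z) ∧
        ∀ w : Cyl M n, cc w.2 = cc z.2 → g w = fn F w := by
      intro z
      obtain ⟨w, hw, hw2⟩ := hg (cc z.2)
      obtain ⟨F, hF1, hF2⟩ := (mem_WW d).1 hw
      exact ⟨F, hF1, fun y hy => (hw2 y hy).trans (hF2 y).symm⟩
    have h2 : ∀ z, ∃ F : PLG d M n, ∀ᶠ w in 𝓝 z, g w = fn F w := by
      intro z
      obtain ⟨F, _, hF⟩ := h1 z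
      refine ⟨F, ?_⟩
      filter_upwards [cc_open' d z] with w hw using hF w hw
    have h3 : ∀ z, ∃ F : PLG d M n, ∀ᶠ w in 𝓝 z, g.symm w = fn F w := by
      intro z
      obtain ⟨F, _, hF⟩ := h1 (g.symm z)
      refine ⟨F⁻¹, ?_⟩
      filter_upwards [cc_open' d z] with w hw
      have h4 : fn F⁻¹ z = g.symm z := by
        have h5 := hF (g.symm z) rfl
        rw [Equiv.apply_symm_apply] at h5
        have h6 := congrArg (fn F⁻¹) h5
        rwa [fn_inv] at h6
      have h5 : cc (fn F⁻¹ w).2 = cc (g.symm z).2 := by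
        rw [← h4]
        exact cc_act d F⁻¹ hw
      have h6 := hF _ h5
      rw [Equiv.symm_apply_eq, h6, fn_inv']
    obtain ⟨c1, c2, c3⟩ := glue_PL d g h2
    obtain ⟨c4, c5, c6⟩ := glue_PL d g.symm h3
    refine (mem_WW d).2 ⟨mkG g g.symm g.symm_apply_apply g.apply_symm_apply c1 c4 c2 c5 c3 c6,
      ?_, fun _ => rfl⟩
    intro z hz
    obtain ⟨F, hF1, hF2⟩ := h1 z
    exact (hF2 z rfl).trans (hF1 z hz)
  inf := by
    rintro i ⟨w, hw, s, rfl, hs⟩
    obtain ⟨F, hF1, hF2⟩ := (mem_WW d).1 hw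
    have h1 : s.2 ∉ finPart d M := by
      intro h
      exact hs ((hF2 s).symm.trans (hF1 s h))
    have h2 : (orbitC d M s.2).Infinite := h1
    refine h2.mono ?_
    rintro c ⟨G, t, rfl⟩
    let cG : PLG d M n := pull (fun _ : Fin (n + 1) => (0 : Fin 1)) G
    let r := rho d M n cG
    let e := extn (finPart_closed d M) n r
    have hker : (e⁻¹ * cG) ∈ (rho d M n).ker := by
      rw [MonoidHom.mem_ker, map_mul, map_inv]
      have h3 : rho d M n e = r := res_ext (finPart_closed d M) (finPart_inv d M) n r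
      rw [h3, inv_mul_cancel]
    refine ⟨toPerm d n (e⁻¹ * cG), ⟨_, hker, rfl⟩, s, rfl, ?_⟩
    have h3 : (fn cG s).2 ∉ finPart d M := by
      intro h
      apply h1
      have h4 := finPart_inv d M n cG⁻¹ (fn cG s) h
      rwa [fn_inv] at h4
    have h4 : toPerm d n (e⁻¹ * cG) s = fn cG s := by
      show fn e⁻¹ (fn cG s) = fn cG s
      have h5 : e⁻¹ = extn (finPart_closed d M) n r⁻¹ := (map_inv _ _).symm
      rw [h5, fn_extn]
      exact extF_not _ h3
    rw [h4]
    have h5 : smap (fun _ : Fin (n + 1) => (0 : Fin 1)) s.1 = t := by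
      have : Subsingleton (Spx 0) := inferInstanceAs (Subsingleton (stdSimplex ℝ (Fin 1)))
      exact Subsingleton.elim _ _
    have h6 : (fn cG s).2 = (fn G (t, s.2)).2 := by
      rw [← h5]
      rfl
    exact congrArg cc h6

end

end Run7.h798
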