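import Pool.Agent.Run7.h798.PLGlue

/-!
Reduction to the components with finite orbit.
-/

namespace Run7.h798

open Topology CategoryTheory Simplicial

section

variable (d : ℕ) (M : Type) [TopologicalSpace M] [ChartedSpace (HSp d) M]

/-- restriction to the finite part as a morphism of simplicial groups -/
noncomputable def resS : PLs d M ⟶ PLs d (finPart d M) where
  app Δ := GrpCat.ofHom (rho d M Δ.unop.len)
  naturality Δ Δ' f := by
    apply GrpCat.hom_ext
    apply MonoidHom.ext
    intro F
    apply fn_ext
    intro z
    rfl

/-- extension by the identity as a morphism of simplicial groups -/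
noncomputable def extS : PLs d (finPart d M) ⟶ PLs d M where
  app Δ := GrpCat.ofHom (extn (finPart_closed d M) Δ.unop.len)
  naturality Δ Δ' f := by
    apply GrpCat.hom_ext
    apply MonoidHom.ext
    intro F
    apply fn_ext
    intro z
    show extF (finPart d M) (pull f.unop.toOrderHom F) z =
      pullF f.unop.toOrderHom (extF (finPart d M) F) z
    by_cases hz : z.2 ∈ finPart d M
    · obtain ⟨y, rfl⟩ := mem_jn hz
      refine (extF_jn _ y).trans ?_
      refine Prod.ext rfl ?_
      exact (congrArg (fun z : Cyl M Δ.unop.len => z.2)
        (extF_jn F (smap f.unop.toOrderHom y.1, y.2))).symm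
    · refine (extF_not _ hz).trans ?_
      refine Prod.ext rfl ?_
      have h1 : ((smap f.unop.toOrderHom z.1, z.2) : Cyl M Δ.unop.len).2 ∉
        finPart d M := hz
      exact (congrArg (fun z : Cyl M Δ.unop.len => z.2) (extF_not F h1)).symm

lemma extS_resS : extS d M ≫ resS d M = 𝟙 _ := by
  apply NatTrans.ext
  funext Δ
  apply GrpCat.hom_ext
  apply MonoidHom.ext
  intro F
  exact res_ext (finPart_closed d M) (finPart_inv d M) Δ.unop.len F

include d in
lemma count_cc [SecondCountableTopology M] : Countable (_root_.ConnectedComponents M) := by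
  have := locM d M
  have h1 : DenseRange (ConnectedComponents.mk : M → _root_.ConnectedComponents M) :=
    ConnectedComponents.surjective_coe.denseRange
  have h2 : TopologicalSpace.SeparableSpace (_root_.ConnectedComponents M) :=
    h1.separableSpace ConnectedComponents.continuous_coe
  exact TopologicalSpace.separableSpace_iff_countable.1 h2

theorem main_iff [SecondCountableTopology M] (A : Type) [CommRing A] (k : ℕ) :
    NatBij A (PLs d M) k ↔ NatBij A (PLs d (finPart d M)) k := by
  apply sg_bij_iff A (resS d M) (extS d M) (extS_resS d M)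
  intro p
  refine ⟨(rho d M p).ker, inferInstance, (rho d M p).ker.subtype, Subtype.val_injective, ?_, ?_⟩
  · intro g
    constructor
    · intro h
      exact ⟨⟨g, h⟩, rfl⟩
    · rintro ⟨a, rfl⟩
      exact a.2
  · intro q
    have h1 : Countable (_root_.ConnectedComponents M) := count_cc d M
    have h2 : Function.Surjective (fun z : Cyl M p => cc z.2) := by
      intro c
      obtain ⟨x, rfl⟩ := ConnectedComponents.surjective_coe c
      have t : Spx p := (Classical.arbitrary (stdSimplex ℝ (Fin (p + 1))) :)
      exact ⟨(t, x), rfl⟩
    have h3 : Ex A (WW d M p) q := glue_acyclic A h2 q (WW d M p) (glue_WW d p)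
    exact Ex_iso A (((rho d M p).ker.equivMapOfInjective (toPerm d p) (toPerm_inj d p)).symm) h3

theorem main_triv [SecondCountableTopology M] (A : Type) [CommRing A] (k : ℕ)
    (h : finPart d M = ⊥) : NatBij A (PLs d M) k := by
  rw [main_iff]
  apply sg_triv
  intro p
  refine ⟨fun F G => ?_⟩
  apply fn_ext
  intro z
  exfalso
  have h1 : z.2.1 ∈ (⊥ : TopologicalSpace.Opens M) := h.le z.2.2
  exact h1

end

end Run7.h798
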