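import Pool.Agent.Run7.h798.PLFin

/-!
Restriction to the part made of the components with finite orbit, and extension by the identity.
-/

namespace Run7.h798

open Topology CategoryTheory Simplicial

section

variable (d : ℕ) (M : Type) [TopologicalSpace M] [ChartedSpace (HSp d) M]

lemma finPart_closed : IsClosed (finPart d M : Set M) := by
  have := locM d M
  rw [← isOpen_compl_iff, isOpen_iff_mem_nhds]
  intro x hx
  refine Filter.mem_of_superset ((isOpen_connectedComponent (x := x)).mem_nhds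
    mem_connectedComponent) ?_
  intro y hy hy2
  apply hx
  have h1 : cc y = cc x := ConnectedComponents.coe_eq_coe'.2 hy
  show (orbitC d M x).Finite
  rw [← orbitC_congr d h1]
  exact hy2

lemma finPart_inv (n : ℕ) (F : PLG d M n) (z : Cyl M n) (hz : z.2 ∈ finPart d M) :
    (fn F z).2 ∈ finPart d M := by
  show (orbitC d M (fn F z).2).Finite
  rw [orbitC_eq]
  exact hz

variable {M}

section Res

variable (U : TopologicalSpace.Opens M)

/-- the inclusion of an open part -/
def jn (n : ℕ) (z : Cyl U n) : Cyl M n := (z.1, z.2.1)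

lemma jn_cont (n : ℕ) : Continuous (jn U n) :=
  mk_cont fst_cont (continuous_subtype_val.comp snd_cont)

lemma jn_emb (n : ℕ) : IsOpenEmbedding (jn U n) :=
  IsOpenEmbedding.id.prodMap U.isOpen.isOpenEmbedding_subtypeVal

lemma jn_inj (n : ℕ) : Function.Injective (jn U n) := (jn_emb U n).injective

/-- a map is piecewise linear at a point of an open part if it is so in the whole manifold -/
lemma PLAt_jn {n : ℕ} (f : Cyl U n → U) (z : Cyl U n) (g : Cyl M n → M)
    (hfg : ∀ w, g (jn U n w) = (f w).1) : PLAt d g (jn U n z) ↔ PLAt d f z := by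
  have h0 : ∀ A : Set (((Fin (n + 1) → ℝ) × (Fin d → ℝ)) →ᵃ[ℝ] (Fin d → ℝ)),
      (∀ᶠ w in 𝓝 (jn U n z), ∃ a ∈ A, (chartAt (HSp d) (g (jn U n z)) (g w)).1 =
        a (w.1.1, (chartAt (HSp d) (jn U n z).2 w.2).1)) ↔
      (∀ᶠ w in 𝓝 z, ∃ a ∈ A, (chartAt (HSp d) (f z) (f w)).1 =
        a (w.1.1, (chartAt (HSp d) z.2 w.2).1)) := by
    intro A
    rw [← (jn_emb U n).map_nhds_eq, Filter.eventually_map]
    simp only [hfg]
    rfl
  constructor
  · rintro ⟨A, hA, h⟩
    exact ⟨A, hA, (h0 A).1 h⟩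
  · rintro ⟨A, hA, h⟩
    exact ⟨A, hA, (h0 A).2 h⟩

section Inv

variable {d U}
variable (hinv : ∀ (n : ℕ) (F : PLG d M n) (z : Cyl M n), z.2 ∈ U → (fn F z).2 ∈ U)

/-- restriction of a homeomorphism to an invariant open part -/
def resF {n : ℕ} (F : PLG d M n) (z : Cyl U n) : Cyl U n :=
  (z.1, ⟨(fn F (jn U n z)).2, hinv n F _ z.2.2⟩)

lemma jn_resF {n : ℕ} (F : PLG d M n) (z : Cyl U n) :
    jn U n (resF hinv F z) = fn F (jn U n z) :=
  Prod.ext (fn_fst F (jn U n z)).symm rfl

lemma resF_cont {n : ℕ} (F : PLG d M n) : Continuous (resF hinv F) := by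
  rw [(jn_emb U n).continuous_iff]
  have h1 : jn U n ∘ resF hinv F = fn F ∘ jn U n := funext fun z => jn_resF hinv F z
  rw [h1]
  exact (fn_cont F).comp (jn_cont U n)

lemma resF_inv {n : ℕ} (F : PLG d M n) (z : Cyl U n) :
    resF hinv F⁻¹ (resF hinv F z) = z := by
  apply jn_inj
  rw [jn_resF, jn_resF, fn_inv]

lemma resF_PL {n : ℕ} (F : PLG d M n) (z : Cyl U n) :
    PLAt d (fun w => (resF hinv F w).2) z :=
  (PLAt_jn d U _ z (fun w => (fn F w).2) (fun _ => rfl)).1 (fn_PL F (jn U n z))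

/-- restriction to an invariant open part -/
noncomputable def resn (n : ℕ) : PLG d M n →* PLG d U n where
  toFun F := mkG (resF hinv F) (resF hinv F⁻¹) (resF_inv hinv F)
    (fun z => by
      have := resF_inv hinv F⁻¹ z
      rwa [inv_inv] at this)
    (resF_cont hinv F) (resF_cont hinv F⁻¹) (fun _ => rfl) (fun _ => rfl) (resF_PL hinv F)
    (resF_PL hinv F⁻¹)
  map_one' := fn_ext fun _ => rfl
  map_mul' F G := by
    apply fn_ext
    intro z
    apply jn_inj
    show jn U n (resF hinv (F * G) z) = jn U n (resF hinv F (resF hinv G z))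
    rw [jn_resF, jn_resF, jn_resF]
    rfl

lemma jn_resn {n : ℕ} (F : PLG d M n) (z : Cyl U n) :
    jn U n (fn (resn hinv n F) z) = fn F (jn U n z) := jn_resF hinv F z

end Inv

variable {d} in
open Classical in
/-- extension of a map by the identity -/
noncomputable def extF {n : ℕ} (F : PLG d U n) (z : Cyl M n) : Cyl M n :=
  if h : z.2 ∈ U then jn U n (fn F (z.1, ⟨z.2, h⟩)) else z

variable {U}

section Ext

variable {d}

lemma extF_jn {n : ℕ} (F : PLG d U n) (z : Cyl U n) :
    extF U F (jn U n z) = jn U n (fn F z) := by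
  have h : (jn U n z).2 ∈ U := z.2.2
  unfold extF
  rw [dif_pos h]
  rfl

lemma extF_not {n : ℕ} (F : PLG d U n) {z : Cyl M n} (hz : z.2 ∉ U) : extF U F z = z := by
  unfold extF
  rw [dif_neg hz]

omit [ChartedSpace (HSp d) M] in
lemma mem_jn {n : ℕ} {z : Cyl M n} (hz : z.2 ∈ U) : ∃ y, jn U n y = z := ⟨(z.1, ⟨z.2, hz⟩), rfl⟩

lemma extF_inv {n : ℕ} (F : PLG d U n) (z : Cyl M n) :
    extF U F⁻¹ (extF U F z) = z := by
  by_cases hz : z.2 ∈ U
  · obtain ⟨y, rfl⟩ := mem_jn hz
    rw [extF_jn, extF_jn, fn_inv]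
  · rw [extF_not F hz, extF_not _ hz]

lemma extF_fst {n : ℕ} (F : PLG d U n) (z : Cyl M n) : (extF U F z).1 = z.1 := by
  by_cases hz : z.2 ∈ U
  · obtain ⟨y, rfl⟩ := mem_jn hz
    rw [extF_jn]
    exact fn_fst F y
  · rw [extF_not F hz]

variable (hU : IsClosed (U : Set M))

include hU

omit [ChartedSpace (HSp d) M] in
lemma ev_not {n : ℕ} {z : Cyl M n} (hz : z.2 ∉ U) : ∀ᶠ w in 𝓝 z, w.2 ∉ U := by
  have h1 : IsOpen ((fun z : Cyl M n => z.2) ⁻¹' (U : Set M)ᶜ) :=
    hU.isOpen_compl.preimage snd_cont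
  exact h1.mem_nhds hz

lemma extF_cont {n : ℕ} (F : PLG d U n) : Continuous (extF U F) := by
  rw [continuous_iff_continuousAt]
  intro z
  by_cases hz : z.2 ∈ U
  · obtain ⟨y, rfl⟩ := mem_jn hz
    rw [← (jn_emb U n).continuousAt_iff]
    have h1 : extF U F ∘ jn U n = jn U n ∘ fn F := by
      funext w
      exact extF_jn F w
    rw [h1]
    exact ((jn_cont U n).comp (fn_cont F)).continuousAt
  · have h1 : extF U F =ᶠ[𝓝 z] id := by
      filter_upwards [ev_not hU hz] with w hw
      exact extF_not F hw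
    exact (continuousAt_id.congr_of_eventuallyEq h1)

lemma extF_PL {n : ℕ} (F : PLG d U n) (z : Cyl M n) :
    PLAt d (fun w => (extF U F w).2) z := by
  by_cases hz : z.2 ∈ U
  · obtain ⟨y, rfl⟩ := mem_jn hz
    refine (PLAt_jn d U (fun w => (fn F w).2) y _ ?_).2 (fn_PL F y)
    intro w
    show (extF U F (jn U n w)).2 = _
    rw [extF_jn]
    rfl
  · refine ⟨{(LinearMap.snd ℝ (Fin (n + 1) → ℝ) (Fin d → ℝ)).toAffineMap},
        Set.finite_singleton _, ?_⟩
    filter_upwards [ev_not hU hz] with w hw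
    refine ⟨_, rfl, ?_⟩
    show (chartAt (HSp d) (extF U F z).2 (extF U F w).2).1 = _
    rw [extF_not F hz, extF_not F hw]
    rfl

/-- extension by the identity -/
noncomputable def extn (n : ℕ) : PLG d U n →* PLG d M n where
  toFun F := mkG (extF U F) (extF U F⁻¹) (extF_inv F)
    (fun z => by
      have := extF_inv F⁻¹ z
      rwa [inv_inv] at this)
    (extF_cont hU F) (extF_cont hU F⁻¹) (extF_fst F) (extF_fst F⁻¹) (extF_PL hU F)
    (extF_PL hU F⁻¹)
  map_one' := by
    apply fn_ext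
    intro z
    show extF U 1 z = z
    by_cases hz : z.2 ∈ U
    · obtain ⟨y, rfl⟩ := mem_jn hz
      rw [extF_jn]
      rfl
    · rw [extF_not _ hz]
  map_mul' F G := by
    apply fn_ext
    intro z
    show extF U (F * G) z = extF U F (extF U G z)
    by_cases hz : z.2 ∈ U
    · obtain ⟨y, rfl⟩ := mem_jn hz
      rw [extF_jn, extF_jn, extF_jn]
      rfl
    · rw [extF_not _ hz, extF_not _ hz, extF_not _ hz]

omit hU in
lemma fn_extn (hU : IsClosed (U : Set M)) {n : ℕ} (F : PLG d U n) (z : Cyl M n) :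
    fn (extn hU n F) z = extF U F z := rfl

lemma res_ext (hinv : ∀ (n : ℕ) (F : PLG d M n) (z : Cyl M n), z.2 ∈ U → (fn F z).2 ∈ U)
    (n : ℕ) (F : PLG d U n) : resn hinv n (extn hU n F) = F := by
  apply fn_ext
  intro z
  apply jn_inj
  rw [jn_resn, fn_extn]
  exact extF_jn F z

end Ext

end Res

end

end Run7.h798
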