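import Pool.Agent.Run7.h798.OrbCx

/-!
Shapiro's lemma for complexes of orbits.
-/

namespace Run7.h798

open Finsupp

section

variable (k : Type*) [CommRing k]

/-- exactness at lists of length `q` of the augmented complex of a group
(that is, vanishing of the reduced homology in degree `q - 1`) -/
def Ex (S : Type*) [Group S] (q : ℕ) : Prop :=
  ∀ u ∈ SP k S {p : PUnit.{1} × List S | p.2.length = q}, dV k u = 0 →
    ∃ w ∈ SP k S {p : PUnit.{1} × List S | p.2.length = q + 1}, dV k w = u

variable {G A : Type*} [Group G] [MulAction G A]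

/-- chosen representative of an orbit -/
noncomputable def rp (G : Type*) {A : Type*} [Group G] [MulAction G A] (x : A) : A :=
  Quotient.out (cls G x)

lemma cls_rp (x : A) : cls G (rp G x) = cls G x := Quotient.out_eq (cls G x)

lemma rp_smul (g : G) (x : A) : rp G (g • x) = rp G x := by
  unfold rp; rw [cls_smul]

lemma rp_rp (x : A) : rp G (rp G x) = rp G x := by
  have : cls G (rp G x) = cls G x := cls_rp x
  show Quotient.out (cls G (rp G x)) = _
  rw [this]
  rfl

lemma exists_tr (x : A) : ∃ g : G, g • rp G x = x := by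
  obtain ⟨g, hg⟩ := cls_eq_iff.1 (cls_rp (G := G) x).symm
  exact ⟨g, hg⟩

/-- chosen transporter -/
noncomputable def tr (G : Type*) {A : Type*} [Group G] [MulAction G A] (x : A) : G :=
  (exists_tr (G := G) x).choose

lemma tr_smul (x : A) : tr G x • rp G x = x := (exists_tr (G := G) x).choose_spec

/-- identity data -/
def eId (G A : Type*) [Group G] [MulAction G A] : EqMap G G A A G G where
  f := id
  a := fun _ z => z
  φ := fun g _ => g
  hf := fun _ _ => rfl
  ha := fun _ _ _ => rfl

/-- retraction data -/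
noncomputable def eAl (G A : Type*) [Group G] [MulAction G A] : EqMap G G A A G G where
  f := id
  a := fun x z => z * tr G (z⁻¹ • x)
  φ := fun g _ => g
  hf := fun _ _ => rfl
  ha := fun g x z => by
    simp only [smul_eq_mul, mul_inv_rev, mul_smul, inv_smul_smul, mul_assoc]

lemma eId_map (y : Orb G (A × List G) →₀ k) : (eId G A).map k y = y := by
  obtain ⟨v, rfl⟩ := qm_surj k G y
  rw [EqMap.map_mk]
  congr 1
  have : vop k (eId G A).f (fun x => lmp k ((eId G A).a x)) = LinearMap.id := by
    apply hom_ext_vt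
    intro x v
    rw [vop_vt]
    have h : lmp k ((eId G A).a x) = LinearMap.id := by
      apply Finsupp.lhom_ext'
      intro l
      apply LinearMap.ext_ring
      simp [eId]
    rw [h]
    rfl
  rw [this]
  rfl

/-- inclusion of the complex of a stabiliser -/
def eIn (a : A) : EqMap (MulAction.stabilizer G a) G PUnit.{1} A (MulAction.stabilizer G a) G where
  f := fun _ => a
  a := fun _ s => (s : G)
  φ := fun s _ => (s : G)
  hf := fun s _ => (s.2).symm
  ha := fun _ _ _ => rfl

open Classical in
/-- the cocycle -/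
noncomputable def bet (a : A) (x : A) (z : G) : MulAction.stabilizer G a :=
  if h : rp G x = a then ⟨(tr G x)⁻¹ * (z * tr G (z⁻¹ • x)), by
    rw [MulAction.mem_stabilizer_iff, mul_smul, mul_smul]
    have h1 : tr G (z⁻¹ • x) • a = z⁻¹ • x := by
      rw [← h, ← rp_smul (G := G) z⁻¹ x]; exact tr_smul _
    rw [h1, smul_inv_smul, inv_smul_eq_iff, ← h]
    exact (tr_smul x).symm⟩ else 1

lemma bet_val (a x : A) (h : rp G x = a) (z : G) :
    ((bet a x z : MulAction.stabilizer G a) : G) = (tr G x)⁻¹ * (z * tr G (z⁻¹ • x)) := by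
  simp [bet, h]

open Classical in
/-- the operators of the projection -/
noncomputable def kapO (a : A) (x : A) :
    (List G →₀ k) →ₗ[k] (List (MulAction.stabilizer G a) →₀ k) :=
  if rp G x = a then lmp k (bet a x) else 0

open Classical in
/-- change of transporter -/
noncomputable def kapφ (a : A) (g : G) (x : A) : MulAction.stabilizer G a :=
  if h : rp G x = a then ⟨(tr G (g • x))⁻¹ * (g * tr G x), by
    rw [MulAction.mem_stabilizer_iff, mul_smul, mul_smul]
    have h1 : tr G x • a = x := by rw [← h]; exact tr_smul x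
    rw [h1, inv_smul_eq_iff, ← h, ← rp_smul (G := G) g x]
    exact (tr_smul _).symm⟩ else 1

lemma kapφ_val (a : A) (g : G) (x : A) (h : rp G x = a) :
    ((kapφ a g x : MulAction.stabilizer G a) : G) = (tr G (g • x))⁻¹ * (g * tr G x) := by
  simp [kapφ, h]

lemma kap_inv (a : A) (g : G) (y : A × List G) :
    qm k (MulAction.stabilizer G a) (vop k (fun _ => PUnit.unit.{1}) (kapO k a)
      (single (g • y) 1)) =
    qm k (MulAction.stabilizer G a) (vop k (fun _ => PUnit.unit.{1}) (kapO k a) (single y 1)) := by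
  refine vop_inv k (fun _ => PUnit.unit.{1}) (kapO k a) (kapφ a) (fun _ _ => rfl) ?_ g y
  intro g x l
  unfold kapO
  by_cases h : rp G x = a
  · have h' : rp G (g • x) = a := by rw [rp_smul, h]
    rw [if_pos h, if_pos h', lmp_single, lmp_single, lmp_single, smul_list_def, List.map_map,
      List.map_map]
    congr 1
    apply List.map_congr_left
    intro z _
    apply Subtype.ext
    simp only [Function.comp_apply, Subgroup.coe_mul, smul_eq_mul]
    rw [bet_val a _ h', bet_val a _ h, kapφ_val a g x h]
    simp only [mul_inv_rev, mul_smul, inv_smul_smul]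
    group
  · have h' : ¬ rp G (g • x) = a := by rw [rp_smul]; exact h
    rw [if_neg h, if_neg h']
    simp

/-- projection to the complex of a stabiliser -/
noncomputable def kap (a : A) : (Orb G (A × List G) →₀ k) →ₗ[k]
    (Orb (MulAction.stabilizer G a) (PUnit.{1} × List (MulAction.stabilizer G a)) →₀ k) :=
  desc k (vop k (fun _ => PUnit.unit.{1}) (kapO k a)) (kap_inv k a)

lemma kap_dV (a : A) (y : Orb G (A × List G) →₀ k) : kap k a (dV k y) = dV k (kap k a y) := by
  obtain ⟨v, rfl⟩ := qm_surj k G y
  unfold kap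
  rw [dV_mk, desc_mk, desc_mk, dV_mk]
  congr 1
  unfold bV
  rw [vop_vop, vop_vop]
  congr 2
  funext x
  apply LinearMap.ext
  intro w
  unfold kapO
  by_cases h : rp G x = a
  · simp [h, lmp_bd]
  · simp [h]

lemma kap_mem (a : A) {q : ℕ} {y : Orb G (A × List G) →₀ k}
    (hy : y ∈ SP k G {p : A × List G | p.2.length = q}) :
    kap k a y ∈ SP k (MulAction.stabilizer G a)
      {p : PUnit.{1} × List (MulAction.stabilizer G a) | p.2.length = q} := by
  refine desc_mem k _ _ ?_ hy
  rintro ⟨x, l⟩ hl
  rw [← vt_single, vop_vt]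
  unfold kapO
  by_cases h : rp G x = a
  · rw [if_pos h, lmp_single, vt_single]
    refine single_mem_supported k 1 ?_
    simpa using hl
  · rw [if_neg h]
    simp

/-- decomposition of the retraction -/
lemma eAl_eq (T : Finset A) {v : A × List G →₀ k}
    (hv : v ∈ supported k k {p : A × List G | rp G p.1 ∈ T}) :
    (eAl G A).map k (qm k G v) = ∑ a ∈ T, (eIn a).map k (kap k a (qm k G v)) := by
  classical
  rw [← sub_eq_zero]
  have h1 : ∀ S : (A × List G →₀ k) →ₗ[k] (Orb G (A × List G) →₀ k),
      S = Finsupp.linearCombination k (fun p => S (single p 1)) := by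
    intro S
    apply Finsupp.lhom_ext'
    intro y
    apply LinearMap.ext_ring
    simp
  set S : (A × List G →₀ k) →ₗ[k] (Orb G (A × List G) →₀ k) :=
    ((eAl G A).map k) ∘ₗ (qm k G) - ∑ a ∈ T, ((eIn a).map k) ∘ₗ (kap k a) ∘ₗ (qm k G) with hS
  have h2 : S v ∈ (⊥ : Submodule k (Orb G (A × List G) →₀ k)) := by
    rw [h1 S]
    refine lin_mem k _ ?_ hv
    rintro ⟨x, l⟩ hx
    have hx' : rp G x ∈ T := hx
    rw [Submodule.mem_bot, hS]
    simp only [LinearMap.sub_apply, LinearMap.coe_comp, Function.comp_apply,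
      LinearMap.sum_apply, qm_single]
    rw [sub_eq_zero, EqMap.map_single]
    rw [Finset.sum_eq_single_of_mem _ hx']
    · have h3 : kap k (rp G x) (single (cls G (x, l)) 1) =
          single (cls _ (PUnit.unit.{1}, l.map (bet (rp G x) x))) 1 := by
        unfold kap
        rw [← qm_single, desc_mk, ← vt_single, vop_vt]
        unfold kapO
        rw [if_pos rfl, lmp_single, vt_single, qm_single]
      rw [h3, EqMap.map_single]
      congr 1
      rw [cls_eq_iff]
      refine ⟨tr G x, ?_⟩
      show (tr G x • rp G x, tr G x • List.map _ (List.map _ l)) = (x, _)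
      rw [tr_smul, smul_list_def, List.map_map, List.map_map]
      congr 1
      apply List.map_congr_left
      intro z _
      simp only [Function.comp_apply, eIn, eAl, smul_eq_mul]
      rw [bet_val _ _ rfl]
      group
    · intro a ha hne
      have h3 : kap k a (single (cls G (x, l)) 1) = 0 := by
        unfold kap
        rw [← qm_single, desc_mk, ← vt_single, vop_vt]
        unfold kapO
        rw [if_neg (fun h => hne h.symm)]
        simp
      rw [h3, map_zero]
  rw [Submodule.mem_bot, hS] at h2
  simpa using h2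

/-- Shapiro decomposition of cycles -/
lemma shap (good : Set A) (hg : ∀ (g : G) x, x ∈ good → g • x ∈ good) (q : ℕ)
    (y : Orb G (A × List G) →₀ k)
    (hy : y ∈ SP k G {p : A × List G | p.1 ∈ good ∧ p.2.length = q})
    (hz : dV k y = 0) :
    ∃ T : Finset A, (∀ a ∈ T, a ∈ good) ∧
      (∀ a, dV k (kap k a y) = 0) ∧
      ∃ w ∈ SP k G {p : A × List G | p.1 ∈ good ∧ p.2.length = q + 1},
        y = ∑ a ∈ T, (eIn a).map k (kap k a y) - dV k w := by
  classical
  obtain ⟨P, hP1, hP2⟩ := prism k (eId G A) (eAl G A) rfl rfl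
  obtain ⟨v, hv, rfl⟩ := (mem_SP k).1 hy
  have hgr : ∀ x ∈ good, rp G x ∈ good := by
    intro x hx
    have := hg (tr G x)⁻¹ x hx
    rwa [inv_smul_eq_iff.2 (tr_smul x).symm] at this
  refine ⟨v.support.image (fun p => rp G p.1), ?_, ?_, P (qm k G v), ?_, ?_⟩
  · intro a ha
    obtain ⟨p, hp, rfl⟩ := Finset.mem_image.1 ha
    rw [mem_supported] at hv
    exact hgr _ (hv hp).1
  · intro a
    rw [← kap_dV, hz, map_zero]
  · exact hP2 good good q (fun x hx => hx) _ hy
  · have h1 := hP1 (qm k G v)
    rw [hz, map_zero, add_zero, eId_map] at h1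
    rw [eAl_eq k (v.support.image (fun p => rp G p.1))] at h1
    · rw [h1]; abel
    · rw [mem_supported]
      intro p hp
      show rp G p.1 ∈ v.support.image (fun p => rp G p.1)
      exact Finset.mem_image_of_mem (fun p : A × List G => rp G p.1) hp

lemma eIn_mem (a : A) {good : Set A} (ha : a ∈ good) {q : ℕ}
    {u : Orb (MulAction.stabilizer G a) (PUnit.{1} × List (MulAction.stabilizer G a)) →₀ k}
    (hu : u ∈ SP k (MulAction.stabilizer G a)
      {p : PUnit.{1} × List (MulAction.stabilizer G a) | p.2.length = q}) :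
    (eIn a).map k u ∈ SP k G {p : A × List G | p.1 ∈ good ∧ p.2.length = q} := by
  refine desc_mem k _ _ ?_ hu
  rintro ⟨x, l⟩ hl
  rw [← vt_single, vop_vt, lmp_single, vt_single]
  refine single_mem_supported k 1 ⟨ha, ?_⟩
  simpa using hl

/-- exactness of the columns -/
lemma col_exact (good : Set A) (hg : ∀ (g : G) x, x ∈ good → g • x ∈ good) (q : ℕ)
    (hex : ∀ a ∈ good, Ex k (MulAction.stabilizer G a) q)
    (y : Orb G (A × List G) →₀ k)
    (hy : y ∈ SP k G {p : A × List G | p.1 ∈ good ∧ p.2.length = q})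
    (hz : dV k y = 0) :
    ∃ w ∈ SP k G {p : A × List G | p.1 ∈ good ∧ p.2.length = q + 1}, dV k w = y := by
  classical
  obtain ⟨T, hT, h1, w, hw, h2⟩ := shap k good hg q y hy hz
  have hy' : y ∈ SP k G {p : A × List G | p.2.length = q} := by
    obtain ⟨v, hv, rfl⟩ := (mem_SP k).1 hy
    exact qm_mem_SP k (supported_mono (fun p hp => hp.2) hv)
  have h3 : ∀ a ∈ T, ∃ u ∈ SP k (MulAction.stabilizer G a)
      {p : PUnit.{1} × List (MulAction.stabilizer G a) | p.2.length = q + 1},
      dV k u = kap k a y := by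
    intro a ha
    exact hex a (hT a ha) _ (kap_mem k a hy') (h1 a)
  choose! u hu1 hu2 using h3
  refine ⟨∑ a ∈ T, (eIn a).map k (u a) - w, ?_, ?_⟩
  · refine Submodule.sub_mem _ (Submodule.sum_mem _ ?_) hw
    intro a ha
    exact eIn_mem k a (hT a ha) (hu1 a ha)
  · rw [map_sub, map_sum]
    rw [h2]
    congr 1
    apply Finset.sum_congr rfl
    intro a ha
    rw [← EqMap.map_dV, hu2 a ha]

end

end Run7.h798
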