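import Mathlib

/-!
Total complexes of first quadrant bicomplexes: the inclusion of the column of index zero.
-/

namespace Run7.h798

open CategoryTheory

universe u

variable {k : Type u} [CommRing k]

/-- first quadrant bicomplexes of modules -/
abbrev Bicx (k : Type u) [CommRing k] :=
  HomologicalComplex₂ (ModuleCat.{u} k) (ComplexShape.down ℕ) (ComplexShape.down ℕ)

/-- the total complex -/
noncomputable abbrev tot (K : Bicx k) : ChainComplex (ModuleCat.{u} k) ℕ :=
  K.total (ComplexShape.down ℕ)

variable (K L : Bicx k)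

/-- inclusion of a summand -/
noncomputable def io (p q n : ℕ) (h : p + q = n) : (K.X p).X q ⟶ (tot K).X n :=
  K.ιTotal (ComplexShape.down ℕ) p q n h

variable {K} in
lemma tot_ext {A : ModuleCat.{u} k} {n : ℕ} {f g : (tot K).X n ⟶ A}
    (h : ∀ p q (hpq : p + q = n), io K p q n hpq ≫ f = io K p q n hpq ≫ g) : f = g :=
  HomologicalComplex₂.total.hom_ext (ComplexShape.down ℕ) h

lemma d1_zero (q m : ℕ) : K.d₁ (ComplexShape.down ℕ) 0 q m = 0 := by
  apply HomologicalComplex₂.d₁_eq_zero
  simp

lemma d2_succ (p q m : ℕ) (h : p + q = m) :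
    K.d₂ (ComplexShape.down ℕ) p (q + 1) m =
      ((-1 : ℤˣ) ^ p) • ((K.X p).d (q + 1) q ≫ io K p q m h) := by
  rw [HomologicalComplex₂.d₂_eq K (ComplexShape.down ℕ) p (by simp : (ComplexShape.down ℕ).Rel (q + 1) q) m h]
  rfl

lemma io_d (p q n m : ℕ) (h : p + q = n) :
    io K p q n h ≫ (tot K).d n m = K.d₁ (ComplexShape.down ℕ) p q m + K.d₂ (ComplexShape.down ℕ) p q m := by
  unfold io tot
  rw [HomologicalComplex₂.total_d, Preadditive.comp_add, HomologicalComplex₂.ι_D₁, HomologicalComplex₂.ι_D₂]

/-- the inclusion of the column of index zero -/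
noncomputable def c0 (K : Bicx k) : K.X 0 ⟶ tot K where
  f n := io K 0 n n (by omega)
  comm' n m hnm := by
    obtain rfl : m + 1 = n := by simpa using hnm
    rw [io_d, d1_zero K (m + 1) m, d2_succ K 0 m m (by omega), zero_add, pow_zero, one_smul]

end Run7.h798
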